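import Pool.Agent.S2L.Stmts
import Pool.Agent.RU.Final

/-!
# The dichotomy: reflection conjecture, or E is not contained in S₂TIME(2^o(n))

If the reflection conjecture fails for `S`, then the `S`-proofs of the reflection sentences of every
theory in the class are constructed in polynomial time, so that the computations of the program
which checks them are given by a family of lists of small records, computable in polynomial time.
The digits of the records are coded by a set in E. If this set is in `S₂TIME(2^o(n))` the digits are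
decided by symmetric games, which contradicts the first part of `MainA`.
-/

namespace Pool.Agent.S2L

open Pool.Agent.H19 Pool.Agent.H19.T Pool.Agent.RU Pool.Agent.PO

namespace MB

/-- `S^1_2` is in the class. -/
theorem s12_inClass : InClassT S12 := by
  refine ⟨⟨ℕ, stdN, stdN_models⟩, fun _ => T.leaf, PolyTime.leaf, fun φ => ?_⟩
  constructor
  · exact fun h => Or.inl h
  · rintro (h | h)
    · exact h
    · exact absurd rfl h

/-- A theory given by a clocked program, with the models of a theory in the class, is in the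
class. -/
theorem inClass_of {c : Code} {κ : ℕ} {T₀ : Set Fm} (hT : InClassT T₀) (hh : HaltsWithin c κ)
    (hs : SameModels (theory c κ) T₀) : InClassT (theory c κ) := by
  obtain ⟨⟨M, A, hA⟩, _⟩ := hT
  choose f t hf ht using hh
  refine ⟨⟨M, A, (hs M A).2 hA⟩, f, ⟨c, κ, fun x => ⟨t x, hf x, ht x⟩⟩, fun φ => ?_⟩
  show (φ ∈ S12 ∨ Accepts c κ φ.enc) ↔ _
  rw [accepts_iff (hf φ.enc) (ht φ.enc)]

/-- The program which checks proofs is a sound checker. -/
theorem sound_of {S : Set Fm} {V : Code} {fV : T → T} {kV : ℕ}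
    (hV : ∀ x : T, ∃ t : ℕ, Eval V x (fV x) t ∧ t ≤ (x.size + 2) ^ kV)
    (hd : ∀ z, IsProof S (decProof z.left) (decFm z.right) ↔ fV z ≠ T.leaf) :
    SoundChecker S V := by
  intro y z φ t he hz
  obtain ⟨t', h', _⟩ := hV (T.node y φ.enc)
  obtain ⟨rfl, _⟩ := he.det h'
  have h := (hd _).2 hz
  simp only [T.left_node, T.right_node, decFm_enc] at h
  exact ⟨_, h⟩

/-- The power of a number in binary. -/
theorem polyN_pow {f : T → ℕ} (hf : PolyN f) : ∀ k : ℕ, PolyN (fun z => f z ^ k)
  | 0 => by simpa using PolyN.const 1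
  | k + 1 => by simpa only [pow_succ] using (polyN_pow hf k).mul hf

/-- A bound on the length of a number bounded by a polynomial. -/
theorem size_of_le {L n k : ℕ} (h : L ≤ (2 * n + 3) ^ k) : L.size ≤ k * (n.size + 3) + 1 := by
  rw [Nat.size_le]
  have h1 : n < 2 ^ n.size := Nat.lt_size_self n
  have h2 : 2 * n + 3 ≤ 2 ^ (n.size + 3) := by rw [pow_add]; omega
  calc L ≤ (2 * n + 3) ^ k := h
    _ ≤ (2 ^ (n.size + 3)) ^ k := Nat.pow_le_pow_left h2 _
    _ = 2 ^ (k * (n.size + 3)) := by rw [← pow_mul, Nat.mul_comm]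
    _ < 2 ^ (k * (n.size + 3) + 1) := Nat.pow_lt_pow_right (by omega) (by omega)

theorem len_le (x : T) : x.len ≤ x.size := by have := len_size x; omega

/-- The computations of the checker on proofs constructed in polynomial time are a family of lists
of small records. -/
theorem family_of (hTR : TRACE_stmt) (hLI : LIN_stmt) {S : Set Fm} {V : Code} {fV : T → T} {kV : ℕ}
    (hV : ∀ x : T, ∃ t : ℕ, Eval V x (fV x) t ∧ t ≤ (x.size + 2) ^ kV)
    (hd : ∀ z, IsProof S (decProof z.left) (decFm z.right) ↔ fV z ≠ T.leaf)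
    {P μ : Fm} {f : T → T} (hf : PolyTime f)
    (hp : ∀ n : ℕ, ∃ π : List Step, f (T.unary n) = encProof π ∧ IsProof S π (rfn P μ n)) :
    ∃ (F : T → T) (rec : ℕ → ℕ → Rec) (L : ℕ → ℕ) (C : ℕ), Family F rec L C ∧
      ∀ n, Accepting (rec n) (L n) (check V (rfn P μ n)) := by
  obtain ⟨trace, C, htr, hT⟩ := hTR
  obtain ⟨C₂, hC₂⟩ := hLI P μ V
  have i := PolyTime.id
  have hu : PolyNat (fun z : T => z.len) := PolyNat.len i
  have hfu : PolyTime (fun z : T => f (T.unary z.len)) := hf.comp hu.unary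
  have hθ : PolyTime (fun z : T => (rfn (decFm P.enc) μ z.len).enc) :=
    rfn_polyTime μ (PolyTime.const _) hu
  -- the budget
  let b : ℕ → ℕ → ℕ := fun X Q => X + Q + 2 + (X + Q + 3) ^ kV
  have hb : PolyNat (fun z : T => b (f (T.unary z.len)).size (rfn (decFm P.enc) μ z.len).enc.size) :=
    (((PolyNat.size hfu).add (PolyNat.size hθ)).add (PolyNat.const 2)).add
      ((((PolyNat.size hfu).add (PolyNat.size hθ)).add (PolyNat.const 3)).pow kV)
  let F : T → T := fun z => trace (T.node (WE V.enc (rfn (decFm P.enc) μ z.len).enc)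
    (T.node (f (T.unary z.len))
      (T.unary (b (f (T.unary z.len)).size (rfn (decFm P.enc) μ z.len).enc.size))))
  have hF : PolyTime F := htr.comp ((WE_poly V.enc hθ).node (hfu.node hb.unary))
  -- the computations
  have key : ∀ n : ℕ, ∃ (r : ℕ → Rec) (L : ℕ), Accepting r L (check V (rfn P μ n)) ∧
      F (T.unary n) = encL ((List.range L).map fun i => (r i).enc) ∧
      ∀ i < L, (r i).enc.size ≤ C * ((check V (rfn P μ n)).enc.size + L.size + 1) := by
    intro n
    obtain ⟨π, hπ, hpf⟩ := hp n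
    obtain ⟨t, ht, htb⟩ := hV (T.node (f (T.unary n)) (rfn P μ n).enc)
    have hacc : fV (T.node (f (T.unary n)) (rfn P μ n).enc) ≠ T.leaf := by
      rw [← hd, T.left_node, T.right_node, hπ, decProof_enc, decFm_enc]
      exact hpf
    have hev : Eval (check V (rfn P μ n)) (f (T.unary n))
        (fV (T.node (f (T.unary n)) (rfn P μ n).enc))
        (((f (T.unary n)).size + (rfn P μ n).enc.size + 1) + t + 1) :=
      Eval.comp (Eval.pair (Eval.id _) (Eval.const _ _)) ht
    obtain ⟨r, L, h1, h2, h3⟩ := hT _ _ _ _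
      (b (f (T.unary n)).size (rfn P μ n).enc.size) hev (by
        have e : (T.node (f (T.unary n)) (rfn P μ n).enc).size + 2 =
            (f (T.unary n)).size + (rfn P μ n).enc.size + 3 := by
          simp only [T.size]
        rw [e] at htb
        show _ ≤ (f (T.unary n)).size + (rfn P μ n).enc.size + 2 +
          ((f (T.unary n)).size + (rfn P μ n).enc.size + 3) ^ kV
        omega) hacc
    refine ⟨r, L, h1, ?_, h3⟩
    rw [← h2]
    simp only [F, T.len_unary, decFm_enc, WE_eq]
  choose rec L h1 h2 h3 using key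
  obtain ⟨k, hk⟩ := hF.size_bound
  refine ⟨F, rec, L, C * (C₂ + 3 * k + 2), ⟨hF, fun n => ⟨?_, h2 n⟩, fun n i hi => ?_⟩, h1⟩
  · exact (h1 n).1.ne'
  · have hL : L n ≤ (2 * n + 3) ^ k := by
      have e1 := len_le (F (T.unary n))
      have e2 := hk (T.unary n)
      have e3 : (F (T.unary n)).len = L n := by
        rw [h2 n, encL_len, List.length_map, List.length_range]
      rw [T.size_unary, show 2 * n + 1 + 2 = 2 * n + 3 by rfl] at e2
      omega
    have e4 := size_of_le hL
    have e5 := hC₂ n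
    have e6 := h3 n i hi
    calc (rec n i).enc.size ≤ C * ((check V (rfn P μ n)).enc.size + (L n).size + 1) := e6
      _ ≤ C * ((C₂ + 3 * k + 2) * (n.size + 1)) := by
          refine Nat.mul_le_mul_left _ ?_
          have : (C₂ + 3 * k + 2) * (n.size + 1) =
            C₂ * (n.size + 1) + (3 * k * n.size + 3 * k) + 2 * (n.size + 1) := by ring
          have e7 : k * (n.size + 3) = k * n.size + 3 * k := by ring
          have e8 : k * n.size ≤ 3 * k * n.size := by nlinarith [Nat.zero_le (k * n.size)]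
          omega
      _ = C * (C₂ + 3 * k + 2) * (n.size + 1) := by ring

end MB

open MB in
/-- Assembly of the second theorem. -/
theorem mainB_of (hA : MainA) (hTR : TRACE_stmt) (hPA : PADREC_stmt) (hLI : LIN_stmt)
    (hCOD : COD_stmt) (hPR : PROT_stmt) : MainB := by
  intro μ hμ P hP
  by_cases hRC : ReflectionConjecture μ P
  · exact Or.inl hRC
  refine Or.inr ?_
  obtain ⟨S, hS, hall⟩ : ∃ S : Set Fm, InClassT S ∧ ∀ (c : Code) (κ : ℕ), HaltsWithin c κ →
      InClassT (theory c κ) → ∃ f : T → T, PolyTime f ∧ ∀ n : ℕ, ∃ π : List Step,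
        f (T.unary n) = encProof π ∧ IsProof S π (rfn (P c κ) μ n) := by
    by_contra hcon
    refine hRC fun S hS => ?_
    by_contra h
    refine hcon ⟨S, hS, fun c κ h1 h2 => ?_⟩
    by_contra h3
    exact h ⟨c, κ, h1, h2, h3⟩
  obtain ⟨fV, ⟨V, kV, hV⟩, hd⟩ := isProof_polyDec (DecTh.of_inClassT hS)
  obtain ⟨c, κ, hh, hsm, hno, -⟩ :=
    hA μ hμ P hP S S12 hS s12_inClass V (sound_of hV hd)
  obtain ⟨f, hf, hp⟩ := hall c κ hh (inClass_of s12_inClass hh hsm)
  obtain ⟨F, rec, L, C, hFam, hacc⟩ := family_of hTR hLI hV hd hf hp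
  obtain ⟨k, cod, m, K, A, hE, hcod⟩ := hCOD F rec L C hFam
  refine ⟨A, hE, fun t ht hIn => hno ?_⟩
  obtain ⟨τ, G, hτc, hτs, hG, hτC, hgame⟩ :=
    hPR rec L C k cod m K A hcod hFam.2.2 (fun n => (hFam.2.1 n).1) t ht hIn
  have hLk : ∀ n, L n ≤ (n + 2) ^ k := hcod.1
  refine ⟨fun n => (n + 2) ^ k, 2 * k, 2, fun n hn => ?_, τ, fun z => bl ((bn z.left + 2) ^ k), G, 0,
    hτc, hτs, ?_, hG, fun n _ => ⟨?_, fun i => rec n (min i (L n - 1)),
      hPA _ _ _ _ (hacc n) (hLk n), fun i hi => ⟨?_, fun d hdd => hgame n i hi d hdd⟩⟩⟩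
  · have h1 : n + 2 ≤ n ^ 2 := by nlinarith
    calc (n + 2) ^ k ≤ (n ^ 2) ^ k := Nat.pow_le_pow_left h1 _
      _ = n ^ (2 * k) := by rw [← pow_mul]
  · exact polyN_pow ((polyN_bn PolyTime.id.left).add (PolyN.const 2)) k
  · simp only [T.left_node, bn_bl]
  · have hL0 := (hFam.2.1 n).1
    exact (hFam.2.2 n _ (by omega)).trans (hτC n)

end Pool.Agent.S2L
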