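import Pool.Agent.S2L.Stmts

/-!
# Small facts on records and codes
-/

namespace Pool.Agent.S2L.MISC

open Pool.Agent.H19 Pool.Agent.H19.T Pool.Agent.RU

theorem Ev_congr {r r' : ℕ → Rec} {s : ℕ} {c : Code} {x y : ℕ} (h : r' s = r s) :
    Ev r s c x y → Ev r' s c x y := by
  rintro ⟨s', t', h1⟩
  exact ⟨s', t', h.trans h1⟩

theorem IsTree_congr {r r' : ℕ → Rec} {i : ℕ} (h : r' i = r i) : IsTree r i → IsTree r' i := by
  rintro (h1 | ⟨a, b, h1⟩)
  · exact Or.inl (h.trans h1)
  · exact Or.inr ⟨a, b, h.trans h1⟩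

theorem ev_lt {r : ℕ → Rec} {s : ℕ} {c : Code} {x z : ℕ} (hok : Ok r s) (h : Ev r s c x z) :
    z < s := by
  obtain ⟨s', t', h1⟩ := h
  unfold Ok at hok
  rw [h1] at hok
  exact hok.2.1.1

theorem node_lt {r : ℕ → Rec} {x a b : ℕ} (hok : Ok r x) (h : r x = Rec.node a b) :
    a < x ∧ b < x := by
  unfold Ok at hok
  rw [h] at hok
  exact ⟨hok.1.1, hok.2.1⟩

theorem Ok_congr {r r' : ℕ → Rec} {L : ℕ} (h : ∀ i < L, r' i = r i) (hok : ∀ i < L, Ok r i) :
    ∀ i < L, Ok r' i := by
  intro i hi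
  have h0 := hok i hi
  unfold Ok at h0 ⊢
  rw [h i hi]
  match hr : r i with
  | Rec.leaf => trivial
  | Rec.node a b =>
    rw [hr] at h0
    obtain ⟨⟨h1, h2⟩, h3, h4⟩ := h0
    exact ⟨⟨h1, IsTree_congr (h a (by omega)) h2⟩, h3, IsTree_congr (h b (by omega)) h4⟩
  | Rec.eval c x y s t =>
    rw [hr] at h0
    obtain ⟨⟨h1, h2⟩, ⟨h3, h4⟩, h5, h6, h7⟩ := h0
    have ex := h x (by omega)
    have ey := h y (by omega)
    have es := h s (by omega)
    have et := h t (by omega)
    refine ⟨⟨h1, IsTree_congr ex h2⟩, ⟨h3, IsTree_congr ey h4⟩, h5, h6, ?_⟩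
    have oks := hok s (by omega)
    have okx := hok x (by omega)
    cases c with
    | id => exact h7
    | leaf => exact ey.trans h7
    | fst =>
      rcases h7 with ⟨h7, h8⟩ | ⟨b, h7⟩
      · exact Or.inl ⟨ex.trans h7, ey.trans h8⟩
      · exact Or.inr ⟨b, ex.trans h7⟩
    | snd =>
      rcases h7 with ⟨h7, h8⟩ | ⟨b, h7⟩
      · exact Or.inl ⟨ex.trans h7, ey.trans h8⟩
      · exact Or.inr ⟨b, ex.trans h7⟩
    | pair f g =>
      obtain ⟨a, b, h8, h9, h10⟩ := h7
      exact ⟨a, b, ey.trans h8, Ev_congr es h9, Ev_congr et h10⟩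
    | comp f g =>
      obtain ⟨z, h8, h9⟩ := h7
      exact ⟨z, Ev_congr es h8, Ev_congr et h9⟩
    | ite d f g =>
      obtain ⟨z, h8, h9⟩ := h7
      have hz := ev_lt oks h8
      have ez := h z (by omega)
      refine ⟨z, Ev_congr es h8, ?_⟩
      rcases h9 with ⟨h9, h10⟩ | ⟨a, b, h9, h10⟩
      · exact Or.inl ⟨ez.trans h9, Ev_congr et h10⟩
      · exact Or.inr ⟨a, b, ez.trans h9, Ev_congr et h10⟩
    | loop f =>
      rcases h7 with ⟨h7, h8⟩ | ⟨a, h7, h8⟩ | ⟨a, b, a₁, a₂, z, h7, h8, h9, h10⟩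
      · exact Or.inl ⟨ex.trans h7, ey.trans h8⟩
      · have ha := (node_lt okx h7).1
        exact Or.inr (Or.inl ⟨a, ex.trans h7, (h a (by omega)).trans h8⟩)
      · have ha := (node_lt okx h7).1
        exact Or.inr (Or.inr ⟨a, b, a₁, a₂, z, ex.trans h7, (h a (by omega)).trans h8,
          Ev_congr es h9, Ev_congr et h10⟩)

/-! ### Sizes -/

theorem numeral_lin (n : ℕ) : (Tm.numeral n).enc.size ≤ 48 * n.size + 7 := by
  induction n using Nat.strong_induction_on with
  | _ n ih =>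
    by_cases h : n = 0
    · subst h
      rw [Tm.numeral_zero]
      simp only [Tm.enc, T.size, T.size_unary]
      omega
    · have h1 := ih (n / 2) (by omega)
      have h2 := Nat.size_eq_size_half h
      rw [Tm.numeral_pos h]
      split_ifs <;> simp only [Tm.two, Tm.enc, T.size, T.size_unary] at * <;> omega

theorem const_size (a : T) : (Code.const a).enc.size ≤ 20 * a.size := by
  induction a with
  | leaf => simp only [Code.const, Code.enc, T.size, T.size_unary]; omega
  | node a b iha ihb =>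
    simp only [Code.const, Code.enc, T.size, T.size_unary] at *
    omega

end Pool.Agent.S2L.MISC

namespace Pool.Agent.S2L

open Pool.Agent.H19 Pool.Agent.H19.T Pool.Agent.RU MISC

theorem CONGR_thm : CONGR_stmt := by
  rintro r r' L W h ⟨h1, h2, x, y, s, t, a, b, h3, h4⟩
  refine ⟨h1, Ok_congr h h2, x, y, s, t, a, b, ?_, ?_⟩
  · rw [h _ (by omega)]; exact h3
  · have h5 := h2 (L - 1) (by omega)
    unfold Ok at h5
    rw [h3] at h5
    rw [h y (by have := h5.2.1.1; omega)]
    exact h4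

theorem PADREC_thm : PADREC_stmt := by
  rintro r L L' W ⟨h1, h2, x, y, s, t, a, b, h3, h4⟩ hL
  have h5 := h2 (L - 1) (by omega)
  have h5' := h5
  unfold Ok at h5
  rw [h3] at h5
  obtain ⟨⟨hx, hx'⟩, ⟨hy, hy'⟩, hs, ht, hrule⟩ := h5
  have hlt : ∀ i < L, (fun i => r (min i (L - 1))) i = r i := fun i hi => by
    show r (min i (L - 1)) = r i
    rw [min_eq_left (by omega)]
  have hok : ∀ i < L, Ok (fun i => r (min i (L - 1))) i := Ok_congr hlt h2
  have hlast := hok (L - 1) (by omega)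
  unfold Ok at hlast
  rw [hlt (L - 1) (by omega), h3] at hlast
  obtain ⟨⟨_, kx⟩, ⟨_, ky⟩, _, _, krule⟩ := hlast
  refine ⟨by omega, fun i hi => ?_, x, y, s, t, a, b, ?_, ?_⟩
  · rcases Nat.lt_or_ge i L with h | h
    · exact hok i h
    · unfold Ok
      have e : (fun i => r (min i (L - 1))) i = Rec.eval W x y s t := by
        show r (min i (L - 1)) = _
        rw [min_eq_right (by omega), h3]
      rw [e]
      exact ⟨⟨by omega, kx⟩, ⟨by omega, ky⟩, by omega, by omega, krule⟩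
  · show r (min (L' - 1) (L - 1)) = _
    rw [min_eq_right (by omega), h3]
  · rw [hlt y (by omega), h4]

theorem LIN_thm : LIN_stmt := by
  intro P μ V
  refine ⟨V.enc.size + 20 * (P.enc.size + μ.enc.size + 2000), fun n => ?_⟩
  have h1 := numeral_lin n
  have h2 := const_size (rfn P μ n).enc
  have h3 : (rfn P μ n).enc.size ≤ P.enc.size + μ.enc.size + 4 * (Tm.numeral n).enc.size +
      1000 := by
    simp only [rfn, Fm.enc, Tm.enc, T.size, T.size_unary]
    omega
  have h4 : (check V (rfn P μ n)).enc.size ≤ V.enc.size +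
      (Code.const (rfn P μ n).enc).enc.size + 30 := by
    simp only [check, Code.enc, T.size, T.size_unary]
    omega
  have h5 : 4000 * n.size ≤ (V.enc.size + 20 * (P.enc.size + μ.enc.size + 2000)) * n.size :=
    Nat.mul_le_mul_right _ (by omega)
  rw [Nat.mul_add, Nat.mul_one]
  omega

end Pool.Agent.S2L
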