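import Pool.Agent.S2L.Stmts
import Pool.Agent.PO.Univ
import Pool.Agent.PO.Param
import Pool.Agent.PO.Def
import Pool.Agent.PO.Gn

/-!
# Theories with additional true `Σ^b_1` sentences
-/

namespace Pool.Agent.S2L

open Pool.Agent.H19 Pool.Agent.H19.T Pool.Agent.RU Pool.Agent.PO

namespace Th

section

variable (μ : Fm) (e : ℕ) (nx nz : T → ℕ) (C : T → T → Prop)

/-- The instance of the universal formula. -/
def psi (D Z : T) : Fm := inst3 μ e (nx (T.node D Z)) (nz (T.node D Z))

/-- The code `x` is that of an additional axiom, for the parameter `D`. -/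
def Acc (D x : T) : Prop :=
  (padF (unfalsum x) (psi μ e nx nz D (unfalsum x))).enc = x ∧ C D (unfalsum x)

/-- The length for which reflection is used. -/
def nn (D Z : T) : ℕ :=
  e.size + (nx (T.node D Z)).size + (nz (T.node D Z)).size +
    ((encProof (unpad Z (psi μ e nx nz D Z))).size + 1)

variable {μ e nx nz C}

theorem psi_polyTime (hnx : PolyN nx) (hnz : PolyN nz) {gD gZ : T → T} (hD : PolyTime gD)
    (hZ : PolyTime gZ) : PolyTime (fun z => (psi μ e nx nz (gD z) (gZ z)).enc) := by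
  have hX := hD.node hZ
  refine ((inst3_polyTime μ).comp ((PolyTime.const (bl e)).node
    ((PolyN.comp hnx hX).node (PolyN.comp hnz hX)))).congr fun z => ?_
  simp only [T.left_node, T.right_node, bn_bl]
  rfl

theorem Acc_polyDec (hC : PolyDec (fun z => C z.left z.right)) (hnx : PolyN nx)
    (hnz : PolyN nz) : PolyDec (fun z => Acc μ e nx nz C z.left z.right) := by
  have i := PolyTime.id
  have hw : PolyTime (fun z : T => unfalsum z.right) :=
    uu_polyTime.comp i.right.right.left.right.left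
  refine (PolyDec.eq (padF_polyTime hw (psi_polyTime hnx hnz i.left hw)) i.right).and ?_
  refine (hC.comp (i.left.node hw)).congr fun z => ?_
  simp only [T.left_node, T.right_node]

theorem unpad_polyTime (hnx : PolyN nx) (hnz : PolyN nz) {gD gZ : T → T} (hD : PolyTime gD)
    (hZ : PolyTime gZ) :
    PolyTime (fun z => encProof (unpad (gZ z) (psi μ e nx nz (gD z) (gZ z)))) := by
  have hψ : PolyTime (fun z => (psi μ e nx nz (gD z) (gZ z)).enc) := psi_polyTime hnx hnz hD hZ
  have htw := tt_polyTime.comp hZ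
  have heq : PolyTime (fun z : T => (Fm.eq (tt (gZ z)) (tt (gZ z))).enc) :=
    (PolyTime.const _).node (htw.node htw)
  exact ((PolyTime.const _).node (padF_polyTime hZ hψ)).node
    (((PolyTime.const _).node htw).node (((PolyTime.const _).node
      (heq.node hψ)).node PolyTime.leaf))

theorem nn_polyNat (hnx : PolyN nx) (hnz : PolyN nz) {gD gZ : T → T} (hD : PolyTime gD)
    (hZ : PolyTime gZ) : PolyNat (fun z => nn μ e nx nz (gD z) (gZ z)) := by
  have hX := hD.node hZ
  exact (((PolyNat.const _).add (PolyN.comp hnx hX).size).add (PolyN.comp hnz hX).size).add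
    ((PolyNat.size (unpad_polyTime hnx hnz hD hZ)).add (PolyNat.const 1))

/-- A polynomial bound for the length. -/
theorem nn_bound (hnx : PolyN nx) (hnz : PolyN nz) :
    ∃ c : ℕ, ∀ D Z : T, nn μ e nx nz D Z ≤ (D.size + Z.size + 2) ^ c := by
  have i := PolyTime.id
  obtain ⟨k, hk⟩ :=
    (nn_polyNat (μ := μ) (e := e) hnx hnz i.left i.right).unary.size_bound
  refine ⟨2 * k, fun D Z => ?_⟩
  have h1 := hk (T.node D Z)
  simp only [T.left_node, T.right_node, T.size_unary, T.size] at h1
  have h3 : (D.size + Z.size + 1 + 2) ^ k ≤ ((D.size + Z.size + 2) ^ 2) ^ k :=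
    Nat.pow_le_pow_left (by nlinarith) k
  rw [← pow_mul] at h3
  omega

theorem vec_congr (hμ : μ.fvBelow 3) (x z u : ℕ) :
    μ.sat stdN (vec4 e x z u) ↔ μ.sat stdN (vec3 e x z) := by
  refine Fm.sat_congr_below stdN μ hμ (fun i hi => ?_)
  rcases i with _ | _ | _ | i
  · rfl
  · rfl
  · rfl
  · omega

/-- True instances of the universal formula hold in all models. -/
theorem inst_true {M : Type} {A : Str M} (g : Good A) (hμb : μ.bdd = true) (hμ : μ.fvBelow 3)
    {x z : ℕ} (h : μ.sat stdN (vec3 e x z)) (v : ℕ → M) : (inst3 μ e x z).sat A v := by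
  simp only [inst3, Fm.sat_inst, g.numeral]
  have h1 : μ.sat A (scons (A.nat e) (scons (A.nat x) (scons (A.nat z) v))) ↔
      μ.sat A (fun i => A.nat (vec3 e x z i)) := by
    refine Fm.sat_congr_below A μ hμ (fun i hi => ?_)
    rcases i with _ | _ | _ | i
    · rfl
    · rfl
    · rfl
    · omega
  rw [h1, g.sat_iff μ hμb]
  exact h

end

end Th

open Th

/-- **TH**: theories with additional true `Σ^b_1` sentences. -/
theorem TH_thm : TH_stmt := by
  intro μ hμ P hP S T₀ hS hT₀ F C hF hsize hC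
  obtain ⟨e, nx, nz, hnx, hnz, hX⟩ := UNIV_thm (DEF_thm GN_thm) μ P hμ hP F hF hsize
  obtain ⟨f₁, hf₁, hf₁A⟩ := Acc_polyDec (μ := μ) (e := e) hC hnx hnz
  obtain ⟨hTcons, f₀, hf₀, hf₀T⟩ := hT₀
  have i := PolyTime.id
  have hf : PolyTime (fun z : T => tif (f₁ z) (f₀ z.right) (T.node T.leaf T.leaf)) :=
    hf₁.tif (hf₀.comp i.right) (PolyTime.const _)
  obtain ⟨pc, pk, hpq, hpcl⟩ := PARAM_thm _ hf
  obtain ⟨c, hc⟩ := nn_bound (μ := μ) (e := e) hnx hnz
  have hth : ∀ (D : T) (φ : Fm), φ ∈ theory (pc D) (pk D) ↔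
      φ ∈ T₀ ∨ Acc μ e nx nz C D φ.enc := by
    intro D φ
    have h4 := (hpcl D).2 φ.enc
    have h5 := hf₁A (T.node D φ.enc)
    simp only [T.left_node, T.right_node] at h4 h5
    have h6 : φ ∈ theory (pc D) (pk D) ↔ φ ∈ S12 ∨ Accepts (pc D) (pk D) φ.enc := Iff.rfl
    rw [h6, h4, h5, hf₀T φ]
    by_cases h7 : f₁ (T.node D φ.enc) = T.leaf
    · rw [h7]
      simp
    · have h8 : tif (f₁ (T.node D φ.enc)) (f₀ φ.enc) (T.node T.leaf T.leaf) =
          T.node T.leaf T.leaf := by
        unfold tif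
        rw [if_neg h7]
      rw [h8]
      simp [h7]
  have hTT : S12 ⊆ T₀ := fun φ hφ => (hf₀T φ).2 (Or.inl hφ)
  have hSS : S12 ⊆ S := by
    obtain ⟨-, f, -, hf⟩ := hS
    exact fun φ hφ => (hf φ).2 (Or.inl hφ)
  refine ⟨pc, pk, c, hpq, fun D => (hpcl D).1, ?_, ?_⟩
  · -- the theory has the same models
    intro D hD M A
    constructor
    · intro hA φ hφ v
      exact hA φ ((hth D φ).2 (Or.inl hφ)) v
    · intro hA φ hφ v
      rcases (hth D φ).1 hφ with h1 | ⟨h1, h2⟩
      · exact hA φ h1 v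
      · have g : Good A := good_of_models fun χ hχ w => hA χ (hTT hχ) w
        have h3 := Fm.enc_inj.1 h1
        rw [← h3]
        intro _
        exact inst_true g ((Fm.bdd_of μ).1 hμ.1) hμ.2.1 ((hX _).2 (hD _ h2)) v
  · -- reflection gives the truth of the axioms
    intro D Z m hCZ hm hpr
    have hax : padF Z (psi μ e nx nz D Z) ∈ theory (pc D) (pk D) := by
      rw [hth]
      right
      refine ⟨?_, ?_⟩
      · rw [unfalsum_padF]
      · rw [unfalsum_padF]
        exact hCZ
    have hpf := unpad_isProof hax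
    have hsat := (hP.correct (pc D) (pk D) e (nx (T.node D Z)) (nz (T.node D Z))
      (encProof (unpad Z (psi μ e nx nz D Z))).num).2 ⟨_, rfl, hpf⟩
    have hnm : nn μ e nx nz D Z ≤ m := (hc D Z).trans hm
    have hμt := rfn_sound hSS hS.1 ((Fm.bdd_of _).1 (hP.delta _ _).1)
      ((Fm.bdd_of μ).1 hμ.1) hpr (e := e) (x := nx (T.node D Z)) (z := nz (T.node D Z))
      (u := (encProof (unpad Z (psi μ e nx nz D Z))).num)
      (by simp only [nn] at hnm; omega) (by simp only [nn] at hnm; omega)
      (by simp only [nn] at hnm; omega)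
      (by rw [T.num_size]; simp only [nn] at hnm; omega) hsat
    rw [vec_congr hμ.2.1, hX] at hμt
    exact hμt

end Pool.Agent.S2L
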