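import Pool.Agent.S2L.Stmts

/-!
# A set in `E` which codes the digits of a family of records
-/

namespace Pool.Agent.S2L.Cod

open Pool.Agent.H19 Pool.Agent.H19.T Pool.Agent.RU Pool.Agent.PO

/-- The width of the fields. -/
def wd (K a : ℕ) : ℕ := K * (a + 1)

/-- The length of the codes. -/
def mm (K a : ℕ) : ℕ := a + 2 * wd K a + 1

/-- The code of `n`, `i`, `d`. -/
def cd (K n i d : ℕ) : ℕ :=
  2 ^ (n.size + 2 * wd K n.size) + ((n * 2 ^ wd K n.size + i) * 2 ^ wd K n.size + d)

theorem fields_lt {a b n i d : ℕ} (hn : n < 2 ^ a) (hi : i < 2 ^ b) (hd : d < 2 ^ b) :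
    (n * 2 ^ b + i) * 2 ^ b + d < 2 ^ (a + 2 * b) := by
  have h1 : n * 2 ^ b + i + 1 ≤ 2 ^ a * 2 ^ b := by
    calc n * 2 ^ b + i + 1 ≤ n * 2 ^ b + 2 ^ b := by omega
      _ = (n + 1) * 2 ^ b := by ring
      _ ≤ 2 ^ a * 2 ^ b := Nat.mul_le_mul_right _ hn
  calc (n * 2 ^ b + i) * 2 ^ b + d < (n * 2 ^ b + i) * 2 ^ b + 2 ^ b := by omega
    _ = (n * 2 ^ b + i + 1) * 2 ^ b := by ring
    _ ≤ (2 ^ a * 2 ^ b) * 2 ^ b := Nat.mul_le_mul_right _ h1
    _ = 2 ^ (a + 2 * b) := by rw [two_mul, pow_add, pow_add]; ring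

theorem fields_inj {b n i d n' i' d' : ℕ} (hi : i < 2 ^ b) (hd : d < 2 ^ b) (hi' : i' < 2 ^ b)
    (hd' : d' < 2 ^ b)
    (h : (n * 2 ^ b + i) * 2 ^ b + d = (n' * 2 ^ b + i') * 2 ^ b + d') :
    n = n' ∧ i = i' ∧ d = d' := by
  have hp : 0 < 2 ^ b := by positivity
  have key : ∀ x y x' y' : ℕ, y < 2 ^ b → y' < 2 ^ b → x * 2 ^ b + y = x' * 2 ^ b + y' →
      x = x' ∧ y = y' := by
    intro x y x' y' hy hy' e
    have h1 : (x * 2 ^ b + y) / 2 ^ b = x := by
      rw [mul_comm, Nat.mul_add_div hp, Nat.div_eq_of_lt hy, add_zero]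
    have h2 : (x' * 2 ^ b + y') / 2 ^ b = x' := by
      rw [mul_comm, Nat.mul_add_div hp, Nat.div_eq_of_lt hy', add_zero]
    have h3 : x = x' := by rw [← h1, ← h2, e]
    subst h3
    exact ⟨rfl, by omega⟩
  obtain ⟨h1, h2⟩ := key _ _ _ _ hd hd' h
  obtain ⟨h3, h4⟩ := key _ _ _ _ hi hi' h1
  exact ⟨h3, h4, h2⟩

theorem cd_size {K n i d : ℕ} (hi : i < 2 ^ wd K n.size) (hd : d < 2 ^ wd K n.size) :
    (cd K n i d).size = mm K n.size := by
  have h1 := fields_lt (Nat.lt_size_self n) hi hd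
  refine le_antisymm ?_ ?_
  · rw [Nat.size_le, cd, mm, pow_succ]
    omega
  · have h2 : n.size + 2 * wd K n.size < (cd K n i d).size := by
      rw [Nat.lt_size, cd]
      omega
    rw [mm]; omega

theorem mm_inj {K a a' : ℕ} (h : mm K a = mm K a') : a = a' := by
  simp only [mm, wd] at h
  rcases lt_trichotomy a a' with h1 | h1 | h1
  · have : K * (a + 1) ≤ K * (a' + 1) := Nat.mul_le_mul_left _ (by omega)
    omega
  · exact h1
  · have : K * (a' + 1) ≤ K * (a + 1) := Nat.mul_le_mul_left _ (by omega)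
    omega

theorem cd_inj {K n i d n' i' d' : ℕ} (hi : i < 2 ^ wd K n.size) (hd : d < 2 ^ wd K n.size)
    (hi' : i' < 2 ^ wd K n'.size) (hd' : d' < 2 ^ wd K n'.size)
    (h : cd K n i d = cd K n' i' d') : n = n' ∧ i = i' ∧ d = d' := by
  have h1 : mm K n.size = mm K n'.size := by
    rw [← cd_size hi hd, ← cd_size hi' hd', h]
  have h2 : n.size = n'.size := mm_inj h1
  rw [cd, cd, h2] at h
  rw [h2] at hi hd
  exact fields_inj hi hd hi' hd' (by omega)

theorem lt_cd {K n i d : ℕ} (hi : i < 2 ^ wd K n.size) (hd : d < 2 ^ wd K n.size) :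
    n < cd K n i d ∧ i < cd K n i d ∧ d < cd K n i d := by
  have h1 : 2 ^ n.size ≤ 2 ^ (n.size + 2 * wd K n.size) :=
    Nat.pow_le_pow_right (by norm_num) (by omega)
  have h2 : 2 ^ wd K n.size ≤ 2 ^ (n.size + 2 * wd K n.size) :=
    Nat.pow_le_pow_right (by norm_num) (by omega)
  have h3 := Nat.lt_size_self n
  simp only [cd]
  omega

theorem wd_bounds (k C n : ℕ) :
    (n + 2) ^ k ≤ 2 ^ wd (k + C) n.size ∧ C * (n.size + 1) ≤ 2 ^ wd (k + C) n.size := by
  constructor
  · have h1 : n + 2 ≤ 2 ^ (n.size + 1) := by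
      have h2 := Nat.lt_size_self n
      have h3 : 1 ≤ 2 ^ n.size := Nat.one_le_two_pow
      rw [pow_succ]
      omega
    calc (n + 2) ^ k ≤ (2 ^ (n.size + 1)) ^ k := Nat.pow_le_pow_left h1 _
      _ = 2 ^ (k * (n.size + 1)) := by rw [← pow_mul, mul_comm]
      _ ≤ 2 ^ wd (k + C) n.size :=
        Nat.pow_le_pow_right (by norm_num) (Nat.mul_le_mul_right _ (by omega))
  · calc C * (n.size + 1) ≤ (k + C) * (n.size + 1) := Nat.mul_le_mul_right _ (by omega)
      _ ≤ 2 ^ wd (k + C) n.size := Nat.lt_two_pow_self.le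

theorem cd_polyN {K : ℕ} {n i d : T → ℕ} (hn : PolyN n) (hi : PolyN i) (hd : PolyN d) :
    PolyN (fun z => cd K (n z) (i z) (d z)) := by
  have hw : PolyNat (fun z => wd K (n z).size) :=
    (PolyNat.const K).mul (hn.size.add (PolyNat.const 1))
  exact (PolyN.pow2 (hn.size.add ((PolyNat.const 2).mul hw))).add
    ((((hn.mul (PolyN.pow2 hw)).add hi).mul (PolyN.pow2 hw)).add hd)

theorem mm_polyNat {K : ℕ} {a : T → ℕ} (ha : PolyNat a) : PolyNat (fun z => mm K (a z)) :=
  (ha.add ((PolyNat.const 2).mul ((PolyNat.const K).mul (ha.add (PolyNat.const 1))))).add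
    (PolyNat.const 1)

/-! ### Bounded search -/

theorem bex {P : T → Prop} (hP : PolyDec P) {n : T → ℕ} (hn : PolyNat n) :
    PolyDec (fun x => ∃ i < n x, P (T.node x (T.unary i))) := by
  refine ((PolyDec.ball hP.not hn).not).congr fun x => ?_
  push Not
  rfl

theorem nthT_encL (f : ℕ → T) (l : List ℕ) (j : ℕ) (hj : j < l.length) :
    nthT (encL (l.map f)) j = f l[j] := by
  induction l generalizing j with
  | nil => simp at hj
  | cons a l ih =>
    cases j with
    | zero => simp [nthT]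
    | succ j =>
      have h1 : nthT (encL ((a :: l).map f)) (j + 1) = nthT (encL (l.map f)) j := by
        simp [nthT, Function.iterate_succ_apply]
      rw [h1, ih j (by simpa using hj)]
      simp

/-- The components of the argument of the search. -/
def cz (w : T) : ℕ := w.left.left.left.len
def cn (w : T) : ℕ := w.left.left.right.len
def ci (w : T) : ℕ := w.left.right.len
def cdd (w : T) : ℕ := w.right.len

end Pool.Agent.S2L.Cod

namespace Pool.Agent.S2L

open Pool.Agent.H19 Pool.Agent.H19.T Pool.Agent.RU Pool.Agent.PO Cod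

theorem COD_thm (hLK : LK_stmt) (hDEC : DEC_stmt) : COD_stmt := by
  rintro F rec L C ⟨hF, hFL, hsz⟩
  obtain ⟨k, hk⟩ := hF.size_bound
  obtain ⟨-, hword, -, hdig, -⟩ := hDEC
  have hnth := hLK.2.1
  have hlen : ∀ n, (F (T.unary n)).len = L n := by
    intro n
    rw [(hFL n).2, encL_len, List.length_map, List.length_range]
  -- the exponent
  obtain ⟨k', hk'⟩ : ∃ k' : ℕ, ∀ n, L n ≤ (n + 2) ^ k' := by
    refine ⟨2 * k, fun n => ?_⟩
    have h1 := hk (T.unary n)
    have h2 := T.len_lt_size (F (T.unary n))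
    rw [hlen] at h2
    rw [T.size_unary] at h1
    have h3 : (2 * n + 1 + 2) ^ k ≤ ((n + 2) ^ 2) ^ k := Nat.pow_le_pow_left (by nlinarith) _
    rw [← pow_mul] at h3
    omega
  have hb := wd_bounds k' C
  refine ⟨k', cd (k' + C), mm (k' + C), 2 * (k' + C) + 1,
    {v | ∃ n i d, i < (n + 2) ^ k' ∧ d < C * (n.size + 1) ∧ v = cd (k' + C) n i d ∧
      digit (rec n (min i (L n - 1))).enc d}, ?_, hk', ?_, ?_, ?_, ?_⟩
  · -- the search
    have i := PolyTime.id
    have hz : PolyNat cz := PolyNat.len i.left.left.left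
    have hn : PolyNat cn := PolyNat.len i.left.left.right
    have hi : PolyNat ci := PolyNat.len i.left.right
    have hd : PolyNat cdd := PolyNat.len i.right
    have hFn : PolyTime (fun w => F (T.unary (cn w))) := hF.comp hn.unary
    have hLn : PolyNat (fun w => (F (T.unary (cn w))).len) := PolyNat.len hFn
    have hmin : PolyNat (fun w => min (ci w) ((F (T.unary (cn w))).len - 1)) := by
      classical
      refine (PolyNat.ifP (PolyDec.le hi (hLn.sub (PolyNat.const 1))) hi
        (hLn.sub (PolyNat.const 1))).congr fun x => ?_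
      congr 1
    have hdec : PolyDec (fun w => ci w < (cn w + 2) ^ k' ∧ cdd w < C * ((cn w).size + 1) ∧
        cz w = cd (k' + C) (cn w) (ci w) (cdd w) ∧
        nthT (wordT (nthT (F (T.unary (cn w))) (min (ci w) ((F (T.unary (cn w))).len - 1))))
          (cdd w) ≠ T.leaf) := by
      refine (PolyDec.le (hi.add (PolyNat.const 1)) ((hn.add (PolyNat.const 2)).pow k')).and ?_
      refine (PolyDec.le (hd.add (PolyNat.const 1))
        ((PolyNat.const C).mul (hn.toN.size.add (PolyNat.const 1)))).and ?_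
      refine (PolyDec.eqN hz.toN (cd_polyN hn.toN hi.toN hd.toN)).and ?_
      exact PolyDec.ne_leaf (hnth _ _ (hword.comp (hnth _ _ hFn hmin)) hd)
    have hex := bex (bex (bex hdec (PolyNat.len i.left.left)) (PolyNat.len i.left))
      (PolyNat.len i)
    obtain ⟨f, hf, hff⟩ := hex
    refine ⟨f, hf, fun x => ?_⟩
    rw [← hff]
    simp only [cz, cn, ci, cdd, T.left_node, T.right_node, T.len_unary, Set.mem_ofPred_eq]
    have hrec : ∀ n i d, nthT (wordT (nthT (F (T.unary n)) (min i ((F (T.unary n)).len - 1)))) d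
        ≠ T.leaf ↔ digit (rec n (min i (L n - 1))).enc d := by
      intro n i d
      rw [hdig, hlen]
      have h1 : min i (L n - 1) < L n := by
        have := (hFL n).1
        omega
      have h2 : nthT (F (T.unary n)) (min i (L n - 1)) = (rec n (min i (L n - 1))).enc := by
        rw [(hFL n).2, nthT_encL _ _ _ (by rw [List.length_range]; exact h1),
          List.getElem_range]
      rw [h2]
    constructor
    · rintro ⟨n, i, d, hi, hd, rfl, hdg⟩
      obtain ⟨h1, h2, h3⟩ := lt_cd (K := k' + C) (n := n) (hi.trans_le (hb n).1)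
        (hd.trans_le (hb n).2)
      exact ⟨n, h1, i, h2, d, h3, hi, hd, rfl, (hrec n i d).2 hdg⟩
    · rintro ⟨n, -, i, -, d, -, hi, hd, hv, hdg⟩
      exact ⟨n, i, d, hi, hd, hv, (hrec n i d).1 hdg⟩
  · have i := PolyTime.id
    exact cd_polyN (polyN_bn i.left) (polyN_bn i.right.left) (polyN_bn i.right.right)
  · exact mm_polyNat (PolyNat.len PolyTime.id)
  · intro a
    simp only [mm, wd]
    apply le_of_eq
    ring
  · intro n i d hi hd
    have hi' := hi.trans_le (hb n).1
    have hd' := hd.trans_le (hb n).2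
    refine ⟨cd_size hi' hd', ?_⟩
    constructor
    · rintro ⟨n₁, i₁, d₁, h1, h2, h3, h4⟩
      obtain ⟨rfl, rfl, rfl⟩ := cd_inj hi' hd' (h1.trans_le (hb n₁).1) (h2.trans_le (hb n₁).2) h3
      exact h4
    · intro h
      exact ⟨n, i, d, hi, hd, rfl, h⟩

end Pool.Agent.S2L
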