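import Pool.Agent.S2L.Stmts

/-!
# Records decided by symmetric games: lookup and the local check
-/

namespace Pool.Agent.S2L

open Pool.Agent.H19 Pool.Agent.H19.T Pool.Agent.RU Pool.Agent.PO

namespace Lk

theorem lkStep_poly : PolyTime₂ lkStep := by
  have i := PolyTime.id
  exact PolyTime.ifEq i.left.left i.right.left (i.right.left.node i.left.right) i.right

theorem lkStep_left (h a : T) : (lkStep h a).left = a.left := by
  unfold lkStep
  split_ifs
  · rfl
  · rfl

theorem lkStep_size (h a : T) : (lkStep h a).size ≤ h.size + a.size + 1 := by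
  unfold lkStep
  have h1 := T.size_left_le a
  have h2 := T.size_right_le h
  split_ifs
  · simp only [T.size]
    omega
  · omega

theorem tfold_size (l a : T) : (tfold lkStep l a).size ≤ l.size + a.size := by
  induction l generalizing a with
  | leaf => simp [tfold]
  | node h t _ ih =>
    have h1 := ih (lkStep h a)
    have h2 := lkStep_size h a
    simp only [tfold, T.size]
    omega

theorem lk_poly (u : T → T) (k : T → ℕ) (hu : PolyTime u) (hk : PolyN k) :
    PolyTime (fun z => lk (u z) (k z)) := by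
  have h := PolyTime₂.tfold lkStep_poly (G := fun n => n) PolyB.id (fun _ _ h => h) tfold_size
  exact (h.comp hu (PolyTime.node hk PolyTime.leaf)).right

theorem size_iterate (x : T) (i : ℕ) : (T.right^[i] x).size ≤ x.size := by
  induction i with
  | zero => exact le_rfl
  | succ i ih =>
    rw [Function.iterate_succ_apply']
    exact (T.size_right_le _).trans ih

theorem nthT_poly (l : T → T) (b : T → ℕ) (hl : PolyTime l) (hb : PolyNat b) :
    PolyTime (fun z => nthT (l z) (b z)) := by
  have := PolyTime.iterate (f := T.right) (n := fun x => T.unary (b x)) (s := l) PolyTime.right'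
    hb hl (by
      obtain ⟨k, hk⟩ := PolyTime.size_bound hl
      exact ⟨k, fun x j _ => (size_iterate _ _).trans (hk x)⟩)
  refine this.left.congr fun x => ?_
  rw [T.len_unary]
  rfl

theorem tfold_none {k : ℕ} (u : T) : ∀ a : T, a.left = bl k → ¬ HasKey u k →
    tfold lkStep u a = a := by
  induction u with
  | leaf => intro a _ _; rfl
  | node h t _ ih =>
    intro a ha hn
    have h1 : h.left ≠ bl k := fun e => hn ⟨h, by simp [T.toL], e⟩
    have h2 : ¬ HasKey t k := by
      rintro ⟨h', h3, h4⟩
      exact hn ⟨h', by simp [T.toL, h3], h4⟩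
    have h3 : lkStep h a = a := by
      unfold lkStep
      rw [ha, if_neg h1]
    rw [tfold, h3]
    exact ih a ha h2

theorem tfold_some {k : ℕ} (u : T) : ∀ a : T, a.left = bl k → HasKey u k →
    ∃ h ∈ u.toL, h.left = bl k ∧ (tfold lkStep u a).right = h.right := by
  induction u with
  | leaf =>
    rintro a _ ⟨h, h1, -⟩
    simp [T.toL] at h1
  | node h t _ ih =>
    intro a ha hk
    have ha' : (lkStep h a).left = bl k := by rw [lkStep_left, ha]
    by_cases ht : HasKey t k
    · obtain ⟨h', h1, h2, h3⟩ := ih (lkStep h a) ha' ht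
      exact ⟨h', by simp [T.toL, h1], h2, h3⟩
    · obtain ⟨h', h1, h2⟩ := hk
      have h3 : h' = h := by
        simp only [T.toL, List.mem_cons] at h1
        rcases h1 with h1 | h1
        · exact h1
        · exact absurd ⟨h', h1, h2⟩ ht
      subst h3
      refine ⟨h', by simp [T.toL], h2, ?_⟩
      rw [tfold, tfold_none t _ ha' ht]
      unfold lkStep
      rw [ha, if_pos h2]
      rfl

theorem lk_some (u : T) (k : ℕ) (hk : HasKey u k) :
    ∃ h ∈ u.toL, h.left = bl k ∧ lk u k = h.right :=
  tfold_some u _ rfl hk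

theorem check (R R' : ℕ → T) (i : ℕ) (h : ∀ k ∈ keysR R i, R' k = R k) :
    CheckT R i → CheckT R' i := by
  simp only [keysR, List.mem_cons, List.not_mem_nil, or_false, forall_eq_or_imp, forall_eq] at h
  obtain ⟨k0, k1, k2, k3, k4, k5, k6, k7, k8⟩ := h
  unfold CheckT
  rw [k0, k1, k2, k3, k4, k5, k6]
  rintro (h1 | ⟨h1, ⟨h2, h3⟩, h4, h5⟩ | ⟨h1, h2, ⟨⟨h3, h4⟩, h5, h6⟩, ⟨h7, h8⟩, h9⟩)
  · exact Or.inl h1
  · exact Or.inr (Or.inl ⟨h1, ⟨h2, h3⟩, h4, h5⟩)
  · refine Or.inr (Or.inr ⟨h1, h2, ⟨⟨h3, h4⟩, h5, h6⟩, ⟨h7, h8⟩, ?_⟩)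
    unfold RuleT at h9 ⊢
    rw [k7, k8]
    exact h9

theorem final (R R' : ℕ → T) (i : ℕ) (W : T) (h : ∀ k ∈ keysR R i, R' k = R k) :
    FinalT R i W → FinalT R' i W := by
  simp only [keysR, List.mem_cons, List.not_mem_nil, or_false, forall_eq_or_imp, forall_eq] at h
  obtain ⟨k0, k1, k2, k3, k4, k5, k6, k7, k8⟩ := h
  unfold FinalT
  rw [k0, k4]
  exact fun h => h

theorem forall_toL (x : T) (Q : T → Prop) :
    (∀ h ∈ x.toL, Q h) ↔ ∀ i < x.len, Q (nthT x i) := by
  induction x with
  | leaf => simp [T.toL]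
  | node a b _ ih =>
    simp only [T.toL, List.mem_cons, forall_eq_or_imp, T.len_node]
    rw [ih]
    constructor
    · rintro ⟨h1, h2⟩ i hi
      cases i with
      | zero => exact h1
      | succ i => exact h2 i (by omega)
    · intro h
      exact ⟨h 0 (by omega), fun i hi => h (i + 1) (by omega)⟩

end Lk

open Lk

theorem LK_thm : LK_stmt := ⟨lk_poly, nthT_poly, lk_some, check, final⟩

theorem ALL_thm : ALL_stmt := by
  intro Q l hQ hl
  have i := PolyTime.id
  have h1 : PolyTime (fun w : T => nthT (l w.left) w.right.len) :=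
    nthT_poly (fun w => l w.left) (fun w => w.right.len) (hl.comp PolyTime.left')
      (PolyNat.len i.right)
  have h2 : PolyDec (fun w : T => Q (T.node w.left (nthT (l w.left) w.right.len))) :=
    hQ.comp (i.left.node h1)
  refine (Pool.Agent.RU.PolyDec.ball h2 (PolyNat.len hl)).congr fun z => ?_
  simp only [T.left_node, T.right_node, T.len_unary]
  exact (forall_toL (l z) (fun h => Q (T.node z h))).symm

end Pool.Agent.S2L
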