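import Pool.Agent.S2L.Trace3

/-!
# The list of the records of a computation
-/

namespace Pool.Agent.S2L.TRACE

open Pool.Agent.H19 Pool.Agent.H19.T Pool.Agent.RU

/-! ### The guarded machine -/

/-- The guarded step: the state is replaced only if the new state is small. -/
def gL (s : T) : T :=
  T.node s.left (if (lStep s.right).size ≤ s.left.len then lStep s.right else s.right)

theorem gL_poly : PolyTime gL := by
  have i := PolyTime.id
  refine i.left.node ?_
  have h1 := lStep_poly.comp i.right
  refine (PolyTime.ifP (PolyDec.le (PolyNat.size h1) (PolyNat.len i.left)) h1 i.right).congr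
    fun x => ?_
  by_cases h : (lStep x.right).size ≤ x.left.len <;> simp [h]

theorem gL_iterate {B : ℕ} {s s' : T} {n : ℕ} (h : LRun B s n s') :
    gL^[n] (T.node (T.unary B) s) = T.node (T.unary B) s' := by
  obtain ⟨h1, h2⟩ := h
  have : ∀ i, i ≤ n → gL^[i] (T.node (T.unary B) s) = T.node (T.unary B) (lStep^[i] s) := by
    intro i
    induction i with
    | zero => intro _; rfl
    | succ i ih =>
      intro hi
      rw [Function.iterate_succ_apply', ih (by omega), Function.iterate_succ_apply']
      have := h2 (i + 1) hi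
      rw [Function.iterate_succ_apply'] at this
      simp [gL, this]
  rw [this n le_rfl, h1]

theorem gL_size (i : ℕ) (s : T) (h : s.right.size ≤ s.left.len) :
    (gL^[i] s).left = s.left ∧ (gL^[i] s).right.size ≤ s.left.len := by
  induction i with
  | zero => simpa using h
  | succ i ih =>
    obtain ⟨h1, h2⟩ := ih
    rw [Function.iterate_succ_apply']
    refine ⟨by simp [gL, h1], ?_⟩
    simp only [gL, h1, T.right_node]
    split_ifs with h3
    · exact h3
    · exact h2

theorem lStep_final (V H n : T) : lStep (st T.leaf V H n) = st T.leaf V H n := by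
  simp [lStep, st, T.unary]

theorem lStep_final_iterate (k : ℕ) (V H n : T) : lStep^[k] (st T.leaf V H n) =
    st T.leaf V H n := by
  induction k with
  | zero => rfl
  | succ k ih => rw [Function.iterate_succ_apply', ih, lStep_final]

/-! ### Writing down a tree -/

theorem log_tree : ∀ (x : T) (P M N B : ℕ) (K S H : T), (∀ n ≤ N + x.size, (bl n).size ≤ P) →
    8 * x.size + 4 * (x.size * (P + 3)) + 20 * P + 200 ≤ M →
    K.size + S.size + H.size + 2 * ((x.size + 1) * M) ≤ B →
    ∃ (h : List Rec) (a : T) (m : ℕ), m ≤ 3 * x.size ∧ h.length = x.size ∧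
      (hcat h H).size ≤ H.size + x.size * M ∧
      LRun B (st (T.node (iT x) K) S H (bl N)) m
        (st K (T.node a S) (hcat h H) (bl (N + x.size))) ∧
      Shape P x a ∧ (∀ ρ ∈ h, codeSize ρ = 0) ∧
      ∀ r : ℕ → Rec, (∀ i (hi : i < h.length), r (N + i) = h[i]) →
        (∀ i, N ≤ i → i < N + x.size → Ok r i) ∧ Sem r (N + x.size) x a := by
  intro x
  induction x with
  | leaf =>
    intro P M N B K S H hP hM hB
    have hN := hP N (by omega)
    have hN1 := hP (N + 1) (by simp only [T.size]; omega)
    simp only [T.size] at hM hB ⊢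
    have hMM : (1 + 1) * M = 2 * M := by ring
    rw [hMM] at hB
    refine ⟨[Rec.leaf], T.node (bl N) T.leaf, 1, by omega, by simp, ?_, ?_, ?_, ?_, ?_⟩
    · rw [hcat_one]; simp only [T.size, Rec.enc]; omega
    · refine LRun.one ?_ ?_ ?_
      · simp only [st, iT, T.size, T.size_unary]; omega
      · rw [hcat_one, ← inc_bl]
        simp [lStep, st, iT, T.unary, Rec.enc]
      · rw [hcat_one]; simp only [st, T.size, Rec.enc]; omega
    · exact ⟨⟨by simp [num], by simpa using hN⟩, rfl⟩
    · intro ρ hρ
      rw [List.mem_singleton.1 hρ]; rfl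
    · intro r hr
      have hr0 := hr 0 (by simp)
      simp only [List.getElem_cons_zero, Nat.add_zero] at hr0
      have hnum : num (T.node (bl N) T.leaf) = N := by simp [num]
      refine ⟨fun i h1 h2 => ?_, ?_⟩
      · obtain rfl : i = N := by omega
        unfold Ok; rw [hr0]; trivial
      · exact ⟨by rw [hnum]; omega, by rw [hnum]; exact hr0⟩
  | node u v ihu ihv =>
    intro P M N B K S H hP hM hB
    have hE : (T.node u v).size = u.size + v.size + 1 := rfl
    rw [hE] at hP hM hB ⊢
    have e1 : (u.size + v.size + 1) * (P + 3) = u.size * (P + 3) + v.size * (P + 3) +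
        (P + 3) := by ring
    have e2 : (u.size + v.size + 1 + 1) * M = u.size * M + v.size * M + 2 * M := by ring
    have e3 : (u.size + v.size + 1) * M = u.size * M + v.size * M + M := by ring
    have e4 : (u.size + 1) * M = u.size * M + M := by ring
    have e5 : (v.size + 1) * M = v.size * M + M := by ring
    rw [e1] at hM
    rw [e2] at hB
    rw [e3]
    have hN := hP N (by omega)
    obtain ⟨l1, a1, m1, hm1, hl1, hH1, run1, hb1, hc1, sem1⟩ := ihu P M N B
      (T.node (iT v) (T.node iN K)) S H (fun n hn => hP n (by omega)) (by omega)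
      (by rw [e4]; simp only [iT, iN, T.size, T.size_unary]; omega)
    have za1 := hb1.size
    have hN1 := hP (N + u.size) (by omega)
    obtain ⟨l2, a2, m2, hm2, hl2, hH2, run2, hb2, hc2, sem2⟩ := ihv P M (N + u.size) B
      (T.node iN K) (T.node a1 S) (hcat l1 H) (fun n hn => hP n (by omega)) (by omega)
      (by rw [e5]; simp only [iN, T.size, T.size_unary]; omega)
    have za2 := hb2.size
    obtain ⟨lb1, sb1⟩ := hb1.label
    obtain ⟨lb2, sb2⟩ := hb2.label
    have hN2 := hP (N + u.size + v.size) (by omega)
    have hN3 := hP (N + (u.size + v.size + 1)) (by omega)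
    obtain ⟨ρ1, hρ1⟩ : ∃ ρ, ρ = Rec.node (num a1) (num a2) := ⟨_, rfl⟩
    have henc : ρ1.enc = ndR a1.left a2.left := by rw [hρ1, ← ndR_eq, ← lb1, ← lb2]
    have hsz : ρ1.enc.size ≤ 2 * P + 10 := by
      rw [henc]; simp only [ndR, T.size, T.size_unary]; omega
    have hnum : num (T.node (bl (N + u.size + v.size)) (T.node a1 a2)) =
        N + u.size + v.size := by simp [num]
    have hlen : (l1 ++ (l2 ++ [ρ1])).length = u.size + v.size + 1 := by simp [hl1, hl2]; omega
    refine ⟨l1 ++ (l2 ++ [ρ1]), T.node (bl (N + u.size + v.size)) (T.node a1 a2),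
      1 + (m2 + m1) + 1, by omega, hlen, ?_, ?_, ?_, ?_, ?_⟩
    · rw [hcat_append, hcat_append, hcat_one]
      simp only [T.size]
      omega
    · refine LRun.step ?_ ?_
      · simp only [st, iT, T.size, T.size_unary]; omega
      · have e6 : lStep (st (T.node (iT (T.node u v)) K) S H (bl N)) =
            st (T.node (iT u) (T.node (iT v) (T.node iN K))) S H (bl N) := by
          simp [lStep, st, iT, T.unary]
        rw [e6]
        refine LRun.trans (LRun.trans run1 run2) (LRun.one ?_ ?_ ?_)
        · simp only [st, iN, T.size, T.size_unary]; omega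
        · rw [hcat_append, hcat_append, hcat_one, henc]
          have e7 : lStep (st (T.node iN K) (T.node a2 (T.node a1 S)) (hcat l2 (hcat l1 H))
              (bl (N + u.size + v.size))) =
              st K (T.node (T.node (bl (N + u.size + v.size)) (T.node a1 a2)) S)
                (T.node (ndR a1.left a2.left) (hcat l2 (hcat l1 H)))
                (inc (bl (N + u.size + v.size))) := by
            simp [lStep, st, iN, T.unary]
          rw [e7, inc_bl, show N + (u.size + v.size + 1) = N + u.size + v.size + 1 by omega]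
        · rw [hcat_append, hcat_append, hcat_one]
          simp only [st, T.size]
          omega
    · exact ⟨⟨by rw [hnum]; rfl, hN2⟩, by simp, hb1, hb2⟩
    · intro ρ hρ
      rcases List.mem_append.1 hρ with h | h
      · exact hc1 ρ h
      · rcases List.mem_append.1 h with h | h
        · exact hc2 ρ h
        · rw [List.mem_singleton.1 h, hρ1]; rfl
    · intro r hr
      obtain ⟨ok1, s1⟩ := sem1 r (fun i hi => by
        rw [hr i (by omega), List.getElem_append_left])
      obtain ⟨ok2, s2⟩ := sem2 r (fun i hi => by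
        have h5 := hr (u.size + i) (by omega)
        rw [List.getElem_append_right (by omega)] at h5
        rw [List.getElem_append_left (by omega)] at h5
        rw [Nat.add_assoc, h5]
        congr 1
        omega)
      have hlast := hr (u.size + v.size) (by omega)
      rw [List.getElem_append_right (by omega), List.getElem_append_right (by omega)] at hlast
      rw [List.getElem_singleton, ← Nat.add_assoc] at hlast
      refine ⟨fun i hi1 hi2 => ?_, ⟨by rw [hnum]; omega, by rw [hnum, hlast, hρ1]; rfl,
        s1.mono (by omega), s2.mono (by omega)⟩⟩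
      rcases Nat.lt_or_ge i (N + u.size) with h | h
      · exact ok1 i hi1 h
      · rcases Nat.lt_or_ge i (N + u.size + v.size) with h' | h'
        · exact ok2 i h h'
        · obtain rfl : i = N + u.size + v.size := by omega
          unfold Ok
          rw [hlast, hρ1]
          exact ⟨⟨by have := s1.lt; omega, s1.isTree⟩, s2.lt, s2.isTree⟩

/-! ### The function -/

/-- The parameters: `z = node c (node x b)`. -/
def PP (z : T) : ℕ := 8 * (z.right.left.size + z.right.right.len) + 30

def MM (z : T) : ℕ :=
  8 * (z.right.left.size + z.left.size) +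
    4 * ((z.right.left.size + z.right.right.len + 2) * (PP z + 3)) + 20 * PP z + 200

def BB (z : T) : ℕ :=
  z.left.size + 100 + 2 * ((z.right.left.size + z.right.right.len + 4) * MM z)

/-- The initial state: write down `x`, and then run the program with code `c`. -/
def s0 (z : T) : T :=
  st (T.node (iT z.right.left) (T.node (iR z.left) T.leaf)) T.leaf T.leaf (bl 0)

def steps (z : T) : ℕ := 4 * (z.right.left.size + z.right.right.len + 1)

/-- Reversal of lists. -/
def rev (l : T) : T := tfold (fun h a => T.node h a) l T.leaf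

/-- The list of the codes of the records. -/
def trace (z : T) : T :=
  rev (gL^[steps z] (T.node (T.unary (BB z)) (s0 z))).right.right.right.left

theorem PP_poly : PolyNat PP := by
  have i := PolyTime.id
  exact ((PolyNat.const 8).mul ((PolyNat.size i.right.left).add (PolyNat.len i.right.right))).add
    (PolyNat.const 30)

theorem MM_poly : PolyNat MM := by
  have i := PolyTime.id
  exact ((((PolyNat.const 8).mul ((PolyNat.size i.right.left).add
    (PolyNat.size i.left))).add ((PolyNat.const 4).mul ((((PolyNat.size i.right.left).add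
      (PolyNat.len i.right.right)).add (PolyNat.const 2)).mul (PP_poly.add (PolyNat.const 3))))).add
        ((PolyNat.const 20).mul PP_poly)).add (PolyNat.const 200)

theorem BB_poly : PolyNat BB := by
  have i := PolyTime.id
  exact ((PolyNat.size i.left).add (PolyNat.const 100)).add ((PolyNat.const 2).mul
    ((((PolyNat.size i.right.left).add (PolyNat.len i.right.right)).add (PolyNat.const 4)).mul
      MM_poly))

theorem steps_poly : PolyNat steps := by
  have i := PolyTime.id
  exact (PolyNat.const 4).mul (((PolyNat.size i.right.left).add (PolyNat.len i.right.right)).add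
    (PolyNat.const 1))

theorem s0_poly : PolyTime s0 := by
  have i := PolyTime.id
  exact st_poly ((it_poly 6 i.right.left).node ((it_poly 1 i.left).node
    PolyTime.leaf)) (PolyTime.const _) (PolyTime.const _) (PolyTime.const _)

theorem rev_eq (l : T) : rev l = encL l.toL.reverse := by
  have : ∀ (l : List T) (a : T), l.foldl (fun a h => T.node h a) a =
      encL (l.reverse ++ a.toL) := by
    intro l
    induction l with
    | nil => intro a; simp
    | cons h l ih =>
      intro a
      rw [List.foldl_cons, ih]
      simp [T.toL]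
  rw [rev, tfold_eq, this]
  simp [T.toL]

theorem rev_poly {l : T → T} (hl : PolyTime l) : PolyTime (fun z => rev (l z)) := by
  have i := PolyTime.id
  have hsz : ∀ l a : T, (tfold (fun h a => T.node h a) l a).size ≤ l.size + a.size := by
    intro l
    induction l with
    | leaf => intro a; simp only [tfold, T.size]; omega
    | node h t _ ih =>
      intro a
      have := ih (T.node h a)
      simp only [tfold, T.size] at this ⊢
      omega
  exact (PolyTime₂.tfold (g := fun h a => T.node h a) (i.left.node i.right) PolyB.id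
    (fun a b h => h) hsz).comp hl PolyTime.leaf

theorem s0_size (z : T) : (s0 z).size ≤ BB z := by
  have h1 : MM z ≤ (z.right.left.size + z.right.right.len + 4) * MM z :=
    Nat.le_mul_of_pos_left _ (by omega)
  have h3 : 8 * z.right.left.size + 200 ≤ MM z := by unfold MM; omega
  simp only [s0, st, iR, iT, T.size, T.size_unary, BB, bl_zero]
  omega

theorem trace_poly : PolyTime trace := by
  have i := PolyTime.id
  have h0 : PolyTime (fun z => T.node (T.unary (BB z)) (s0 z)) := BB_poly.unary.node s0_poly
  have hit := PolyTime.iterate gL_poly steps_poly.unary h0 (by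
    obtain ⟨k, hk⟩ := PolyTime.size_bound BB_poly
    obtain ⟨m, hm⟩ : PolyB (fun n => 2 * (n + 2) ^ k + 1) :=
      ((PolyB.const 2).mul ⟨k, fun n => le_rfl⟩).add (PolyB.const 1)
    refine ⟨m, fun z j _ => le_trans ?_ (hm z.size)⟩
    have hs := s0_size z
    obtain ⟨h1, h2⟩ := gL_size j (T.node (T.unary (BB z)) (s0 z)) (by
      simpa using hs)
    have hk' := hk z
    have h3 : ∀ y : T, y.size ≤ y.left.size + y.right.size + 1 := by
      intro y; cases y <;> simp [T.size]
    have h4 := h3 (gL^[j] (T.node (T.unary (BB z)) (s0 z)))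
    rw [h1] at h4
    simp only [T.left_node, T.len_unary, T.size_unary] at h2 h4 hk'
    beta_reduce
    omega)
  refine (rev_poly hit.right.right.right.left).congr fun z => ?_
  simp only [trace, T.len_unary]

/-! ### The output -/

theorem toL_hcat (l : List Rec) (H : T) : (hcat l H).toL = (l.map Rec.enc).reverse ++ H.toL := by
  induction l generalizing H with
  | nil => simp [hcat]
  | cons ρ l ih =>
    rw [hcat, ih]
    simp [T.toL]

theorem bl_size' {n P : ℕ} (h : 4 * n + 1 ≤ P) : (bl n).size ≤ P := by
  have h1 := bl_size n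
  have h2 : n.size ≤ n := Nat.size_le.2 Nat.lt_two_pow_self
  omega

theorem trace_spec {c : Code} {x y : T} {t b : ℕ} (h : Eval c x y t) (hb : t ≤ b)
    (hy : y ≠ T.leaf) : ∃ (r : ℕ → Rec) (L : ℕ), Accepting r L c ∧
      trace (T.node c.enc (T.node x (T.unary b))) = encL ((List.range L).map fun i => (r i).enc) ∧
      ∀ i < L, codeSize (r i) ≤ c.enc.size := by
  obtain ⟨z, hz⟩ : ∃ z, z = T.node c.enc (T.node x (T.unary b)) := ⟨_, rfl⟩
  have z1 : z.right.left = x := by rw [hz]; rfl
  have z2 : z.right.right.len = b := by rw [hz]; exact T.len_unary b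
  have z3 : z.left = c.enc := by rw [hz]; rfl
  obtain ⟨P, hP⟩ : ∃ P, P = PP z := ⟨_, rfl⟩
  obtain ⟨M, hM⟩ : ∃ M, M = MM z := ⟨_, rfl⟩
  obtain ⟨B, hB⟩ : ∃ B, B = BB z := ⟨_, rfl⟩
  have hP' : P = 8 * (x.size + b) + 30 := by rw [hP, PP, z1, z2]
  have hM' : M = 8 * (x.size + c.enc.size) + 4 * ((x.size + b + 2) * (P + 3)) + 20 * P + 200 := by
    rw [hM, MM, z1, z2, z3, hP]
  have hB' : B = c.enc.size + 100 + 2 * ((x.size + b + 4) * M) := by
    rw [hB, BB, z1, z2, z3, hM]
  have hx := T.size_pos x
  obtain ⟨q, hq⟩ : ∃ q, q = (x.size + b + 2) * (P + 3) := ⟨_, rfl⟩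
  have hmul : ∀ k, k ≤ x.size + b + 2 → k * (P + 3) ≤ q := fun k hk => by
    rw [hq]; exact Nat.mul_le_mul_right _ hk
  rw [← hq] at hM'
  have hmulM : ∀ k, k ≤ x.size + b + 4 → k * M ≤ (x.size + b + 4) * M := fun k hk =>
    Nat.mul_le_mul_right _ hk
  have hbl : ∀ n ≤ x.size + 2 * b, (bl n).size ≤ P := fun n hn => bl_size' (by omega)
  have e1 : (x.size + b + 4) * M = (x.size + 1) * M + (b + 1) * M + 2 * M := by ring
  have e2 : (t + 1) * M ≤ (b + 1) * M := Nat.mul_le_mul_right _ (by omega)
  have e3 : (x.size + 1) * M = x.size * M + M := by ring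
  rw [e1] at hB'
  obtain ⟨l1, a, m1, hm1, hl1, hH1, run1, ha, hc1, sem1⟩ := log_tree x P M 0 B
    (T.node (iR c.enc) T.leaf) T.leaf T.leaf (fun n hn => hbl n (by omega))
    (by have := hmul x.size (by omega); omega)
    (by simp only [iR, T.size, T.size_unary]; omega)
  have za := ha.size
  rw [Nat.zero_add] at run1
  obtain ⟨l2, b2, m2, hm2, hl2, hn2, hH2, run2, hb2, hc2, sem2⟩ := good h P M x.size B
    T.leaf T.leaf (hcat l1 T.leaf) a (fun n hn => hbl n (by omega))
    (by have := hmul (x.size + t) (by omega); omega) ha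
    (by simp only [T.size] at hH1 ⊢; omega)
  have hlen2 : 0 < l2.length := List.length_pos_of_ne_nil hn2
  have run3 := run1.trans run2
  obtain ⟨V, hV⟩ : ∃ V, V = T.node (T.node (bl (x.size + l2.length - 1)) b2) T.leaf := ⟨_, rfl⟩
  rw [← hV] at run3
  have run4 : LRun B (st T.leaf V (hcat l2 (hcat l1 T.leaf)) (bl (x.size + l2.length)))
      (steps z - (m2 + m1)) (st T.leaf V (hcat l2 (hcat l1 T.leaf))
        (bl (x.size + l2.length))) := by
    refine ⟨lStep_final_iterate _ _ _ _, fun i _ => ?_⟩
    rw [lStep_final_iterate]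
    have := run3.2 _ le_rfl
    rwa [run3.1] at this
  have run5 := gL_iterate (run3.trans run4)
  have hst : steps z - (m2 + m1) + (m2 + m1) = steps z := by
    unfold steps
    rw [z1, z2]
    omega
  rw [hst] at run5
  have hs0 : s0 z = st (T.node (iT x) (T.node (iR c.enc) T.leaf)) T.leaf T.leaf (bl 0) := by
    rw [s0, z1, z3]
  obtain ⟨l, hl⟩ : ∃ l, l = l1 ++ l2 := ⟨_, rfl⟩
  have hlen : l.length = x.size + l2.length := by rw [hl, List.length_append, hl1]
  have htr : trace z = encL (l.map Rec.enc) := by
    rw [trace, hs0, ← hB, run5]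
    simp only [st, T.right_node, T.left_node]
    rw [rev_eq, ← hcat_append, ← hl, toL_hcat]
    simp [T.toL]
  obtain ⟨r, hr⟩ : ∃ r : ℕ → Rec, r = fun i => l.getD i Rec.leaf := ⟨_, rfl⟩
  have hget : ∀ i (hi : i < l.length), r i = l[i] := fun i hi => by
    rw [hr]
    simp [List.getD, hi]
  obtain ⟨ok1, s1⟩ := sem1 r (fun i hi => by
    rw [Nat.zero_add, hget i (by omega)]
    simp only [hl]
    rw [List.getElem_append_left])
  rw [Nat.zero_add] at ok1 s1
  obtain ⟨ok2, s2, ev⟩ := sem2 r (fun i hi => by
    rw [hget (x.size + i) (by omega)]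
    simp only [hl]
    rw [List.getElem_append_right (by omega)]
    congr 1
    omega) s1 (by omega)
  have hok : ∀ i < l.length, Ok r i := fun i hi => by
    rcases Nat.lt_or_ge i x.size with h' | h'
    · exact ok1 i (Nat.zero_le _) h'
    · exact ok2 i h' (by omega)
  refine ⟨r, l.length, ⟨by omega, hok, ?_⟩, ?_, ?_⟩
  · obtain ⟨s', t', hev⟩ := ev
    obtain ⟨y1, y2, rfl⟩ : ∃ y1 y2, y = T.node y1 y2 := by
      cases y with
      | leaf => exact absurd rfl hy
      | node y1 y2 => exact ⟨_, _, rfl⟩
    rw [← hlen] at hev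
    exact ⟨_, _, s', t', _, _, hev, s2.2.1⟩
  · rw [← hz, htr]
    congr 1
    refine List.ext_getElem (by simp) fun i h1 h2 => ?_
    simp only [List.getElem_map, List.getElem_range]
    rw [hget i (by simpa using h1)]
  · intro i hi
    rw [hget i hi]
    have hmem : l[i] ∈ l1 ++ l2 := by rw [← hl]; exact List.getElem_mem hi
    rcases List.mem_append.1 hmem with h' | h'
    · rw [hc1 _ h']; exact Nat.zero_le _
    · exact hc2 _ h'

theorem size_mono {a b : ℕ} (h : a ≤ b) : a.size ≤ b.size := Nat.size_le_size h

theorem rec_size {r : ℕ → Rec} {i L K : ℕ} (hi : i < L) (hok : Ok r i)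
    (hc : codeSize (r i) ≤ K) : (r i).enc.size ≤ K + 16 * L.size + 30 := by
  have hb : ∀ k, k < i → (bl k).size ≤ 4 * L.size + 1 := fun k hk => by
    have h1 := bl_size k
    have h2 := size_mono (show k ≤ L by omega)
    omega
  unfold Ok at hok
  match hr : r i with
  | Rec.leaf => simp only [Rec.enc, T.size]; omega
  | Rec.node a b =>
    rw [hr] at hok
    obtain ⟨⟨h1, _⟩, h2, _⟩ := hok
    have h3 := hb a h1
    have h4 := hb b h2
    simp only [Rec.enc, T.size, T.size_unary]
    omega
  | Rec.eval c x y s t =>
    rw [hr] at hok hc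
    obtain ⟨⟨h1, _⟩, ⟨h2, _⟩, h3, h4, _⟩ := hok
    have h5 := hb x h1
    have h6 := hb y h2
    have h7 := hb s h3
    have h8 := hb t h4
    have h9 : c.enc.size ≤ K := hc
    simp only [Rec.enc, T.size, T.size_unary]
    omega

end Pool.Agent.S2L.TRACE

namespace Pool.Agent.S2L

open Pool.Agent.H19 Pool.Agent.RU TRACE

theorem TRACE_thm : TRACE_stmt := by
  refine ⟨trace, 30, trace_poly, fun c x y t b h hb hy => ?_⟩
  obtain ⟨r, L, hacc, htr, hc⟩ := trace_spec h hb hy
  refine ⟨r, L, hacc, htr, fun i hi => ?_⟩
  have h1 := rec_size hi (hacc.2.1 i hi) (hc i hi)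
  omega

end Pool.Agent.S2L
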