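import Pool.Agent.S2L.Defs
import Pool.Agent.RU.Core
import Pool.Agent.RU.Ball
import Pool.Agent.PO.Stmts

/-!
# Records decided by symmetric games: definitions of the proof

* A claim `c = node b A` on a digit says that it is `1` (if `b` is not a leaf) or `0` (if `b` is a
  leaf); `A` is a list of messages of the player who wants to prove this.
* A record is given by a list of claims on its digits; `decT` computes the tree.
* `lk u k` looks up the entry with key `bl k` in the list `u`; an entry is `node (bl k) e`, with a
  list `e` of claims.
* The data of the reporter theory are `D = node D₀ q`, with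
  `D₀ = node (node aG aL) (node ah (node (unary j) (unary n₀)))` and `q = node c.enc (unary κ)`.
* Its axioms are given by `Z = node (node (bl N) (unary s)) (node (bl i) (node u (unary B)))`,
  `u` a list of entries.
-/

namespace Pool.Agent.S2L

open Pool.Agent.H19 Pool.Agent.H19.T Pool.Agent.RU Pool.Agent.PO

/-! ### Lists -/

/-- The entry number `b` of the list `l`. -/
def nthT (l : T) (b : ℕ) : T := (T.right^[b] l).left

/-- One step of the lookup; the state is `node key result`. -/
def lkStep (h a : T) : T := if h.left = a.left then T.node a.left h.right else a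

/-- The data of the (last) entry with key `bl k` of the list `u`; a leaf if there is none. -/
def lk (u : T) (k : ℕ) : T := (tfold lkStep u (T.node (bl k) T.leaf)).right

/-- The list `u` has an entry with key `bl k`. -/
def HasKey (u : T) (k : ℕ) : Prop := ∃ h ∈ u.toL, h.left = bl k

/-! ### Decoding -/

/-- One step of the evaluation of a word in reverse Polish notation; the state is a stack, and the
letter is given by `h.left`. -/
def decStep (h a : T) : T :=
  if h.left = T.leaf then T.node T.leaf a
  else T.node (T.node a.right.left a.left) a.right.right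

/-- The tree given by a list of claims on its digits: the bottom of the stack. -/
def decT (e : T) : T := tfold (fun h _ => h) (tfold decStep e T.leaf) T.leaf

/-- The tree `x` in the form of the list of its letters. -/
def wordT : T → T
  | T.leaf => T.node T.leaf T.leaf
  | T.node a b => app (wordT a) (app (wordT b) (T.node (T.node T.leaf T.leaf) T.leaf))

/-- The records given by the list `u`, up to number `i`. -/
def RL (u : T) (i k : ℕ) : T := if k ≤ i then decT (lk u k) else T.leaf

/-- The numbers of the records on which the local check of the record number `i` depends. -/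
def keysR (R : ℕ → T) (i : ℕ) : List ℕ :=
  [i, fa (R i), fb (R i), fx (R i), fy (R i), fs (R i), ft (R i), fy (R (fs (R i))),
    fa (R (fx (R i)))]

/-- The list `u` has entries, with `s` claims, for all records on which the local check of number
`i` depends. -/
def Cov (u : T) (s i : ℕ) : Prop :=
  ∀ k ∈ keysR (RL u i) i, k ≤ i → HasKey u k ∧ (lk u k).len = s

/-- `y` is a list of records which form an accepting computation of the program with code `W`. -/
def DescL (y : T) (W : T) : Prop :=
  y.len ≠ 0 ∧ ∀ i < y.len, CheckT (nthT y) i ∧ (i + 1 ≠ y.len ∨ FinalT (nthT y) i W)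

/-! ### The data -/

def eG (D : T) : T := D.left.left.left
def eL (D : T) : T := D.left.left.right
def eh (D : T) : T := D.left.right.left
def ej (D : T) : ℕ := D.left.right.right.left.len
def en (D : T) : ℕ := D.left.right.right.right.len

def mkD0 (aG aL ah : T) (j n₀ : ℕ) : T :=
  T.node (T.node aG aL) (T.node ah (T.node (T.unary j) (T.unary n₀)))

def zn (Z : T) : ℕ := bn Z.left.left
def zsz (Z : T) : ℕ := Z.left.right.len
def zi (Z : T) : ℕ := bn Z.right.left
def pl (Z : T) : T := Z.right.right.left
def bud (Z : T) : T := Z.right.right.right

def mkZ (N s i : ℕ) (u : T) (B : ℕ) : T :=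
  T.node (T.node (bl N) (T.unary s)) (T.node (bl i) (T.node u (T.unary B)))

/-- The size parameter. -/
def xs (N s : ℕ) : ℕ := (bl N).size + 2 * s + 10

/-! ### The relation -/

/-- The output of the program for the number of records (with a halting flag). -/
def OL (D Z : T) : T := simulF (T.node (eL D) (T.node (zl (zn Z) (zsz Z)) (bud Z)))

/-- The number of records. -/
def nL (D Z : T) : ℕ := bn (OL D Z).right

def okL (D Z : T) : Prop := OL D Z ≠ T.leaf ∧ nL D Z ≠ 0 ∧ (OL D Z).right.size ≤ (bud Z).len

/-- The first player wins the game for the digit number `k` of the record number `j`. -/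
def Win (D Z : T) (j k : ℕ) (y z : T) : Prop :=
  (simulF (T.node (eG D) (T.node (inp (zn Z) j k y z (zsz Z)) (bud Z)))).right ≠ T.leaf

/-- The claim `c` on the digit number `k` of the record number `j` is refuted by the message `x`. -/
def Ref (D Z : T) (j k : ℕ) (c x : T) : Prop :=
  (c.left ≠ T.leaf ∧ ∀ y ∈ c.right.toL, y.size ≤ zsz Z → ¬ Win D Z j k y x) ∨
  (c.left = T.leaf ∧ ∀ z ∈ c.right.toL, z.size ≤ zsz Z → Win D Z j k x z)

/-- Some claim in the list `u`, on a record with number at most `i`, is refuted by `x`. -/
def SomeRef (D Z u x : T) : Prop :=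
  ∃ h ∈ u.toL, bn h.left ≤ zi Z ∧ ∃ k < zsz Z, Ref D Z (bn h.left) k (nthT h.right k) x

section
variable (μ : Fm) (fP : T → T) (V : T)

/-- The relation; `X = node D Z`. -/
def FR (X x : T) : Prop :=
  x.size ≤ zsz X.right ∧ okL X.left X.right ∧
    (nL X.left X.right ≤ zi X.right ∨ ¬ Cov (pl X.right) (zsz X.right) (zi X.right) ∨
      (CheckT (RL (pl X.right) (zi X.right)) (zi X.right) ∧
        (zi X.right + 1 ≠ nL X.left X.right ∨
          FinalT (RL (pl X.right) (zi X.right)) (zi X.right) (TX μ fP V X.left (zn X.right)))) ∨
      SomeRef X.left X.right (pl X.right) x)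

end

/-- The condition on the axioms of the reporter theory. -/
def Cond (D Z : T) : Prop :=
  en D ≤ zn Z ∧ xs (zn Z) (zsz Z) ^ ej D ≤ (bud Z).len ∧
    (simulF (T.node (eh D) (T.node (zl (zn Z) (zsz Z)) (bud Z)))).right ≠ T.leaf

/-- The simulation depends only on the length of the budget. -/
theorem simulF_len (c x B : T) :
    simulF (T.node c (T.node x B)) = simulF (T.node c (T.node x (T.unary B.len))) := by
  simp only [simulF, finalSt, uSpace, T.left_node, T.right_node, T.len_unary]

end Pool.Agent.S2L
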