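import Pool.Agent.S2L.Stmts
import Pool.Agent.RL3.Main

/-!
# The theory which watches for proofs decided by symmetric games
-/

namespace Pool.Agent.S2L.Core

open Pool.Agent.H19 Pool.Agent.H19.T Pool.Agent.RU Pool.Agent.PO Pool.Agent.RL

/-! ### The success condition -/

def wN (v : T) : ℕ := bn v.right.left.right.left
def ws (v : T) : ℕ := v.right.left.right.right.len
def wB (v : T) : ℕ := v.right.right.left.len
def wm (v : T) : ℕ := v.right.right.right.len
def wy (v : T) : T := v.right.left.left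

def mkW (D₀ y : T) (N s B m : ℕ) : T :=
  T.node D₀ (T.node (T.node y (zl N s)) (T.node (T.unary B) (T.unary m)))

section
variable (S : Set Fm) (μ : Fm) (fP : T → T) (V : T) (f₀ : T → T) (g : T → T) (c₁ c₂ m₁ : ℕ)

/-- The tree `v` contains an explicit description of an accepting computation, or an `S`-proof, for
the reflection sentence for `wm v` of the reporter theory for the programs in `v`; `g D` is the
code of the reporter theory. -/
def Succ (v q : T) : Prop :=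
  en (T.node v.left q) ≤ wN v ∧ 100 * v.size + m₁ ≤ wN v ∧
    xs (wN v) (ws v) ^ ej (T.node v.left q) ≤ wB v ∧ xs (wN v) (ws v) ^ 7 ≤ wB v ∧
    (simulF (T.node (eh (T.node v.left q))
      (T.node (zl (wN v) (ws v)) (T.unary (wB v))))).right ≠ T.leaf ∧
    ((T.node v.left q).size + c₁ * (wB v + 1) + 2) ^ c₂ ≤ wm v ∧
    (DescL (wy v) (WE V (rfn (decFm (fP (g (T.node v.left q)))) μ (wm v)).enc) ∨
      IsProof S (decProof (wy v)) (rfn (decFm (fP (g (T.node v.left q)))) μ (wm v)))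

open Classical in
/-- The decider; its argument is `node x q`. -/
noncomputable def HS (z : T) : T :=
  if (falsum (unfalsum z.left)).enc = z.left ∧ Succ S μ fP V g c₁ c₂ m₁ (unfalsum z.left) z.right
  then T.node T.leaf T.leaf else f₀ z.left

end

theorem HS_polyTime {S : Set Fm} {μ : Fm} {fP f₀ g : T → T} {V : T} {c₁ c₂ m₁ : ℕ}
    (hREL : REL_stmt) (hSIM : SIMF_stmt) (hS : DecTh S) (hfP : PolyTime fP) (hf₀ : PolyTime f₀)
    (hg : PolyTime g) : PolyTime (HS S μ fP V f₀ g c₁ c₂ m₁) := by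
  have i := PolyTime.id
  have hv : PolyTime (fun z : T => unfalsum z.left) :=
    uu_polyTime.comp i.left.right.left.right.left
  have hN : PolyN (fun z : T => wN (unfalsum z.left)) := polyN_bn hv.right.left.right.left
  have hN' : PolyTime (fun z : T => bl (wN (unfalsum z.left))) := hN
  have hs : PolyNat (fun z : T => ws (unfalsum z.left)) := PolyNat.len hv.right.left.right.right
  have hB : PolyNat (fun z : T => wB (unfalsum z.left)) := PolyNat.len hv.right.right.left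
  have hm : PolyNat (fun z : T => wm (unfalsum z.left)) := PolyNat.len hv.right.right.right
  have hy : PolyTime (fun z : T => wy (unfalsum z.left)) := hv.right.left.left
  have hD : PolyTime (fun z : T => T.node (unfalsum z.left).left z.right) :=
    hv.left.node i.right
  have hen : PolyNat (fun z : T => en (T.node (unfalsum z.left).left z.right)) :=
    PolyNat.len hD.left.right.right.right
  have hej : PolyNat (fun z : T => ej (T.node (unfalsum z.left).left z.right)) :=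
    PolyNat.len hD.left.right.right.left
  have heh : PolyTime (fun z : T => eh (T.node (unfalsum z.left).left z.right)) :=
    hD.left.right.left
  have hX : PolyNat (fun z : T => xs (wN (unfalsum z.left)) (ws (unfalsum z.left))) :=
    ((PolyNat.size hN').add ((PolyNat.const 2).mul hs)).add (PolyNat.const 10)
  have hrfn := rfn_polyTime μ (hfP.comp (hg.comp hD)) hm
  have hdec : PolyDec (fun z : T => (falsum (unfalsum z.left)).enc = z.left ∧
      Succ S μ fP V g c₁ c₂ m₁ (unfalsum z.left) z.right) := by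
    refine (PolyDec.eq (falsum_polyTime.comp hv) i.left).and ?_
    refine (PolyDec.leN hen.toN hN).and ?_
    refine (PolyDec.leN (((PolyNat.const 100).mul (PolyNat.size hv)).add
      (PolyNat.const m₁)).toN hN).and ?_
    refine ((PolyDec.le_pow hX (hB.add (PolyNat.const 1)) hej).not.congr
        fun _ => by omega).and ?_
    refine ((PolyDec.le_pow hX (hB.add (PolyNat.const 1)) (PolyNat.const 7)).not.congr
        fun _ => by omega).and ?_
    refine (PolyDec.ne_leaf (hSIM.1.comp (heh.node ((hN'.node hs.unary).node hB.unary))).right).and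
      ?_
    refine ((PolyDec.le_pow (((PolyNat.size hD).add ((PolyNat.const c₁).mul
      (hB.add (PolyNat.const 1)))).add (PolyNat.const 2)) (hm.add (PolyNat.const 1))
        (PolyNat.const c₂)).not.congr fun _ => by omega).and ?_
    refine (hREL.2.2.2 _ _ hy (WE_poly V hrfn)).or ?_
    have h := (isProof_polyDec hS).comp (hy.node hrfn)
    refine h.congr fun z => ?_
    simp only [T.left_node, T.right_node, decFm_enc]
  refine (PolyTime.ifP hdec (PolyTime.const (T.node T.leaf T.leaf))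
      (hf₀.comp i.left)).congr fun z => ?_
  unfold HS
  split_ifs <;> rfl

/-! ### The components of the trees -/

theorem cond_mkZ {D : T} {N s i B : ℕ} {u : T} (h1 : en D ≤ N) (h2 : xs N s ^ ej D ≤ B)
    (h3 : (simulF (T.node (eh D) (T.node (zl N s) (T.unary B)))).right ≠ T.leaf) :
    Cond D (mkZ N s i u B) := by
  have e1 : zn (mkZ N s i u B) = N := bn_bl N
  have e2 : zsz (mkZ N s i u B) = s := T.len_unary s
  have e3 : bud (mkZ N s i u B) = T.unary B := rfl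
  unfold Cond
  rw [e1, e2, e3, T.len_unary]
  exact ⟨h1, h2, h3⟩

theorem descL_sound {S : Set Fm} {V : Code} {φ : Fm} (hV : SoundChecker S V) {y : T}
    (h : DescL y (check V φ).enc) : Provable S φ :=
  accept_sound hV h.1 h.2

end Pool.Agent.S2L.Core

namespace Pool.Agent.S2L

open Pool.Agent.H19 Pool.Agent.H19.T Pool.Agent.RU Pool.Agent.PO Pool.Agent.RL Core

/-- **The core.** -/
theorem CORE_thm (hREL : REL_stmt) (hTH : TH_stmt) (hTR : TRUTH_stmt) (hST : STRONG_stmt)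
    (hSIM : SIMF_stmt) : CORE_stmt := by
  intro μ₁ hμ₁ P₁ hP₁ S₁ T₁ hS₁ hT₁ V₁ hV₁ μ₂ hμ₂ P₂ hP₂ S₂ T₂ hS₂ hT₂ V₂ hV₂
  obtain ⟨K₁, hkey₁⟩ := RL3.key hμ₁ hP₁ hS₁
  obtain ⟨fP₁, hfP₁, hfPc₁⟩ := hP₁.poly
  obtain ⟨fP₂, hfP₂, hfPc₂⟩ := hP₂.poly
  obtain ⟨c₁, hstrong⟩ := hST
  obtain ⟨pc, pk, c₂, hppoly, hphalt, hpsame, hprefl⟩ := hTH μ₂ hμ₂ P₂ hP₂ S₂ T₂ hS₂ hT₂
    (FR μ₁ fP₁ V₁.enc) Cond (hREL.1 μ₁ fP₁ V₁.enc hfP₁) (hREL.2.1 μ₁ fP₁ V₁.enc) hREL.2.2.1
  obtain ⟨hc₁, f₁, hf₁, hT₁f⟩ := hT₁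
  have hSdec₂ := DecTh.of_inClassT hS₂
  obtain ⟨gg, hgg⟩ : ∃ gg : T → T, gg = fun D => T.node (pc D).enc (T.unary (pk D)) := ⟨_, rfl⟩
  have hggp : PolyTime gg := by rw [hgg]; exact hppoly
  have hfPg : ∀ D, fP₂ (gg D) = (P₂ (pc D) (pk D)).enc := by
    intro D; rw [hgg]; exact hfPc₂ _ _
  obtain ⟨m₁, hm₁⟩ : ∃ m₁ : ℕ, m₁ = K₁ + 1000 := ⟨_, rfl⟩
  obtain ⟨c, κ, hcκ⟩ := recursion (HS_polyTime (μ := μ₂) (V := V₂.enc) (c₁ := c₁) (c₂ := c₂)
    (m₁ := m₁) hREL hSIM hSdec₂ hfP₂ hf₁ hggp)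
  have hacc : ∀ x : T, Accepts c κ x ↔ HS S₂ μ₂ fP₂ V₂.enc f₁ gg c₁ c₂ m₁
      (T.node x (T.node c.enc (T.unary κ))) ≠ T.leaf := by
    intro x
    obtain ⟨t, ht, hb⟩ := hcκ x
    exact accepts_iff ht hb
  obtain ⟨q, hq⟩ : ∃ q, q = T.node c.enc (T.unary κ) := ⟨_, rfl⟩
  rw [← hq] at hacc
  have hPq : fP₁ q = (P₁ c κ).enc := by rw [hq]; exact hfPc₁ c κ
  -- there is no success
  have hno : ∀ v : T, ¬ Succ S₂ μ₂ fP₂ V₂.enc gg c₁ c₂ m₁ v q := by
    intro v hv
    have hmem : falsum v ∈ theory c κ := by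
      refine Or.inr ((hacc _).2 ?_)
      have : HS S₂ μ₂ fP₂ V₂.enc f₁ gg c₁ c₂ m₁ (T.node (falsum v).enc q) =
          T.node T.leaf T.leaf := by
        simp only [HS, T.left_node, T.right_node]
        rw [if_pos]
        exact ⟨by rw [unfalsum_enc], by rw [unfalsum_enc]; exact hv⟩
      rw [this]; simp
    obtain ⟨hv1, hv2, hv3, hv4, hv5, hv6, hv7⟩ := hv
    obtain ⟨D, hD⟩ : ∃ D, D = T.node v.left q := ⟨_, rfl⟩
    rw [← hD] at hv1 hv3 hv5 hv6 hv7
    rw [hfPg, decFm_enc, WE_eq] at hv7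
    obtain ⟨N, hN⟩ : ∃ N, N = wN v := ⟨_, rfl⟩
    obtain ⟨s, hs⟩ : ∃ s, s = ws v := ⟨_, rfl⟩
    obtain ⟨B, hB⟩ : ∃ B, B = wB v := ⟨_, rfl⟩
    rw [← hN] at hv1 hv2 hv3 hv4 hv5
    rw [← hs] at hv3 hv4 hv5
    rw [← hB] at hv3 hv4 hv5 hv6
    have hpD : Provable S₂ (rfn (P₂ (pc D) (pk D)) μ₂ (wm v)) := by
      rcases hv7 with hv7 | hv7
      · exact descL_sound hV₂ hv7
      · exact ⟨_, hv7⟩
    obtain ⟨R, L, hL, hR⟩ := hstrong μ₁ fP₁ V₁.enc D N s B hv4 fun i u hu => by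
      refine hprefl D _ (wm v) (cond_mkZ hv1 hv3 hv5) ?_ hpD
      refine le_trans (Nat.pow_le_pow_left ?_ _) hv6
      omega
    have hTX : TX μ₁ fP₁ V₁.enc D N = (check V₁ (rfn (P₁ c κ) μ₁ N)).enc := by
      rw [TX, hD, T.right_node, hPq, decFm_enc, WE_eq]
    rw [hTX] at hR
    exact hkey₁ c κ v N hmem (by omega) (accept_sound hV₁ hL hR)
  have hhalt : HaltsWithin c κ := fun x => ⟨_, hcκ x⟩
  have hth : theory c κ = T₁ := by
    ext φ
    rw [hT₁f]
    show (φ ∈ S12 ∨ Accepts c κ φ.enc) ↔ _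
    rw [hacc]
    have : HS S₂ μ₂ fP₂ V₂.enc f₁ gg c₁ c₂ m₁ (T.node φ.enc q) = f₁ φ.enc := by
      simp only [HS, T.left_node, T.right_node]
      rw [if_neg fun h => hno _ h.2]
    rw [this]
  refine ⟨c, κ, hhalt, hth, ?_⟩
  rintro τ L ℓ G ⟨h, ⟨ah, kh, hah⟩, hτ⟩ ⟨al, kl, hal⟩ ⟨ag, kg, hag⟩ ⟨n₀, hn₀⟩
  obtain ⟨j₀, hj₀⟩ := hTR μ₁ P₁ fP₁ hfPc₁ V₁ c κ τ L ℓ G h ag al ah kg kl kh n₀ hag hal hah hτ hn₀
  obtain ⟨j, hj⟩ : ∃ j, j = j₀ + kh + 7 := ⟨_, rfl⟩
  obtain ⟨D₀, hD₀⟩ : ∃ D₀ : T, D₀ = mkD0 ag.enc al.enc ah.enc j n₀ := ⟨_, rfl⟩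
  obtain ⟨D, hD⟩ : ∃ D, D = T.node D₀ q := ⟨_, rfl⟩
  have htrue := hj₀ j (by omega) D (by rw [hD, hD₀, hq])
  have eh' : eh D = ah.enc := by rw [hD, hD₀]; rfl
  have ej' : ej D = j := by rw [hD, hD₀]; exact T.len_unary j
  have en' : en D = n₀ := by rw [hD, hD₀]; exact T.len_unary n₀
  refine ⟨pc D, pk D, hphalt D, hpsame D htrue, ?_⟩
  -- the constants
  obtain ⟨E, hE⟩ : ∃ E, E = D.size + 2 * c₁ + 2 := ⟨_, rfl⟩
  refine ⟨(j + E) * c₂ + j, 100 * (D₀.size + 30) + m₁ + n₀ + 400, ?_⟩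
  intro N m hN hm hclk
  obtain ⟨X, hX⟩ : ∃ X, X = xs N (τ N) := ⟨_, rfl⟩
  have hX' : (bl N).size + 2 * τ N + 10 = X := by rw [hX]; rfl
  rw [hX'] at hclk
  have hX10 : 10 ≤ X := by omega
  have hX1 : 1 ≤ X := by omega
  obtain ⟨B, hB⟩ : ∃ B, B = X ^ j := ⟨_, rfl⟩
  have hB1 : 1 ≤ B := by rw [hB]; exact Nat.one_le_pow _ _ hX1
  have hBm : B ≤ m := by
    rw [hB]
    exact (Nat.pow_le_pow_right hX1 (by omega)).trans hclk
  have hB7 : X ^ 7 ≤ B := by rw [hB]; exact Nat.pow_le_pow_right hX1 (by omega)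
  have hbig : (D.size + c₁ * (B + 1) + 2) ^ c₂ ≤ m := by
    have h1 : D.size + c₁ * (B + 1) + 2 ≤ E * B := by
      have h2 : c₁ * (B + 1) ≤ 2 * c₁ * B := by nlinarith
      have h3 : D.size + 2 ≤ (D.size + 2) * B := Nat.le_mul_of_pos_right _ hB1
      have h4 : E * B = (D.size + 2) * B + 2 * c₁ * B := by rw [hE]; ring
      omega
    have h2 : E ≤ X ^ E := by
      calc E ≤ 10 ^ E := (Nat.lt_pow_self (by norm_num)).le
        _ ≤ X ^ E := Nat.pow_le_pow_left hX10 _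
    have h3 : E * B ≤ X ^ (j + E) := by
      rw [hB, pow_add, mul_comm]
      exact Nat.mul_le_mul_left _ h2
    calc (D.size + c₁ * (B + 1) + 2) ^ c₂ ≤ (X ^ (j + E)) ^ c₂ :=
          Nat.pow_le_pow_left (h1.trans h3) _
      _ = X ^ ((j + E) * c₂) := (pow_mul _ _ _).symm
      _ ≤ X ^ ((j + E) * c₂ + j) := Nat.pow_le_pow_right hX1 (by omega)
      _ ≤ m := hclk
  have hsim : (simulF (T.node (eh D) (T.node (zl N (τ N)) (T.unary B)))).right ≠ T.leaf := by
    obtain ⟨t, ht, hb⟩ := hah (zl N (τ N))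
    have h1 : t ≤ B := by
      refine hb.trans ?_
      rw [hB]
      calc ((zl N (τ N)).size + 2) ^ kh ≤ X ^ kh := by
            refine Nat.pow_le_pow_left ?_ _
            rw [← hX']
            simp only [zl, T.size, T.size_unary]; omega
        _ ≤ X ^ j := Nat.pow_le_pow_right hX1 (by omega)
    rw [eh', hSIM.2.1 ah (zl N (τ N)) _ t B ht h1, T.right_node]
    exact (hτ N (τ N)).2 rfl
  -- a tree with a description or a proof has to be large
  have hmain : ∀ y : T, (DescL y (check V₂ (rfn (P₂ (pc D) (pk D)) μ₂ m)).enc ∨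
      IsProof S₂ (decProof y) (rfn (P₂ (pc D) (pk D)) μ₂ m)) →
      N < 100 * (D₀.size + 30 + y.size + 4 * m + (bl N).size + 2 * τ N) + m₁ := by
    intro y hy
    by_contra hcon
    refine hno (mkW D₀ y N (τ N) B m) ?_
    have eN : wN (mkW D₀ y N (τ N) B m) = N := bn_bl N
    have es : ws (mkW D₀ y N (τ N) B m) = τ N := T.len_unary _
    have eB : wB (mkW D₀ y N (τ N) B m) = B := T.len_unary _
    have em : wm (mkW D₀ y N (τ N) B m) = m := T.len_unary _
    have ey : wy (mkW D₀ y N (τ N) B m) = y := rfl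
    have eD : T.node (mkW D₀ y N (τ N) B m).left q = D := by rw [hD]; rfl
    unfold Succ
    rw [eN, es, eB, em, ey, eD, en', ej', ← hX, hfPg, decFm_enc, WE_eq]
    refine ⟨by omega, ?_, by rw [hB], hB7, hsim, hbig, hy⟩
    simp only [mkW, zl, T.size, T.size_unary]
    omega
  obtain ⟨C, hC⟩ : ∃ C, C = 100 * (D₀.size + 30) + m₁ + n₀ + 400 := ⟨_, rfl⟩
  rw [← hC]
  have hmul : ∀ Y : ℕ, 1 ≤ Y → C - 400 + 400 * Y ≤ C * Y := by
    intro Y hY1
    have h1 : C * Y = (C - 400) * Y + 400 * Y := by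
      rw [← Nat.add_mul, Nat.sub_add_cancel (by rw [hC]; exact Nat.le_add_left _ _)]
    have h2 : C - 400 ≤ (C - 400) * Y := Nat.le_mul_of_pos_right _ hY1
    omega
  constructor
  · intro y hdesc
    have h1 := hmain y (Or.inl hdesc)
    have h2 := hmul (y.size + m + (bl N).size + τ N) (by have := T.size_pos y; omega)
    omega
  · intro π hπ
    have h1 := hmain (encProof π) (Or.inr (by rw [decProof_enc]; exact hπ))
    have h2 := hmul ((encProof π).size + m + (bl N).size + τ N)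
      (by have := T.size_pos (encProof π); omega)
    omega

end Pool.Agent.S2L
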