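import Pool.Agent.S2L.Stmts

/-!
# Finite combinatorics: the number of trees, and short lists which cannot be refuted
-/

set_option autoImplicit false

namespace Pool.Agent.S2L

open Pool.Agent.H19 Pool.Agent.H19.T Pool.Agent.RU Pool.Agent.PO

namespace Cover

/-- the evaluation of a word in reverse Polish form -/
def ev : List Bool → List T → List T
  | [], st => st
  | false :: w, st => ev w (T.leaf :: st)
  | true :: w, b :: a :: st => ev w (T.node a b :: st)
  | true :: _, _ => []

theorem ev_word (x : T) : ∀ (w : List Bool) (st : List T), ev (word x ++ w) st = ev w (x :: st) := by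
  induction x with
  | leaf => intro w st; rfl
  | node a b iha ihb =>
    intro w st
    simp only [word, List.append_assoc, List.singleton_append]
    rw [iha, ihb]
    rfl

theorem word_inj {x y : T} (h : word x = word y) : x = y := by
  have h1 := ev_word x [] []
  have h2 := ev_word y [] []
  rw [h] at h1
  rw [h1] at h2
  have h3 : ([x] : List T) = [y] := h2
  exact List.head_eq_of_cons_eq h3

theorem word_length (x : T) : (word x).length = x.size := by
  induction x with
  | leaf => rfl
  | node a b iha ihb =>
    simp only [word, List.length_append, List.length_singleton, T.size, iha, ihb]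
    omega

/-- the number of a word -/
def num : List Bool → ℕ
  | [] => 1
  | b :: l => 2 * num l + (if b then 1 else 0)

theorem num_pos (l : List Bool) : 1 ≤ num l := by
  induction l with
  | nil => exact le_rfl
  | cons b l ih =>
    simp only [num]
    omega

theorem num_lt (l : List Bool) : num l < 2 ^ (l.length + 1) := by
  induction l with
  | nil => simp [num]
  | cons b l ih =>
    simp only [num, List.length_cons]
    have h1 : 2 ^ (l.length + 1 + 1) = 2 * 2 ^ (l.length + 1) := by ring
    rw [h1]
    cases b <;> simp <;> omega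

theorem num_inj : ∀ l l' : List Bool, num l = num l' → l = l' := by
  intro l
  induction l with
  | nil =>
    intro l' h
    cases l' with
    | nil => rfl
    | cons b l' =>
      have := num_pos l'
      simp only [num] at h
      omega
  | cons b l ih =>
    intro l' h
    cases l' with
    | nil =>
      have := num_pos l
      simp only [num] at h
      omega
    | cons b' l' =>
      simp only [num] at h
      have hb : b = b' := by
        cases b <;> cases b' <;> simp at h ⊢ <;> omega
      subst hb
      have h1 : num l = num l' := by omega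
      rw [ih l' h1]

theorem wn_inj : Function.Injective (fun x : T => num (word x)) := fun _ _ h =>
  word_inj (num_inj _ _ h)

/-- covering by repeated halving -/
theorem halve (R : T → T → Prop) (Y : Finset T) (n : ℕ) : ∀ Z : Finset T,
    (∀ Z' ⊆ Z, Z'.Nonempty → ∃ y ∈ Y, ∃ D : Finset T, (∀ z ∈ D, R y z) ∧ D ⊆ Z' ∧
      Z'.card ≤ 2 * D.card) → Z.card < 2 ^ n →
    ∃ A : List T, A.length ≤ n ∧ (∀ y ∈ A, y ∈ Y) ∧ ∀ z ∈ Z, ∃ y ∈ A, R y z := by
  induction n with
  | zero =>
    intro Z _ hZ
    have h1 : Z = ∅ := by
      rw [← Finset.card_eq_zero]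
      simpa using hZ
    refine ⟨[], le_rfl, fun y hy => absurd hy (List.not_mem_nil), fun z hz => ?_⟩
    rw [h1] at hz
    exact absurd hz (Finset.notMem_empty z)
  | succ n ih =>
    intro Z h hZ
    by_cases hne : Z.Nonempty
    · obtain ⟨y, hy, D, hD, hDZ, hc⟩ := h Z (Finset.Subset.refl Z) hne
      have h2 : (Z \ D).card < 2 ^ n := by
        rw [Finset.card_sdiff_of_subset hDZ]
        have h3 : 2 ^ (n + 1) = 2 * 2 ^ n := by ring
        rw [h3] at hZ
        have h4 := Finset.card_le_card hDZ
        omega
      obtain ⟨A, hA1, hA2, hA3⟩ := ih (Z \ D)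
        (fun Z' hZ' => h Z' (hZ'.trans Finset.sdiff_subset)) h2
      refine ⟨y :: A, by simpa using hA1, ?_, ?_⟩
      · intro y' hy'
        rcases List.mem_cons.1 hy' with h5 | h5
        · rw [h5]; exact hy
        · exact hA2 y' h5
      · intro z hz
        by_cases hzD : z ∈ D
        · exact ⟨y, List.mem_cons_self, hD z hzD⟩
        · obtain ⟨y', hy', hR⟩ := hA3 z (Finset.mem_sdiff.2 ⟨hz, hzD⟩)
          exact ⟨y', List.mem_cons_of_mem _ hy', hR⟩
    · rw [Finset.not_nonempty_iff_eq_empty] at hne
      refine ⟨[], Nat.zero_le _, fun y hy => absurd hy (List.not_mem_nil), fun z hz => ?_⟩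
      rw [hne] at hz
      exact absurd hz (Finset.notMem_empty z)

end Cover

open Cover

theorem TREES_thm : TREES_stmt := by
  intro m
  refine ⟨(Finset.range (2 ^ (m + 1))).preimage (fun x : T => num (word x)) wn_inj.injOn, ?_, ?_⟩
  · intro y hy
    rw [Finset.mem_preimage, Finset.mem_range]
    have h1 := num_lt (word y)
    rw [word_length] at h1
    exact lt_of_lt_of_le h1 (Nat.pow_le_pow_right (by norm_num) (by omega))
  · have h1 := Finset.card_le_card_of_injOn (s := (Finset.range (2 ^ (m + 1))).preimage
      (fun x : T => num (word x)) wn_inj.injOn) (t := Finset.range (2 ^ (m + 1)))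
      (fun x : T => num (word x)) (fun x hx => by simpa using hx) wn_inj.injOn
    rw [Finset.card_range] at h1
    have h2 : 2 ^ (m + 2) = 2 * 2 ^ (m + 1) := by ring
    have h3 : 0 < 2 ^ (m + 1) := by positivity
    omega

theorem COVER_thm (hT : TREES_stmt) : COVER_stmt := by
  classical
  intro s R
  obtain ⟨Y0, hY0, hc0⟩ := hT s
  set Z := Y0.filter (fun x => x.size ≤ s) with hZdef
  have hZ : ∀ z, z ∈ Z ↔ z.size ≤ s := fun z => by
    rw [hZdef, Finset.mem_filter]
    exact ⟨fun h => h.2, fun h => ⟨hY0 z h, h⟩⟩
  have hc : Z.card < 2 ^ (s + 2) := lt_of_le_of_lt (Finset.card_filter_le _ _) hc0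
  by_cases h : ∀ Z' ⊆ Z, Z'.Nonempty → ∃ y ∈ Z, ∃ D : Finset T, (∀ z ∈ D, R y z) ∧ D ⊆ Z' ∧
      Z'.card ≤ 2 * D.card
  · left
    obtain ⟨A, hA1, hA2, hA3⟩ := halve R Z (s + 2) Z h hc
    exact ⟨A, by omega, fun y hy => (hZ y).1 (hA2 y hy), fun z hz => hA3 z ((hZ z).2 hz)⟩
  · right
    push Not at h
    obtain ⟨Z', hZ'Z, hne, hZ'⟩ := h
    have h1 : ∀ y ∈ Z, 2 * (Z'.filter (fun z => R y z)).card < Z'.card := fun y hy =>
      hZ' y hy _ (fun z hz => (Finset.mem_filter.1 hz).2) (Finset.filter_subset _ _)
    obtain ⟨A, hA1, hA2, hA3⟩ := halve (fun z y => ¬ R y z) Z' (s + 2) Z (by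
      intro Y' hY' hY'ne
      by_contra hcon
      push Not at hcon
      have h2 : ∀ z ∈ Z', 2 * (Y'.filter (fun y => ¬ R y z)).card < Y'.card := fun z hz =>
        hcon z hz _ (fun y hy => (Finset.mem_filter.1 hy).2) (Finset.filter_subset _ _)
      have h3 : ∑ z ∈ Z', (Y'.filter (fun y => ¬ R y z)).card =
          ∑ y ∈ Y', (Z'.filter (fun z => ¬ R y z)).card := by
        simp only [Finset.card_filter]
        exact Finset.sum_comm
      have h4 : ∑ z ∈ Z', 2 * (Y'.filter (fun y => ¬ R y z)).card < ∑ _z ∈ Z', Y'.card :=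
        Finset.sum_lt_sum_of_nonempty hne h2
      have h5 : ∑ _y ∈ Y', Z'.card ≤ ∑ y ∈ Y', 2 * (Z'.filter (fun z => ¬ R y z)).card := by
        refine Finset.sum_le_sum (fun y hy => ?_)
        have h6 := h1 y (hY' hy)
        have h7 := Finset.card_filter_add_card_filter_not (s := Z') (fun z => R y z)
        omega
      rw [← Finset.mul_sum, h3, Finset.sum_const, smul_eq_mul] at h4
      rw [← Finset.mul_sum, Finset.sum_const, smul_eq_mul] at h5
      rw [mul_comm] at h5
      omega) hc
    exact ⟨A, by omega, fun z hz => (hZ z).1 (hZ'Z (hA2 z hz)),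
      fun y hy => hA3 y ((hZ y).2 hy)⟩

end Pool.Agent.S2L
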