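import Pool.Agent.S2L.Stmts

/-!
# Words of trees in reverse Polish form
-/

namespace Pool.Agent.S2L

open Pool.Agent.H19 Pool.Agent.H19.T Pool.Agent.RU Pool.Agent.PO

namespace Dec

/-! ### Complexity -/

theorem decStep_polyTime : PolyTime₂ decStep := by
  have i := PolyTime.id
  exact (i.left.left).ite (PolyTime.leaf.node i.right)
    ((i.right.right.left.node i.right.left).node i.right.right.right)

theorem decStep_size (h a : T) : (decStep h a).size ≤ a.size + 4 := by
  unfold decStep
  split_ifs
  · simp only [T.size]; omega
  · rcases a with _ | ⟨x, y⟩
    · simp only [T.left_leaf, T.right_leaf, T.size]; omega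
    · rcases y with _ | ⟨y, z⟩
      · simp only [T.left_leaf, T.right_leaf, T.left_node, T.right_node, T.size]; omega
      · simp only [T.left_node, T.right_node, T.size]; omega

theorem fold_size (l a : T) : (tfold decStep l a).size ≤ 4 * l.size + a.size := by
  induction l generalizing a with
  | leaf => simp [tfold]
  | node h t _ ih =>
    have h1 := ih (decStep h a)
    have h2 := decStep_size h a
    have h3 := T.size_pos h
    simp only [tfold, T.size]
    omega

theorem last_size (l a : T) : (tfold (fun h _ => h) l a).size ≤ l.size + a.size := by
  induction l generalizing a with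
  | leaf => simp [tfold]
  | node h t _ ih =>
    have h1 := ih h
    simp only [tfold, T.size]
    omega

theorem decT_polyTime : PolyTime decT := by
  have i := PolyTime.id
  have h1 : PolyTime₂ (tfold decStep) :=
    PolyTime₂.tfold decStep_polyTime (G := fun n => 4 * n) ((PolyB.const 4).mul PolyB.id)
      (fun a b h => by dsimp only; omega) (fun l a => by have := fold_size l a; omega)
  have h2 : PolyTime₂ (tfold (fun h _ => h)) :=
    PolyTime₂.tfold (g := fun h _ => h) PolyTime.left' (G := fun n => n) PolyB.id
      (fun a b h => h) last_size
  exact h2.comp (h1.comp i PolyTime.leaf) PolyTime.leaf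

theorem wordT_size (x : T) : (wordT x).size ≤ 3 * x.size := by
  induction x with
  | leaf => simp [wordT, T.size]
  | node l r ihl ihr =>
    have h1 := app_size (wordT l) (app (wordT r) (T.node (T.node T.leaf T.leaf) T.leaf))
    have h2 := app_size (wordT r) (T.node (T.node T.leaf T.leaf) T.leaf)
    have h3 : (T.node (T.node T.leaf T.leaf) T.leaf).size = 5 := rfl
    simp only [wordT, T.size] at *
    omega

theorem wordT_polyTime : PolyTime wordT := by
  have i := PolyTime.id
  exact PolyTime₂.binRec₁ (F := wordT) (c := T.node T.leaf T.leaf)
    (comb := fun w => app w.right.left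
      (app w.right.right (T.node (T.node T.leaf T.leaf) T.leaf)))
    (i.right.left.app (i.right.right.app (PolyTime.const _))) rfl (fun _ _ => rfl)
    (G := fun n => 3 * n) ((PolyB.const 3).mul PolyB.id) (fun a b h => by dsimp only; omega)
    wordT_size

/-! ### Letters -/

theorem word_length (x : T) : (word x).length = x.size := by
  induction x with
  | leaf => rfl
  | node a b iha ihb =>
    simp only [word, List.length_append, List.length_cons, List.length_nil, iha, ihb, T.size]
    omega

theorem nthT_eq (l : T) (k : ℕ) : nthT l k = l.toL.getD k T.leaf := by
  unfold nthT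
  induction k generalizing l with
  | zero =>
    cases l with
    | leaf => rfl
    | node a b => rfl
  | succ k ih =>
    rw [Function.iterate_succ_apply, ih]
    cases l with
    | leaf => simp [T.toL]
    | node a b => simp [T.toL]

theorem toL_app (x y : T) : (app x y).toL = x.toL ++ y.toL := by
  induction x with
  | leaf => rfl
  | node a b _ ih => simp only [app_node, T.toL, ih, List.cons_append]

/-- A letter as a tree. -/
def lt (b : Bool) : T := if b then T.node T.leaf T.leaf else T.leaf

theorem toL_wordT (x : T) : (wordT x).toL = (word x).map lt := by
  induction x with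
  | leaf => rfl
  | node a b iha ihb =>
    simp only [wordT, word, toL_app, iha, ihb, List.map_append]
    rfl

theorem digit_iff (x : T) (k : ℕ) : digit x k ↔ nthT (wordT x) k ≠ T.leaf := by
  rw [nthT_eq, toL_wordT]
  have h1 : (T.leaf : T) = lt false := rfl
  rw [h1, List.getD_map]
  unfold digit
  rcases (word x).getD k false with _ | _
  · simp
  · simp [lt]

/-! ### Decoding -/

/-- A step, on letters. -/
def st (b : Bool) (a : T) : T :=
  if b then T.node (T.node a.right.left a.left) a.right.right else T.node T.leaf a

theorem decStep_eq (h a : T) : decStep h a = st (decide (h.left ≠ T.leaf)) a := by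
  unfold decStep st
  by_cases hh : h.left = T.leaf
  · simp [hh]
  · simp [hh]

theorem fold_eq (l : List T) (a : T) :
    l.foldl (fun a h => decStep h a) a =
      (l.map fun h => decide (h.left ≠ T.leaf)).foldl (fun a b => st b a) a := by
  induction l generalizing a with
  | nil => rfl
  | cons h l ih =>
    simp only [List.foldl_cons, List.map_cons]
    rw [ih, decStep_eq]

theorem fold_word (x a : T) : (word x).foldl (fun a b => st b a) a = T.node x a := by
  induction x generalizing a with
  | leaf => rfl
  | node l r ihl ihr =>
    simp only [word, List.foldl_append, ihl, ihr]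
    rfl

/-- The bottom of the stack. -/
def bot (s : T) : T := tfold (fun h _ => h) s T.leaf

theorem bot_zeros (n : ℕ) (a : T) :
    bot ((List.replicate n false).foldl (fun a b => st b a) a) = bot a := by
  induction n generalizing a with
  | zero => rfl
  | succ n ih =>
    rw [List.replicate_succ, List.foldl_cons, ih]
    rfl

theorem decode (x e : T) (hx : x.size ≤ e.len)
    (hd : ∀ k < e.len, (nthT e k).left ≠ T.leaf ↔ digit x k) : decT e = x := by
  have hlen : e.toL.length = e.len := by
    have := encL_len e.toL
    rw [encL_toL] at this
    exact this.symm
  have hB : (e.toL.map fun h => decide (h.left ≠ T.leaf)) =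
      word x ++ List.replicate (e.len - x.size) false := by
    apply List.ext_getElem
    · rw [List.length_map, List.length_append, List.length_replicate, word_length, hlen]
      omega
    · intro k h1 h2
      rw [List.length_map, hlen] at h1
      have h3 := hd k h1
      rw [nthT_eq] at h3
      have h4 : e.toL.getD k T.leaf = e.toL[k]'(by rw [hlen]; exact h1) :=
        List.getD_eq_getElem _ _ (by rw [hlen]; exact h1)
      rw [h4] at h3
      rw [List.getElem_map, List.getElem_append]
      unfold digit at h3
      split_ifs with h5
      · have h6 : (word x).getD k false = (word x)[k]'h5 := List.getD_eq_getElem _ _ h5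
        rw [h6] at h3
        rcases hw : (word x)[k]'h5 with _ | _
        · rw [hw] at h3
          simpa using h3
        · rw [hw] at h3
          simpa using h3
      · have h6 : (word x).getD k false = false := List.getD_eq_default _ _ (by omega)
        rw [h6] at h3
        rw [List.getElem_replicate]
        simpa using h3
  have h7 : decT e = bot (tfold decStep e T.leaf) := rfl
  rw [h7, tfold_eq, fold_eq, hB, List.foldl_append, fold_word, bot_zeros]
  rfl

end Dec

theorem DEC_thm : DEC_stmt :=
  ⟨Dec.decT_polyTime, Dec.wordT_polyTime, Dec.word_length, Dec.digit_iff, Dec.decode⟩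

end Pool.Agent.S2L
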