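import Pool.Agent.RU.Defs

/-!
# Descriptions of computations whose records are decided by symmetric games

As in `Pool.Agent.RU.Defs` a computation of a program is described by a sequence of numbered
records. Here the records are not computed: each of their digits is decided, as in the complexity
class `S₂`, by a game between two players who send their messages simultaneously; a referee, who
works in polynomial time, reads the messages.
-/

namespace Pool.Agent.S2L

open Pool.Agent.H19 Pool.Agent.RU

/-- The word of a tree, in reverse Polish notation. -/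
def word : T → List Bool
  | T.leaf => [false]
  | T.node a b => word a ++ (word b ++ [true])

/-- The letter number `k` of the word of `x` is a one (beyond its end there are only zeros). -/
def digit (x : T) (k : ℕ) : Prop := (word x).getD k false = true

/-- Two players send messages `y` and `z`, trees of size at most `s`; the first one wins if
`R y z` holds. The game decides the assertion `b`: if `b` holds then the first player has a message
which wins against all messages of the second player, and if `b` does not hold then the second
player has a message which wins against all messages of the first player. -/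
def Symm (R : T → T → Prop) (s : ℕ) (b : Prop) : Prop :=
  (b → ∃ y : T, y.size ≤ s ∧ ∀ z : T, z.size ≤ s → R y z) ∧
  (¬ b → ∃ z : T, z.size ≤ s ∧ ∀ y : T, y.size ≤ s → ¬ R y z)

/-- The input of the referee for the digit number `k` of the record number `i`: `n`, `i` and `k` in
binary, the messages `y` and `z` of the players, and `s` in unary. -/
def inp (n i k : ℕ) (y z : T) (s : ℕ) : T :=
  T.node (T.node (bl n) (T.node (bl i) (bl k))) (T.node (T.node y z) (T.unary s))

/-- `ℓ` and `G` describe an accepting computation of the program `W` for `n`, with the bound `s`: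
the number `L` of records is given by `ℓ`, and there is an accepting computation of `W` with `L`
records of size at most `s`, all digits of which are decided by the games with the referee `G`. -/
def DescribesS2 (ℓ G : T → T) (n s L : ℕ) (W : Code) : Prop :=
  ℓ (T.node (bl n) (T.unary s)) = bl L ∧ ∃ r : ℕ → Rec, Accepting r L W ∧
    ∀ i < L, (r i).enc.size ≤ s ∧
      ∀ k < s, Symm (fun y z => G (inp n i k y z s) ≠ T.leaf) s (digit (r i).enc k)

/-- For large `n` there is an accepting computation of the program `W n` described by `L n` records
whose digits are decided by symmetric games in time `n ^ o(1)`. -/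
def S2LocallyDecidable (L : ℕ → ℕ) (W : ℕ → Code) : Prop :=
  ∃ (τ : ℕ → ℕ) (ℓ G : T → T) (n₀ : ℕ),
    Constructible τ ∧ Subpolynomial τ ∧ PolyTime ℓ ∧ PolyTime G ∧
      ∀ n ≥ n₀, DescribesS2 ℓ G n (τ n) (L n) (W n)

/-- The two sets of formulas have the same models. -/
def SameModels (Th Th' : Set Fm) : Prop :=
  ∀ (M : Type) (A : Str M), A.Models Th ↔ A.Models Th'

/-- For all `S` and `T₀` in the class, some theory with the models of `T₀`, given by a clocked
program `(c, κ)`, is such that the `S`-proofs of its reflection sentences for `n` are longer than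
every polynomial in `n`. -/
def LongProofs : Prop :=
  ∀ (μ : Fm) (_ : IsUniversal μ) (P : Code → ℕ → Fm) (_ : IsFormalisation μ P)
    (S T₀ : Set Fm) (_ : InClassT S) (_ : InClassT T₀),
    ∃ (c : Code) (κ : ℕ), HaltsWithin c κ ∧ SameModels (theory c κ) T₀ ∧
      ∀ k : ℕ, ∃ n₀ : ℕ, ∀ n ≥ n₀, ∀ π : List Step, IsProof S π (rfn (P c κ) μ n) →
        n ^ k < (encProof π).size

/-- The class `E`: sets of numbers `x` decidable in time polynomial in `x`, that is, in time
exponential in the length of `x`. -/
def InE (A : Set ℕ) : Prop :=
  ∃ f : T → T, PolyTime f ∧ ∀ x : ℕ, x ∈ A ↔ f (T.unary x) ≠ T.leaf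

/-- `t(m) = 2 ^ o(m)`, and `s = t(m)` can be decided in time polynomial in `m` and `s`. -/
def SubexpBound (t : ℕ → ℕ) : Prop :=
  (∃ f : T → T, PolyTime f ∧ ∀ m s : ℕ, f (T.node (T.unary m) (T.unary s)) ≠ T.leaf ↔ s = t m) ∧
    ∀ e : ℕ, ∃ m₀ : ℕ, ∀ m ≥ m₀, t m ^ e ≤ 2 ^ m

/-- The set `A` of numbers is in the class `S₂` for the time bound `t`: membership of a number `x`
of length `m` in `A` is decided by a symmetric game with messages of size at most `s = t m` and a
referee who works in time polynomial in `m` and `s`. -/
def InS2Time (t : ℕ → ℕ) (A : Set ℕ) : Prop :=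
  ∃ B : T → T, PolyTime B ∧ ∀ x s : ℕ, s = t x.size →
    Symm (fun y z => B (T.node (bl x) (T.node (T.node y z) (T.unary s))) ≠ T.leaf) s (x ∈ A)

/-- No constructions by records decided by symmetric games. -/
def MainA : Prop :=
  ∀ (μ : Fm) (_ : IsUniversal μ) (P : Code → ℕ → Fm) (_ : IsFormalisation μ P)
    (S T₀ : Set Fm) (_ : InClassT S) (_ : InClassT T₀) (V : Code) (_ : SoundChecker S V),
    ∃ (c : Code) (κ : ℕ), HaltsWithin c κ ∧ SameModels (theory c κ) T₀ ∧
      (¬ ∃ (L : ℕ → ℕ) (k n₀ : ℕ), (∀ n ≥ n₀, L n ≤ n ^ k) ∧
        S2LocallyDecidable L (fun n => check V (rfn (P c κ) μ n))) ∧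
      ((¬ ∃ L : ℕ → ℕ, S2LocallyDecidable L (fun n => check V (rfn (P c κ) μ n))) ∨
        LongProofs)

/-- The dichotomy: the reflection conjecture holds, or E is not contained in S₂TIME(2^o(n)). -/
def MainB : Prop :=
  ∀ (μ : Fm) (_ : IsUniversal μ) (P : Code → ℕ → Fm) (_ : IsFormalisation μ P),
    ReflectionConjecture μ P ∨
      ∃ A : Set ℕ, InE A ∧ ∀ t : ℕ → ℕ, SubexpBound t → ¬ InS2Time t A

end Pool.Agent.S2L
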