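import Pool.Agent.S2L.Stmts

/-!
# No constructions by records decided by symmetric games
-/

namespace Pool.Agent.S2L

open Pool.Agent.H19 Pool.Agent.H19.T Pool.Agent.RU Pool.Agent.PO

namespace FinalA

theorem nthT_encL : ∀ (l : List T) (k : ℕ) (h : k < l.length), nthT (encL l) k = l[k]
  | [], k, h => absurd h (by simp)
  | a :: l, 0, _ => rfl
  | a :: l, k + 1, h => by
    have h' : k < l.length := by simpa using h
    have ih := nthT_encL l k h'
    unfold nthT at ih ⊢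
    rw [Function.iterate_succ_apply]
    exact ih

/-- A list of records of an accepting computation. -/
theorem descL_of {r : ℕ → Rec} {L s : ℕ} {W : Code} (h : Accepting r L W)
    (hs : ∀ i < L, (r i).enc.size ≤ s) :
    ∃ y : T, DescL y W.enc ∧ y.size ≤ L * (s + 1) + 1 := by
  obtain ⟨hL, hok, hfin⟩ := h
  obtain ⟨l, hl⟩ : ∃ l, l = (List.range L).map fun i => (r i).enc := ⟨_, rfl⟩
  have hlen : l.length = L := by rw [hl]; simp
  have hyl : (encL l).len = L := by rw [encL_len, hlen]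
  have hn : ∀ k < L, nthT (encL l) k = (r k).enc := by
    intro k hk
    rw [nthT_encL l k (by omega)]
    simp [hl]
  refine ⟨encL l, ⟨by omega, fun i hi => ?_⟩, ?_⟩
  · rw [hyl] at hi
    rw [hyl]
    have hR : ∀ k ≤ i, nthT (encL l) k = (r k).enc := fun k hk => hn k (by omega)
    refine ⟨check_complete hR fun k hk => hok k (by omega), ?_⟩
    by_cases h1 : i + 1 = L
    · right
      obtain ⟨x, y', s', t, a, b, h6, h7⟩ := hfin
      have h8 : L - 1 = i := by omega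
      rw [h8] at h6
      exact final_complete hR (hok i hi) h6 h7
    · exact Or.inl h1
  · have h1 : ∀ a ∈ l, a.size ≤ s := by
      intro a ha
      rw [hl, List.mem_map] at ha
      obtain ⟨i, hi, rfl⟩ := ha
      exact hs i (List.mem_range.1 hi)
    have h2 := encL_size_le h1
    rw [hlen] at h2
    exact h2

theorem sameModels_of_eq {Th Th' : Set Fm} (h : Th = Th') : SameModels Th Th' := by
  subst h
  exact fun _ _ => Iff.rfl

end FinalA

open FinalA

theorem mainA_of (h : CORE_stmt) : MainA := by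
  intro μ hμ P hP S T₀ hS hT₀ V hV
  by_cases hlong : LongProofs
  · -- the unconditional part
    obtain ⟨c, κ, hh, hth, hcore⟩ := h μ hμ P hP S T₀ hS hT₀ V hV μ hμ P hP S T₀ hS hT₀ V hV
    by_cases hloc : ∃ (L : ℕ → ℕ) (k n₀ : ℕ), (∀ n ≥ n₀, L n ≤ n ^ k) ∧
        S2LocallyDecidable L (fun n => check V (rfn (P c κ) μ n))
    swap
    · exact ⟨c, κ, hh, sameModels_of_eq hth, hloc, Or.inr hlong⟩
    obtain ⟨L, _, _, _, τ, ℓ, G, n₀, hτc, hτ, hℓ, hG, hn₀⟩ := hloc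
    obtain ⟨c', κ', hh', hth', j, C, hC⟩ := hcore τ L ℓ G hτc hℓ hG ⟨n₀, hn₀⟩
    refine ⟨c', κ', hh', hth', ?_, Or.inr hlong⟩
    rintro ⟨L', k, n₁, hL', τ', ℓ', G', n₂, _, hτ', _, _, hn₂⟩
    obtain ⟨n₃, hn₃⟩ := hτ' 1
    obtain ⟨m₀, hm₀⟩ := choose_N hτ j (k + 2)
    obtain ⟨m, hm⟩ : ∃ m, m = n₁ + n₂ + n₃ + m₀ + C + 6 * C + 1 := ⟨_, rfl⟩
    have hm1 := hm₀ m (by omega)
    have hmN : m ≤ m ^ (k + 2 + 1) := Nat.le_self_pow (by omega) m
    obtain ⟨N, hN⟩ : ∃ N, N = m ^ (k + 2 + 1) := ⟨_, rfl⟩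
    rw [← hN] at hm1 hmN
    obtain ⟨X, hX⟩ : ∃ X, X = (bl N).size + 2 * τ N + 10 := ⟨_, rfl⟩
    rw [← hX] at hm1
    have hXm : X ≤ m := (Nat.le_self_pow (by omega) X).trans hm1
    have hXj : X ^ j ≤ m := (Nat.pow_le_pow_right (by omega) (by omega)).trans hm1
    have hXj' : ((bl N).size + 2 * τ N + 10) ^ j ≤ m := by rw [← hX]; exact hXj
    obtain ⟨_, r, hacc, hr⟩ := hn₂ m (by omega)
    obtain ⟨y, hdesc, hy⟩ := descL_of hacc fun i hi => (hr i hi).1
    have hlt := (hC N m (by omega) (by omega) hXj').1 y hdesc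
    -- the estimate
    have hL1 := hL' m (by omega)
    have hτ1 := hn₃ m (by omega)
    rw [pow_one] at hτ1
    have hm1' : 1 ≤ m := by omega
    have hmk : 1 ≤ m ^ k := Nat.one_le_pow _ _ hm1'
    have hy2 : y.size ≤ m ^ k * (m + 1) + 1 :=
      hy.trans (Nat.add_le_add_right (Nat.mul_le_mul hL1 (by omega)) 1)
    have hmk1 : m ^ k ≤ m ^ (k + 1) := Nat.pow_le_pow_right hm1' (by omega)
    have hmk2 : m ≤ m ^ (k + 1) := Nat.le_self_pow (by omega) m
    have e1 : m ^ k * (m + 1) = m ^ (k + 1) + m ^ k := by rw [pow_succ]; ring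
    have hsum : y.size + m + (bl N).size + τ N ≤ 6 * m ^ (k + 1) := by omega
    have hNM : N = m * m * m ^ (k + 1) := by
      rw [hN]
      ring
    have h1 : C * (y.size + m + (bl N).size + τ N) ≤ C * (6 * m ^ (k + 1)) :=
      Nat.mul_le_mul_left _ hsum
    have h2 : C * (6 * m ^ (k + 1)) ≤ m * m * m ^ (k + 1) := by
      rw [← mul_assoc]
      refine Nat.mul_le_mul_right _ ?_
      calc C * 6 ≤ m := by omega
        _ ≤ m * m := Nat.le_mul_of_pos_left _ hm1'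
    omega
  · -- the dichotomy
    have hex := hlong
    unfold LongProofs at hex
    push Not at hex
    obtain ⟨μ₂, hμ₂, P₂, hP₂, S₂, T₂, hS₂, hT₂, hbad⟩ := hex
    obtain ⟨c, κ, hh, hth, hcore⟩ := h μ hμ P hP S T₀ hS hT₀ V hV μ₂ hμ₂ P₂ hP₂ S₂ T₂ hS₂ hT₂
      Code.leaf (soundChecker_leaf S₂)
    have hloc : ¬ ∃ L : ℕ → ℕ, S2LocallyDecidable L (fun n => check V (rfn (P c κ) μ n)) := by
      rintro ⟨L, τ, ℓ, G, n₀, hτc, hτ, hℓ, hG, hn₀⟩
      obtain ⟨c', κ', hh', hth', j, C, hC⟩ := hcore τ L ℓ G hτc hℓ hG ⟨n₀, hn₀⟩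
      obtain ⟨k, hk⟩ := hbad c' κ' hh' hth'
      obtain ⟨m₀, hm₀⟩ := choose_N hτ j (k + 1)
      obtain ⟨m, hm, π, hπ, hle⟩ := hk (m₀ + 4 * C + 1)
      have hm1 := hm₀ m (by omega)
      have hmN : m ≤ m ^ (k + 1 + 1) := Nat.le_self_pow (by omega) m
      obtain ⟨N, hN⟩ : ∃ N, N = m ^ (k + 1 + 1) := ⟨_, rfl⟩
      rw [← hN] at hm1 hmN
      obtain ⟨X, hX⟩ : ∃ X, X = (bl N).size + 2 * τ N + 10 := ⟨_, rfl⟩
      rw [← hX] at hm1
      have hXm : X ≤ m := (Nat.le_self_pow (by omega) X).trans hm1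
      have hXj : X ^ j ≤ m := (Nat.pow_le_pow_right (by omega) (by omega)).trans hm1
      have hXj' : ((bl N).size + 2 * τ N + 10) ^ j ≤ m := by rw [← hX]; exact hXj
      have hlt := (hC N m (by omega) (by omega) hXj').2 π hπ
      have hm1' : 1 ≤ m := by omega
      have hmk1 : m ^ k ≤ m ^ (k + 1) := Nat.pow_le_pow_right hm1' (by omega)
      have hmk2 : m ≤ m ^ (k + 1) := Nat.le_self_pow (by omega) m
      have hNM : N = m * m ^ (k + 1) := by rw [hN]; ring
      have h1 : C * ((encProof π).size + m + (bl N).size + τ N) ≤ C * (4 * m ^ (k + 1)) :=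
        Nat.mul_le_mul_left _ (by omega)
      have h2 : C * (4 * m ^ (k + 1)) ≤ m * m ^ (k + 1) := by
        calc C * (4 * m ^ (k + 1)) = (4 * C) * m ^ (k + 1) := by ring
          _ ≤ m * m ^ (k + 1) := Nat.mul_le_mul_right _ (by omega)
      omega
    exact ⟨c, κ, hh, sameModels_of_eq hth, fun ⟨L, _, _, _, h⟩ => hloc ⟨L, h⟩, Or.inl hloc⟩

end Pool.Agent.S2L
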