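import Pool.Agent.S2L.Stmts

/-!
# From games for a set of numbers to records decided by games
-/

namespace Pool.Agent.S2L.Prot

open Pool.Agent.H19 Pool.Agent.H19.T Pool.Agent.RU Pool.Agent.PO Pool.Agent.S2L

theorem two_pow_size {n : ℕ} (h : 1 ≤ n) : 2 ^ n.size ≤ 2 * n := by
  obtain ⟨a, ha⟩ : ∃ a, n.size = a + 1 := by
    refine ⟨n.size - 1, ?_⟩
    have := Nat.size_pos.2 h
    omega
  have h1 : 2 ^ a ≤ n := by
    have : a < n.size := by omega
    exact Nat.lt_size.1 this
  rw [ha, pow_succ]
  omega

theorem subpoly {t m : ℕ → ℕ} {K : ℕ} (ht : ∀ e : ℕ, ∃ m₀ : ℕ, ∀ m ≥ m₀, t m ^ e ≤ 2 ^ m)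
    (hm : ∀ a, m a ≤ K * (a + 1)) : Subpolynomial (fun n => t (m n.size)) := by
  intro e
  obtain ⟨m₀, hm₀⟩ := ht (e * (2 * (K + 1)))
  obtain ⟨Mx, hMx⟩ : ∃ Mx, ∀ a < m₀, t a ≤ Mx :=
    ⟨(Finset.range m₀).sup t, fun a ha => Finset.le_sup (f := t) (Finset.mem_range.2 ha)⟩
  refine ⟨4 + Mx ^ e, fun n hn => ?_⟩
  show t (m n.size) ^ e ≤ n
  by_cases h : m n.size < m₀
  · have h1 := Nat.pow_le_pow_left (hMx _ h) e
    omega
  · have h1 := hm₀ (m n.size) (by omega)
    have hn4 : 4 ≤ n := by omega
    have h2 : 2 ^ m n.size ≤ (n * n) ^ (K + 1) := by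
      have h3 : m n.size ≤ (n.size + 1) * (K + 1) := by
        have := hm n.size
        nlinarith
      have h4 : 2 ^ (n.size + 1) ≤ n * n := by
        have h5 := two_pow_size (n := n) (by omega)
        rw [pow_succ]
        nlinarith
      calc 2 ^ m n.size ≤ 2 ^ ((n.size + 1) * (K + 1)) := Nat.pow_le_pow_right (by omega) h3
        _ = (2 ^ (n.size + 1)) ^ (K + 1) := pow_mul _ _ _
        _ ≤ (n * n) ^ (K + 1) := Nat.pow_le_pow_left h4 _
    have h3 : (t (m n.size) ^ e) ^ (2 * (K + 1)) ≤ n ^ (2 * (K + 1)) := by
      rw [← pow_mul]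
      refine h1.trans (h2.trans (le_of_eq ?_))
      rw [← pow_two, ← pow_mul]
    exact (Nat.pow_le_pow_iff_left (by omega)).1 h3

theorem PROT_thm (hDEC : DEC_stmt) : PROT_stmt := by
  intro rec L C k cod m K A hC hsz hL0 t ht hA
  obtain ⟨_, hcod, hm, hmK, hc⟩ := hC
  obtain ⟨⟨f, hf, hft⟩, hte⟩ := ht
  obtain ⟨B, hB, hBA⟩ := hA
  have i := PolyTime.id
  -- the lengths
  let G : T → T := fun v =>
    if C * (v.left.left.len + 1) ≤ bn v.left.right.right ∨
        v.right.right.len - C * (v.left.left.len + 1) + 1 ≤ v.right.left.left.size then T.leaf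
    else if v.right.right.len - C * (v.left.left.len + 1) + 1 ≤ v.right.left.right.size then
      T.node T.leaf T.leaf
    else B (T.node (bl (cod (bn v.left.left) (bn v.left.right.left) (bn v.left.right.right)))
      (T.node (T.node v.right.left.left v.right.left.right)
        (T.unary (v.right.right.len - C * (v.left.left.len + 1)))))
  have hCn : PolyNat (fun v : T => C * (v.left.left.len + 1)) :=
    (PolyNat.const C).mul ((PolyNat.len i.left.left).add (PolyNat.const 1))
  have hs' : PolyNat (fun v : T => v.right.right.len - C * (v.left.left.len + 1)) :=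
    (PolyNat.len i.right.right).sub hCn
  have hG : PolyTime G := by
    have g1 : PolyTime (fun v : T =>
        B (T.node (bl (cod (bn v.left.left) (bn v.left.right.left) (bn v.left.right.right)))
          (T.node (T.node v.right.left.left v.right.left.right)
            (T.unary (v.right.right.len - C * (v.left.left.len + 1)))))) :=
      hB.comp (PolyTime.node (hcod.comp i.left) (PolyTime.node (PolyTime.node i.right.left.left
        i.right.left.right) hs'.unary))
    have g2 := PolyTime.ifP (PolyDec.leN (hs'.add (PolyNat.const 1)).toN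
      (PolyNat.size i.right.left.right).toN) (PolyTime.const (T.node T.leaf T.leaf)) g1
    have g3 := PolyTime.ifP (PolyDec.or (PolyDec.leN hCn.toN
      (canon_polyTime.comp i.left.right.right))
      (PolyDec.leN (hs'.add (PolyNat.const 1)).toN (PolyNat.size i.right.left.left).toN))
      PolyTime.leaf g2
    refine g3.congr fun v => ?_
    show _ = G v
    simp only [G]
    split_ifs <;> rfl
  refine ⟨fun n => t (m n.size) + C * (n.size + 1), G, ?_, ?_, hG, ?_, ?_⟩
  · -- constructible
    have hD : PolyDec (fun z : T => C * (z.left.len + 1) ≤ z.right.len ∧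
        f (T.node (T.unary (m z.left.len)) (T.unary (z.right.len - C * (z.left.len + 1)))) ≠
          T.leaf) := by
      have h1 : PolyNat (fun z : T => C * (z.left.len + 1)) :=
        (PolyNat.const C).mul ((PolyNat.len i.left).add (PolyNat.const 1))
      refine PolyDec.and (PolyDec.leN h1.toN (PolyNat.len i.right).toN) (PolyDec.ne_leaf ?_)
      exact hf.comp (PolyTime.node (hm.comp i.left).unary ((PolyNat.len i.right).sub h1).unary)
    obtain ⟨g, hg, hgD⟩ := hD
    refine ⟨g, hg, fun n s => ?_⟩
    rw [← hgD]
    simp only [T.left_node, T.right_node, T.len_unary, bl_len, hft]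
    omega
  · exact (subpoly hte hmK).add ((Subpolynomial.const C).mul
      (Subpolynomial.size.add (Subpolynomial.const 1)))
  · intro n
    show C * (n.size + 1) ≤ t (m n.size) + C * (n.size + 1)
    omega
  · intro n j hj d hd
    show Symm (fun y z => G (inp n j d y z (t (m n.size) + C * (n.size + 1))) ≠ T.leaf)
      (t (m n.size) + C * (n.size + 1)) (digit (rec n (min j (L n - 1))).enc d)
    have hd' : d < t (m n.size) + C * (n.size + 1) := hd
    have hval : ∀ y z : T, G (inp n j d y z (t (m n.size) + C * (n.size + 1))) =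
        if C * (n.size + 1) ≤ d ∨ t (m n.size) + 1 ≤ y.size then T.leaf
        else if t (m n.size) + 1 ≤ z.size then T.node T.leaf T.leaf
        else B (T.node (bl (cod n j d)) (T.node (T.node y z) (T.unary (t (m n.size))))) := by
      intro y z
      simp only [G, inp, T.left_node, T.right_node, T.len_unary, bl_len, bn_bl,
        Nat.add_sub_cancel]
    by_cases hdC : C * (n.size + 1) ≤ d
    · have h0 : ¬ digit (rec n (min j (L n - 1))).enc d := by
        have h1 := hsz n (min j (L n - 1)) (by
          have := hL0 n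
          omega)
        unfold digit
        rw [List.getD_eq_default _ _ (by rw [hDEC.2.2.1]; omega)]
        simp
      refine ⟨fun h => absurd h h0, fun _ => ⟨T.leaf, ?_, fun y _ => ?_⟩⟩
      · simp only [T.size]
        omega
      · show ¬ (G (inp n j d y T.leaf (t (m n.size) + C * (n.size + 1))) ≠ T.leaf)
        rw [hval, if_pos (Or.inl hdC)]
        simp
    · obtain ⟨e1, e2⟩ := hc n j d hj (by omega)
      obtain ⟨b1, b2⟩ := hBA (cod n j d) (t (m n.size)) (by rw [e1])
      constructor
      · intro hb
        obtain ⟨y, hy, hyz⟩ := b1 (e2.2 hb)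
        refine ⟨y, by omega, fun z _ => ?_⟩
        show G (inp n j d y z (t (m n.size) + C * (n.size + 1))) ≠ T.leaf
        rw [hval, if_neg (by omega)]
        by_cases hz : t (m n.size) + 1 ≤ z.size
        · rw [if_pos hz]
          simp
        · rw [if_neg hz]
          exact hyz z (by omega)
      · intro hb
        obtain ⟨z, hz, hyz⟩ := b2 (fun h => hb (e2.1 h))
        refine ⟨z, by omega, fun y _ => ?_⟩
        show ¬ (G (inp n j d y z (t (m n.size) + C * (n.size + 1))) ≠ T.leaf)
        rw [hval]
        by_cases hy : t (m n.size) + 1 ≤ y.size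
        · rw [if_pos (Or.inr hy)]
          simp
        · rw [if_neg (by omega), if_neg (by omega)]
          exact hyz y (by omega)

end Pool.Agent.S2L.Prot
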