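import Pool.Agent.S2L.Stmts

/-!
# The relation is decidable
-/

namespace Pool.Agent.S2L

open Pool.Agent.H19 Pool.Agent.H19.T Pool.Agent.RU Pool.Agent.PO

namespace Rel

/-! ### Tools -/

/-- The minimum of a binary and a unary number, in unary. -/
def mStep (s : T) : T :=
  T.node s.left (if s.right.len + 1 ≤ bn s.left then T.node T.leaf s.right else s.right)

theorem mStep_iterate (a i : ℕ) :
    mStep^[i] (T.node (bl a) T.leaf) = T.node (bl a) (T.unary (min a i)) := by
  induction i with
  | zero => simp [T.unary]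
  | succ i ih =>
    rw [Function.iterate_succ_apply', ih, mStep]
    simp only [T.left_node, T.right_node, T.len_unary, bn_bl]
    congr 1
    split_ifs with h
    · have h1 : min a (i + 1) = min a i + 1 := by omega
      rw [h1]
      rfl
    · have h1 : min a (i + 1) = min a i := by omega
      rw [h1]

theorem polyNat_min {f g : T → ℕ} (hf : PolyN f) (hg : PolyNat g) :
    PolyNat (fun x => min (f x) (g x)) := by
  classical
  have i := PolyTime.id
  have hstep : PolyTime mStep := by
    refine (i.left.node (PolyTime.ifP (PolyDec.leN (f := fun s : T => s.right.len + 1)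
      ((PolyNat.len i.right).add (PolyNat.const 1)).toN (polyN_bn i.left))
        (PolyTime.leaf.node i.right) i.right)).congr fun s => ?_
    unfold mStep
    congr 1
    split_ifs <;> rfl
  have hs : PolyTime (fun x => T.node (bl (f x)) T.leaf) := PolyTime.node hf PolyTime.leaf
  have hit := PolyTime.iterate hstep hg.unary hs (by
    obtain ⟨a, ha⟩ := PolyTime.size_bound hf
    obtain ⟨b, hb⟩ := PolyTime.size_bound hg
    obtain ⟨k, hk⟩ : PolyB (fun n => (n + 2) ^ a + (n + 2) ^ b + 5) :=
      (PolyB.add ⟨a, fun _ => le_rfl⟩ ⟨b, fun _ => le_rfl⟩).add (PolyB.const 5)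
    refine ⟨k, fun x i hi => le_trans ?_ (hk x.size)⟩
    rw [T.len_unary] at hi
    rw [mStep_iterate]
    have h1 := ha x
    have h2 := hb x
    have h3 : min (f x) i ≤ i := min_le_right _ _
    simp only [T.size, T.size_unary] at h1 h2 ⊢
    omega)
  refine (PolyNat.len hit.right).congr fun x => ?_
  beta_reduce
  rw [T.len_unary, mStep_iterate, T.right_node, T.len_unary]

theorem all_list {Q : T → ℕ → Prop} : ∀ (ks : List (T → ℕ)),
    (∀ k ∈ ks, PolyDec (fun z => Q z (k z))) →
    PolyDec (fun z => ∀ n ∈ ks.map (fun k => k z), Q z n)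
  | [], _ => (PolyDec.const True).congr fun z => by simp
  | k :: ks, h => by
    refine ((h k List.mem_cons_self).and
      (all_list ks fun k' hk' => h k' (List.mem_cons_of_mem _ hk'))).congr fun z => ?_
    rw [List.map_cons, List.forall_mem_cons]

theorem ex_list (hALL : ALL_stmt) {Q : T → Prop} {l : T → T} (hQ : PolyDec Q) (hl : PolyTime l) :
    PolyDec (fun z => ∃ h ∈ (l z).toL, Q (T.node z h)) := by
  refine (hALL (fun w => ¬ Q w) l hQ.not hl).not.congr fun z => ?_
  push Not
  rfl

theorem ex_lt {P : T → Prop} (hP : PolyDec P) {n : T → ℕ} (hn : PolyNat n) :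
    PolyDec (fun x => ∃ i < n x, P (T.node x (T.unary i))) := by
  refine (PolyDec.ball hP.not hn).not.congr fun z => ?_
  push Not
  rfl

/-! ### Data -/

theorem zn_poly {Z : T → T} (h : PolyTime Z) : PolyN (fun z => zn (Z z)) := polyN_bn h.left.left

theorem zsz_poly {Z : T → T} (h : PolyTime Z) : PolyNat (fun z => zsz (Z z)) :=
  PolyNat.len h.left.right

theorem zi_poly {Z : T → T} (h : PolyTime Z) : PolyN (fun z => zi (Z z)) := polyN_bn h.right.left

theorem pl_poly {Z : T → T} (h : PolyTime Z) : PolyTime (fun z => pl (Z z)) := h.right.right.left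

theorem bud_poly {Z : T → T} (h : PolyTime Z) : PolyTime (fun z => bud (Z z)) :=
  h.right.right.right

theorem zl_poly {Z : T → T} (h : PolyTime Z) : PolyTime (fun z => zl (zn (Z z)) (zsz (Z z))) :=
  PolyTime.node (zn_poly h) (zsz_poly h).unary

theorem OL_poly (hS : SIMF_stmt) {D Z : T → T} (hD : PolyTime D) (hZ : PolyTime Z) :
    PolyTime (fun z => OL (D z) (Z z)) :=
  hS.1.comp (hD.left.left.right.node ((zl_poly hZ).node (bud_poly hZ)))

theorem nL_poly (hS : SIMF_stmt) {D Z : T → T} (hD : PolyTime D) (hZ : PolyTime Z) :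
    PolyN (fun z => nL (D z) (Z z)) := polyN_bn (OL_poly hS hD hZ).right

theorem okL_dec (hS : SIMF_stmt) {D Z : T → T} (hD : PolyTime D) (hZ : PolyTime Z) :
    PolyDec (fun z => okL (D z) (Z z)) :=
  (PolyDec.ne_leaf (OL_poly hS hD hZ)).and
    (((PolyDec.eqN (nL_poly hS hD hZ) (PolyN.const 0)).not).and
      (PolyDec.le (PolyNat.size (OL_poly hS hD hZ).right) (PolyNat.len (bud_poly hZ))))

theorem Win_dec (hS : SIMF_stmt) {D Z y x : T → T} {j k : T → ℕ} (hD : PolyTime D)
    (hZ : PolyTime Z) (hj : PolyN j) (hk : PolyN k) (hy : PolyTime y) (hx : PolyTime x) :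
    PolyDec (fun z => Win (D z) (Z z) (j z) (k z) (y z) (x z)) := by
  have h1 : PolyTime (fun z => inp (zn (Z z)) (j z) (k z) (y z) (x z) (zsz (Z z))) :=
    PolyTime.node (PolyTime.node (zn_poly hZ) (PolyTime.node hj hk))
      (PolyTime.node (hy.node hx) (zsz_poly hZ).unary)
  exact PolyDec.ne_leaf (hS.1.comp (hD.left.left.left.node (h1.node (bud_poly hZ)))).right

theorem Ref_dec (hALL : ALL_stmt) (hS : SIMF_stmt) {D Z c x : T → T} {j k : T → ℕ}
    (hD : PolyTime D) (hZ : PolyTime Z) (hj : PolyN j) (hk : PolyN k) (hc : PolyTime c)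
    (hx : PolyTime x) : PolyDec (fun z => Ref (D z) (Z z) (j z) (k z) (c z) (x z)) := by
  have i := PolyTime.id
  have h1 := Win_dec hS (hD.comp i.left) (hZ.comp i.left) (hj.comp i.left) (hk.comp i.left)
    i.right (hx.comp i.left)
  have h2 := Win_dec hS (hD.comp i.left) (hZ.comp i.left) (hj.comp i.left) (hk.comp i.left)
    (hx.comp i.left) i.right
  have h3 : PolyDec (fun w : T => w.right.size ≤ zsz (Z w.left)) :=
    PolyDec.le (PolyNat.size i.right) ((zsz_poly hZ).comp i.left)
  have h4 := hALL _ (fun z => (c z).right) (h3.not.or h1.not) hc.right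
  have h5 := hALL _ (fun z => (c z).right) (h3.not.or h2) hc.right
  refine (((PolyDec.ne_leaf hc.left).and h4).or ((PolyDec.eq_leaf hc.left).and h5)).congr
    fun z => ?_
  simp only [T.left_node, T.right_node, ← imp_iff_not_or]
  rfl

theorem SomeRef_dec (hLK : LK_stmt) (hALL : ALL_stmt) (hS : SIMF_stmt) {D Z u x : T → T}
    (hD : PolyTime D) (hZ : PolyTime Z) (hu : PolyTime u) (hx : PolyTime x) :
    PolyDec (fun z => SomeRef (D z) (Z z) (u z) (x z)) := by
  have i := PolyTime.id
  have hc : PolyTime (fun w : T => nthT w.left.right.right w.right.len) :=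
    hLK.2.1 _ _ i.left.right.right (PolyNat.len i.right)
  have h1 := Ref_dec hALL hS (hD.comp i.left.left) (hZ.comp i.left.left)
    (polyN_bn i.left.right.left) (PolyNat.len i.right).toN hc (hx.comp i.left.left)
  have h2 := ex_lt h1 (n := fun w : T => zsz (Z w.left)) ((zsz_poly hZ).comp i.left)
  have h3 : PolyDec (fun w : T => bn w.right.left ≤ zi (Z w.left)) :=
    PolyDec.leN (polyN_bn i.right.left) ((zi_poly hZ).comp i.left)
  refine (ex_list hALL (h3.and h2) hu).congr fun z => ?_
  simp only [T.left_node, T.right_node, T.len_unary]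
  rfl

/-- The records, as a function of `node z (bl k)`. -/
def GR (u : T → T) (i : T → ℕ) (w : T) : T :=
  if bn w.right ≤ i w.left then decT (lk (u w.left) (bn w.right)) else T.leaf

theorem GR_eq (u : T → T) (i : T → ℕ) (z : T) (k : ℕ) :
    GR u i (T.node z (bl k)) = RL (u z) (i z) k := by
  unfold GR RL
  simp only [T.left_node, T.right_node, bn_bl]

theorem GR_poly (hLK : LK_stmt) (hDEC : DEC_stmt) {u : T → T} {i : T → ℕ} (hu : PolyTime u)
    (hi : PolyN i) : PolyTime (GR u i) := by
  have id := PolyTime.id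
  refine (PolyTime.ifP (PolyDec.leN (polyN_bn id.right) (hi.comp id.left))
    (hDEC.1.comp (hLK.1 _ _ (hu.comp id.left) (polyN_bn id.right))) PolyTime.leaf).congr
      fun w => ?_
  unfold GR
  split_ifs <;> rfl

theorem RL_poly (hLK : LK_stmt) (hDEC : DEC_stmt) {u : T → T} {i k : T → ℕ} (hu : PolyTime u)
    (hi : PolyN i) (hk : PolyN k) : PolyTime (fun z => RL (u z) (i z) (k z)) :=
  (rec_polyTime (GR_poly hLK hDEC hu hi) hk).congr fun z => GR_eq u i z (k z)

theorem HasKey_dec (hALL : ALL_stmt) {u : T → T} {k : T → ℕ} (hu : PolyTime u) (hk : PolyN k) :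
    PolyDec (fun z => HasKey (u z) (k z)) := by
  have i := PolyTime.id
  have hk' : PolyTime (fun z => bl (k z)) := hk
  have h1 : PolyDec (fun w : T => w.right.left = bl (k w.left)) :=
    PolyDec.eq i.right.left (hk'.comp i.left)
  refine (ex_list hALL h1 hu).congr fun z => ?_
  simp only [T.left_node, T.right_node]
  rfl

theorem Cov_dec (hLK : LK_stmt) (hDEC : DEC_stmt) (hALL : ALL_stmt) {u : T → T} {s i : T → ℕ}
    (hu : PolyTime u) (hs : PolyNat s) (hi : PolyN i) :
    PolyDec (fun z => Cov (u z) (s z) (i z)) := by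
  have hR : ∀ k : T → ℕ, PolyN k → PolyTime (fun z => RL (u z) (i z) (k z)) :=
    fun k hk => RL_poly hLK hDEC hu hi hk
  have hQ : ∀ k : T → ℕ, PolyN k →
      PolyDec (fun z => k z ≤ i z → HasKey (u z) (k z) ∧ (lk (u z) (k z)).len = s z) := by
    intro k hk
    refine ((PolyDec.leN hk hi).not.or ((HasKey_dec hALL hu hk).and
      (PolyDec.eqN (PolyNat.len (hLK.1 _ _ hu hk)).toN hs.toN))).congr fun z => ?_
    rw [← imp_iff_not_or]
  have hρ := hR i hi
  have h := all_list (Q := fun z n => n ≤ i z → HasKey (u z) n ∧ (lk (u z) n).len = s z)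
    [i, fun z => fa (RL (u z) (i z) (i z)), fun z => fb (RL (u z) (i z) (i z)),
      fun z => fx (RL (u z) (i z) (i z)), fun z => fy (RL (u z) (i z) (i z)),
      fun z => fs (RL (u z) (i z) (i z)), fun z => ft (RL (u z) (i z) (i z)),
      fun z => fy (RL (u z) (i z) (fs (RL (u z) (i z) (i z)))),
      fun z => fa (RL (u z) (i z) (fx (RL (u z) (i z) (i z))))] (by
    intro k hk
    simp only [List.mem_cons, List.not_mem_nil, or_false] at hk
    rcases hk with rfl | rfl | rfl | rfl | rfl | rfl | rfl | rfl | rfl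
    · exact hQ _ hi
    · exact hQ _ (fa_poly hρ)
    · exact hQ _ (fb_poly hρ)
    · exact hQ _ (fx_poly hρ)
    · exact hQ _ (fy_poly hρ)
    · exact hQ _ (fs_poly hρ)
    · exact hQ _ (ft_poly hρ)
    · exact hQ _ (fy_poly (hR _ (fs_poly hρ)))
    · exact hQ _ (fa_poly (hR _ (fx_poly hρ))))
  exact h

theorem TX_poly (μ : Fm) {fP : T → T} (hfP : PolyTime fP) (V : T) {D : T → T} {N : T → ℕ}
    (hD : PolyTime D) (hN : PolyN N) : PolyTime (fun z => TX μ fP V (D z) (N z)) :=
  WE_poly V (rfn_polyTimeN μ (hfP.comp hD.right) hN)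

theorem FR_dec (hLK : LK_stmt) (hDEC : DEC_stmt) (hALL : ALL_stmt) (hS : SIMF_stmt) (μ : Fm)
    {fP : T → T} (hfP : PolyTime fP) (V : T) :
    PolyDec (fun z => FR μ fP V z.left z.right) := by
  have i := PolyTime.id
  have hD : PolyTime (fun z : T => z.left.left) := i.left.left
  have hZ : PolyTime (fun z : T => z.left.right) := i.left.right
  have hzi := zi_poly hZ
  have hnL := nL_poly hS hD hZ
  have hG := GR_poly hLK hDEC (pl_poly hZ) hzi
  have hC : PolyDec (fun z : T => CheckT (RL (pl z.left.right) (zi z.left.right))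
      (zi z.left.right)) := by
    refine (CheckT_dec hG hzi).congr fun z => ?_
    have h1 : (fun k => GR (fun z : T => pl z.left.right) (fun z : T => zi z.left.right)
        (T.node z (bl k))) = RL (pl z.left.right) (zi z.left.right) :=
      funext fun k => GR_eq _ _ z k
    rw [h1]
  have hF : PolyDec (fun z : T => FinalT (RL (pl z.left.right) (zi z.left.right))
      (zi z.left.right) (TX μ fP V z.left.left (zn z.left.right))) := by
    refine (FinalT_dec hG hzi (TX_poly μ hfP V hD (zn_poly hZ))).congr fun z => ?_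
    have h1 : (fun k => GR (fun z : T => pl z.left.right) (fun z : T => zi z.left.right)
        (T.node z (bl k))) = RL (pl z.left.right) (zi z.left.right) :=
      funext fun k => GR_eq _ _ z k
    rw [h1]
  have h1 : PolyDec (fun z : T => z.right.size ≤ zsz z.left.right) :=
    PolyDec.le (PolyNat.size i.right) (zsz_poly hZ)
  exact h1.and ((okL_dec hS hD hZ).and ((PolyDec.leN hnL hzi).or
    ((Cov_dec hLK hDEC hALL (pl_poly hZ) (zsz_poly hZ) hzi).not.or
      ((hC.and ((PolyDec.eqN hzi.succ hnL).not.or hF)).or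
        (SomeRef_dec hLK hALL hS hD hZ (pl_poly hZ) i.right)))))

theorem Cond_dec (hS : SIMF_stmt) : PolyDec (fun z => Cond z.left z.right) := by
  have i := PolyTime.id
  have hD : PolyTime (fun z : T => z.left) := i.left
  have hZ : PolyTime (fun z : T => z.right) := i.right
  have hN : PolyTime (fun z : T => bl (zn z.right)) := zn_poly hZ
  have h1 : PolyDec (fun z : T => en z.left ≤ zn z.right) :=
    PolyDec.leN (PolyNat.len hD.left.right.right.right).toN (zn_poly hZ)
  have h2 : PolyDec (fun z : T => xs (zn z.right) (zsz z.right) ^ ej z.left ≤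
      (bud z.right).len) := by
    refine (RL.PolyDec.le_pow (((PolyNat.size hN).add ((PolyNat.const 2).mul (zsz_poly hZ))).add
      (PolyNat.const 10)) ((PolyNat.len (bud_poly hZ)).add (PolyNat.const 1))
        (PolyNat.len hD.left.right.right.left)).not.congr fun z => ?_
    unfold xs ej
    omega
  have h3 : PolyDec (fun z : T => (simulF (T.node (eh z.left)
      (T.node (zl (zn z.right) (zsz z.right)) (bud z.right)))).right ≠ T.leaf) :=
    PolyDec.ne_leaf (hS.1.comp (hD.left.right.left.node ((zl_poly hZ).node (bud_poly hZ)))).right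
  exact h1.and (h2.and h3)

theorem nthT_leaf (b : ℕ) : nthT T.leaf b = T.leaf := by
  have h : T.right^[b] T.leaf = T.leaf := by
    induction b with
    | zero => rfl
    | succ b ih => rw [Function.iterate_succ_apply, T.right_leaf, ih]
  rw [nthT, h, T.left_leaf]

theorem nthT_min (y : T) (k : ℕ) : nthT y (min k y.len) = nthT y k := by
  induction y generalizing k with
  | leaf => rw [nthT_leaf, nthT_leaf]
  | node a b _ ih =>
    cases k with
    | zero => simp
    | succ k =>
      rw [T.len_node, Nat.add_min_add_right]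
      have h : ∀ n, nthT (T.node a b) (n + 1) = nthT b n := by
        intro n
        rw [nthT, Function.iterate_succ_apply, T.right_node, nthT]
      rw [h, h, ih]

theorem DescL_dec (hLK : LK_stmt) {y W : T → T} (hy : PolyTime y) (hW : PolyTime W) :
    PolyDec (fun z => DescL (y z) (W z)) := by
  have i := PolyTime.id
  have hL : PolyN (fun z => (y z).len) := (PolyNat.len hy).toN
  have hG : PolyTime (fun v : T => nthT (y v.left.left)
      (min (bn v.right) (y v.left.left).len)) :=
    hLK.2.1 _ _ (hy.comp i.left.left) (polyNat_min (polyN_bn i.right)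
      (PolyNat.len (hy.comp i.left.left)))
  have hi : PolyN (fun w : T => w.right.len) := (PolyNat.len i.right).toN
  have hL' : PolyN (fun w : T => (y w.left).len) := hL.comp i.left
  have hball := PolyDec.ball (P := fun w : T => CheckT (nthT (y w.left)) w.right.len ∧
    (w.right.len + 1 ≠ (y w.left).len ∨ FinalT (nthT (y w.left)) w.right.len (W w.left))) ?_
    (PolyNat.len hy)
  · refine ((PolyDec.eqN hL (PolyN.const 0)).not.and hball).congr fun z => ?_
    simp only [T.left_node, T.right_node, T.len_unary]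
    rfl
  · have he : ∀ w : T, (fun k => nthT (y (T.node w (bl k)).left.left)
        (min (bn (T.node w (bl k)).right) (y (T.node w (bl k)).left.left).len)) =
          nthT (y w.left) := by
      intro w
      funext k
      simp only [T.left_node, T.right_node, bn_bl]
      exact nthT_min _ _
    have h1 := CheckT_dec hG hi
    have h2 := FinalT_dec hG hi (hW.comp i.left)
    refine (h1.and ((PolyDec.eqN hi.succ hL').not.or h2)).congr fun w => ?_
    rw [he w]

end Rel

theorem REL_thm (hLK : LK_stmt) (hDEC : DEC_stmt) (hALL : ALL_stmt) (hS : SIMF_stmt) :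
    REL_stmt := by
  refine ⟨fun μ fP V hfP => Rel.FR_dec hLK hDEC hALL hS μ hfP V, fun μ fP V X y h => ?_,
    Rel.Cond_dec hS, fun y W hy hW => Rel.DescL_dec hLK hy hW⟩
  have h1 := h.1
  have h2 := T.len_lt_size X.right.left.right
  have h3 := T.size_right_le X.right.left
  have h4 := T.size_left_le X.right
  have h5 := T.size_right_le X
  have h6 : zsz X.right = X.right.left.right.len := rfl
  omega

end Pool.Agent.S2L
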