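import Pool.Agent.S2L.Base
import Pool.Agent.RU.Final

/-!
# Records decided by symmetric games: statements of the modules
-/

namespace Pool.Agent.S2L

open Pool.Agent.H19 Pool.Agent.H19.T Pool.Agent.RU Pool.Agent.PO

/-! ### COVER: finite combinatorics -/

/-- The number of trees of bounded size. -/
def TREES_stmt : Prop :=
  ∀ m : ℕ, ∃ Y : Finset T, (∀ y : T, y.size ≤ m → y ∈ Y) ∧ Y.card < 2 ^ (m + 2)

/-- For every relation between trees of size at most `s` one of the two sides has a short list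
which cannot be refuted. -/
def COVER_stmt : Prop :=
  ∀ (s : ℕ) (R : T → T → Prop),
    (∃ A : List T, A.length ≤ s + 3 ∧ (∀ y ∈ A, y.size ≤ s) ∧
      ∀ z : T, z.size ≤ s → ∃ y ∈ A, R y z) ∨
    (∃ A : List T, A.length ≤ s + 3 ∧ (∀ z ∈ A, z.size ≤ s) ∧
      ∀ y : T, y.size ≤ s → ∃ z ∈ A, ¬ R y z)

/-! ### LK: lookup and the local check -/

def LK_stmt : Prop :=
  -- the lookup is computable
  (∀ (u : T → T) (k : T → ℕ), PolyTime u → PolyN k → PolyTime (fun z => lk (u z) (k z))) ∧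
  (∀ (l : T → T) (b : T → ℕ), PolyTime l → PolyNat b → PolyTime (fun z => nthT (l z) (b z))) ∧
  -- it finds an entry if there is one
  (∀ u k, HasKey u k → ∃ h ∈ u.toL, h.left = bl k ∧ lk u k = h.right) ∧
  -- the local check depends only on the records with numbers in `keysR`
  (∀ (R R' : ℕ → T) (i : ℕ), (∀ k ∈ keysR R i, R' k = R k) → CheckT R i → CheckT R' i) ∧
  (∀ (R R' : ℕ → T) (i : ℕ) (W : T), (∀ k ∈ keysR R i, R' k = R k) → FinalT R i W →
    FinalT R' i W)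

/-! ### DEC: words in reverse Polish notation -/

def DEC_stmt : Prop :=
  PolyTime decT ∧
  PolyTime wordT ∧
  (∀ x : T, (word x).length = x.size) ∧
  -- the letters of `wordT x`
  (∀ (x : T) (k : ℕ), digit x k ↔ nthT (wordT x) k ≠ T.leaf) ∧
  -- decoding, with additional zeros
  (∀ (x e : T), x.size ≤ e.len → (∀ k < e.len, (nthT e k).left ≠ T.leaf ↔ digit x k) →
    decT e = x)

/-! ### REL: the relation is decidable -/

def REL_stmt : Prop :=
  (∀ (μ : Fm) (fP : T → T) (V : T), PolyTime fP →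
    PolyDec (fun z => FR μ fP V z.left z.right)) ∧
  (∀ (μ : Fm) (fP : T → T) (V X y : T), FR μ fP V X y → y.size ≤ X.size) ∧
  PolyDec (fun z => Cond z.left z.right) ∧
  (∀ y W : T → T, PolyTime y → PolyTime W → PolyDec (fun z => DescL (y z) (W z)))

/-! ### TH: theories with additional true `Σ^b_1` sentences -/

def TH_stmt : Prop :=
  ∀ (μ : Fm) (_ : IsUniversal μ) (P : Code → ℕ → Fm) (_ : IsFormalisation μ P)
    (S T₀ : Set Fm) (_ : InClassT S) (_ : InClassT T₀) (F C : T → T → Prop),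
    PolyDec (fun z => F z.left z.right) → (∀ X y, F X y → y.size ≤ X.size) →
    PolyDec (fun z => C z.left z.right) →
    ∃ (pc : T → Code) (pk : T → ℕ) (c : ℕ),
      PolyTime (fun D => T.node (pc D).enc (T.unary (pk D))) ∧
      (∀ D, HaltsWithin (pc D) (pk D)) ∧
      (∀ D, (∀ Z, C D Z → ∃ y, F (T.node D Z) y) → SameModels (theory (pc D) (pk D)) T₀) ∧
      (∀ D Z m, C D Z → (D.size + Z.size + 2) ^ c ≤ m →
        Provable S (rfn (P (pc D) (pk D)) μ m) → ∃ y, F (T.node D Z) y)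

/-! ### TRUTH: for a correct description the axioms are true -/

def TRUTH_stmt : Prop :=
  ∀ (μ : Fm) (P : Code → ℕ → Fm) (fP : T → T),
    (∀ c κ, fP (T.node c.enc (T.unary κ)) = (P c κ).enc) →
  ∀ (V c : Code) (κ : ℕ) (τ L : ℕ → ℕ) (ℓ G h : T → T) (cG cL ch : Code) (kG kL kh n₀ : ℕ),
    (∀ x : T, ∃ t : ℕ, Eval cG x (G x) t ∧ t ≤ (x.size + 2) ^ kG) →
    (∀ x : T, ∃ t : ℕ, Eval cL x (ℓ x) t ∧ t ≤ (x.size + 2) ^ kL) →
    (∀ x : T, ∃ t : ℕ, Eval ch x (h x) t ∧ t ≤ (x.size + 2) ^ kh) →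
    (∀ n s : ℕ, h (T.node (bl n) (T.unary s)) ≠ T.leaf ↔ s = τ n) →
    (∀ n ≥ n₀, DescribesS2 ℓ G n (τ n) (L n) (check V (rfn (P c κ) μ n))) →
    ∃ j₀ : ℕ, ∀ j ≥ j₀, ∀ D : T,
      D = T.node (mkD0 cG.enc cL.enc ch.enc j n₀) (T.node c.enc (T.unary κ)) →
      ∀ Z, Cond D Z → ∃ y, FR μ fP V.enc (T.node D Z) y

/-! ### STRONG: if the axioms are true, there is an accepting computation -/

def STRONG_stmt : Prop :=
  ∃ c₁ : ℕ, ∀ (μ : Fm) (fP : T → T) (V D : T) (N s B : ℕ), xs N s ^ 7 ≤ B →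
    (∀ (i : ℕ) (u : T), (mkZ N s i u B).size ≤ c₁ * (B + 1) →
      ∃ y, FR μ fP V (T.node D (mkZ N s i u B)) y) →
    ∃ (R : ℕ → T) (L : ℕ), L ≠ 0 ∧
      ∀ i < L, CheckT R i ∧ (i + 1 ≠ L ∨ FinalT R i (TX μ fP V D N))

/-! ### CORE: the watching theory -/

def CORE_stmt : Prop :=
  ∀ (μ₁ : Fm) (_ : IsUniversal μ₁) (P₁ : Code → ℕ → Fm) (_ : IsFormalisation μ₁ P₁)
    (S₁ T₁ : Set Fm) (_ : InClassT S₁) (_ : InClassT T₁) (V₁ : Code) (_ : SoundChecker S₁ V₁)
    (μ₂ : Fm) (_ : IsUniversal μ₂) (P₂ : Code → ℕ → Fm) (_ : IsFormalisation μ₂ P₂)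
    (S₂ T₂ : Set Fm) (_ : InClassT S₂) (_ : InClassT T₂) (V₂ : Code) (_ : SoundChecker S₂ V₂),
    ∃ (c : Code) (κ : ℕ), HaltsWithin c κ ∧ theory c κ = T₁ ∧
      ∀ (τ L : ℕ → ℕ) (ℓ G : T → T), Constructible τ → PolyTime ℓ → PolyTime G →
        (∃ n₀ : ℕ, ∀ n ≥ n₀,
          DescribesS2 ℓ G n (τ n) (L n) (check V₁ (rfn (P₁ c κ) μ₁ n))) →
        ∃ (c' : Code) (κ' : ℕ), HaltsWithin c' κ' ∧ SameModels (theory c' κ') T₂ ∧
          ∃ j C : ℕ, ∀ N m : ℕ, C ≤ N → C ≤ m → ((bl N).size + 2 * τ N + 10) ^ j ≤ m →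
            (∀ y : T, DescL y (check V₂ (rfn (P₂ c' κ') μ₂ m)).enc →
              N < C * (y.size + m + (bl N).size + τ N)) ∧
            ∀ π : List Step, IsProof S₂ π (rfn (P₂ c' κ') μ₂ m) →
              N < C * ((encProof π).size + m + (bl N).size + τ N)

/-! ### TRACE: the computations of programs as lists of records -/

/-- There is a polynomial-time function that outputs the list of the records of a computation, and
these records are small. -/
def TRACE_stmt : Prop :=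
  ∃ (trace : T → T) (C : ℕ), PolyTime trace ∧ ∀ (c : Code) (x y : T) (t b : ℕ),
    Eval c x y t → t ≤ b → y ≠ T.leaf →
    ∃ (r : ℕ → Rec) (L : ℕ), Accepting r L c ∧
      trace (T.node c.enc (T.node x (T.unary b))) = encL ((List.range L).map fun i => (r i).enc) ∧
      ∀ i < L, (r i).enc.size ≤ C * (c.enc.size + L.size + 1)

/-- Accepting depends only on the records with numbers less than `L`. -/
def CONGR_stmt : Prop :=
  ∀ (r r' : ℕ → Rec) (L : ℕ) (W : Code), (∀ i < L, r' i = r i) → Accepting r L W →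
    Accepting r' L W

/-- The last record can be repeated. -/
def PADREC_stmt : Prop :=
  ∀ (r : ℕ → Rec) (L L' : ℕ) (W : Code), Accepting r L W → L ≤ L' →
    Accepting (fun i => r (min i (L - 1))) L' W

/-- Quantifiers over the members of a list. -/
def ALL_stmt : Prop :=
  ∀ (Q : T → Prop) (l : T → T), PolyDec Q → PolyTime l →
    PolyDec (fun z => ∀ h ∈ (l z).toL, Q (T.node z h))

/-! ### COD and PROT: from games for a set in E to records decided by games -/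

/-- A family of lists of small records, which is uniformly computable in polynomial time. -/
def Family (F : T → T) (rec : ℕ → ℕ → Rec) (L : ℕ → ℕ) (C : ℕ) : Prop :=
  PolyTime F ∧
    (∀ n, L n ≠ 0 ∧ F (T.unary n) = encL ((List.range (L n)).map fun i => (rec n i).enc)) ∧
    ∀ n, ∀ i < L n, (rec n i).enc.size ≤ C * (n.size + 1)

/-- The set `A` of numbers codes the digits of the records `rec`. -/
def Codes (rec : ℕ → ℕ → Rec) (L : ℕ → ℕ) (C k : ℕ) (cod : ℕ → ℕ → ℕ → ℕ) (m : ℕ → ℕ) (K : ℕ)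
    (A : Set ℕ) : Prop :=
  (∀ n, L n ≤ (n + 2) ^ k) ∧
    PolyN (fun z => cod (bn z.left) (bn z.right.left) (bn z.right.right)) ∧
    PolyNat (fun z => m z.len) ∧ (∀ a, m a ≤ K * (a + 1)) ∧
    ∀ n i d, i < (n + 2) ^ k → d < C * (n.size + 1) →
      (cod n i d).size = m n.size ∧ (cod n i d ∈ A ↔ digit (rec n (min i (L n - 1))).enc d)

def COD_stmt : Prop :=
  ∀ (F : T → T) (rec : ℕ → ℕ → Rec) (L : ℕ → ℕ) (C : ℕ), Family F rec L C →
    ∃ (k : ℕ) (cod : ℕ → ℕ → ℕ → ℕ) (m : ℕ → ℕ) (K : ℕ) (A : Set ℕ),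
      InE A ∧ Codes rec L C k cod m K A

def PROT_stmt : Prop :=
  ∀ (rec : ℕ → ℕ → Rec) (L : ℕ → ℕ) (C k : ℕ) (cod : ℕ → ℕ → ℕ → ℕ) (m : ℕ → ℕ) (K : ℕ)
    (A : Set ℕ), Codes rec L C k cod m K A →
    (∀ n, ∀ i < L n, (rec n i).enc.size ≤ C * (n.size + 1)) → (∀ n, L n ≠ 0) →
    ∀ t : ℕ → ℕ, SubexpBound t → InS2Time t A →
      ∃ (τ : ℕ → ℕ) (G : T → T), Constructible τ ∧ Subpolynomial τ ∧ PolyTime G ∧
        (∀ n, C * (n.size + 1) ≤ τ n) ∧
        ∀ n, ∀ i < (n + 2) ^ k, ∀ d < τ n,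
          Symm (fun y z => G (inp n i d y z (τ n)) ≠ T.leaf) (τ n)
            (digit (rec n (min i (L n - 1))).enc d)

/-- The codes of the programs `check V (rfn (P c κ) μ n)` have linear size. -/
def LIN_stmt : Prop :=
  ∀ (P μ : Fm) (V : Code), ∃ C : ℕ, ∀ n : ℕ, (check V (rfn P μ n)).enc.size ≤ C * (n.size + 1)

end Pool.Agent.S2L
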