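import Pool.Agent.S2L.Stmts

/-!
# STRONG: if the axioms are true, there is an accepting computation
-/

namespace Pool.Agent.S2L

open Pool.Agent.H19 Pool.Agent.H19.T Pool.Agent.RU Pool.Agent.PO

namespace Strong

/-! ### Lists -/

theorem size_encL (c : ℕ) : ∀ l : List T, (∀ a ∈ l, a.size ≤ c) →
    (encL l).size ≤ 1 + l.length * (c + 1)
  | [], _ => by simp [T.size]
  | a :: l, h => by
    have h1 := size_encL c l fun b hb => h b (List.mem_cons_of_mem _ hb)
    have h2 := h a List.mem_cons_self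
    rw [encL_cons, T.size, List.length_cons, Nat.add_mul]
    omega

theorem nthT_encL : ∀ (l : List T) (k : ℕ) (h : k < l.length), nthT (encL l) k = l[k]
  | [], k, h => absurd h (by simp)
  | a :: l, 0, _ => rfl
  | a :: l, k + 1, h => by
    have h1 := nthT_encL l k (by simpa using h)
    rw [nthT] at h1 ⊢
    rw [Function.iterate_succ_apply]
    simpa using h1

/-! ### The claims -/

theorem claim (hC : COVER_stmt) (s : ℕ) (R : T → T → Prop) :
    ∃ c : T, c.size ≤ 5 + (s + 3) * (s + 1) ∧ ∀ x : T, x.size ≤ s →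
      ¬ ((c.left ≠ T.leaf ∧ ∀ y ∈ c.right.toL, y.size ≤ s → ¬ R y x) ∨
        (c.left = T.leaf ∧ ∀ z ∈ c.right.toL, z.size ≤ s → R x z)) := by
  rcases hC s R with ⟨A, h1, h2, h3⟩ | ⟨A, h1, h2, h3⟩
  · refine ⟨T.node (T.node T.leaf T.leaf) (encL A), ?_, ?_⟩
    · have h4 := size_encL s A h2
      have h5 := Nat.mul_le_mul_right (s + 1) h1
      simp only [T.size]
      omega
    · rintro x hx (⟨_, h⟩ | ⟨h, _⟩)
      · obtain ⟨y, hy, h4⟩ := h3 x hx
        exact h y (by simpa using hy) (h2 y hy) h4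
      · simp at h
  · refine ⟨T.node T.leaf (encL A), ?_, ?_⟩
    · have h4 := size_encL s A h2
      have h5 := Nat.mul_le_mul_right (s + 1) h1
      simp only [T.size]
      omega
    · rintro x hx (⟨h, _⟩ | ⟨_, h⟩)
      · simp at h
      · obtain ⟨y, hy, h4⟩ := h3 x hx
        exact h4 (h y (by simpa using hy) (h2 y hy))

/-! ### The data -/

section

variable (N s i : ℕ) (u : T) (B : ℕ)

theorem zn_mk : zn (mkZ N s i u B) = N := by simp [zn, mkZ]

theorem zsz_mk : zsz (mkZ N s i u B) = s := by simp [zsz, mkZ]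

theorem zi_mk : zi (mkZ N s i u B) = i := by simp [zi, mkZ]

theorem pl_mk : pl (mkZ N s i u B) = u := by simp [pl, mkZ]

theorem bud_mk : bud (mkZ N s i u B) = T.unary B := by simp [bud, mkZ]

theorem OL_mk (D : T) : OL D (mkZ N s i u B) =
    simulF (T.node (eL D) (T.node (zl N s) (T.unary B))) := by
  rw [OL, zn_mk, zsz_mk, bud_mk]

end

/-- the list of the entries for the records in `l` -/
def ent (e : ℕ → T) (l : List ℕ) : T := encL (l.map fun k => T.node (bl k) (e k))

theorem mem_ent {e : ℕ → T} {l : List ℕ} {h : T} :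
    h ∈ (ent e l).toL ↔ ∃ k ∈ l, T.node (bl k) (e k) = h := by
  rw [ent, toL_encL, List.mem_map]

theorem hasKey_ent {e : ℕ → T} {l : List ℕ} {k : ℕ} (hk : k ∈ l) : HasKey (ent e l) k :=
  ⟨T.node (bl k) (e k), mem_ent.2 ⟨k, hk, rfl⟩, rfl⟩

theorem lk_ent (hLK : LK_stmt) {e : ℕ → T} {l : List ℕ} {k : ℕ} (hk : k ∈ l) :
    lk (ent e l) k = e k := by
  obtain ⟨h, h1, h2, h3⟩ := hLK.2.2.1 _ _ (hasKey_ent (e := e) hk)
  obtain ⟨k', hk', rfl⟩ := mem_ent.1 h1
  rw [T.left_node, bl_inj] at h2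
  rw [h3, h2, T.right_node]

theorem keysR_eq {R R' : ℕ → T} {i : ℕ} (h : ∀ k ∈ keysR R i, R' k = R k) :
    keysR R' i = keysR R i := by
  have h1 : R' i = R i := h i (by simp [keysR])
  have h2 : R' (fs (R i)) = R (fs (R i)) := h _ (by simp [keysR])
  have h3 : R' (fx (R i)) = R (fx (R i)) := h _ (by simp [keysR])
  simp only [keysR]
  rw [h1, h2, h3]

theorem size_mk (N s i : ℕ) (u : T) (B : ℕ) : (mkZ N s i u B).size =
    (bl N).size + (bl i).size + u.size + 2 * s + 2 * B + 6 := by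
  simp only [mkZ, T.size, T.size_unary]
  omega

end Strong

open Strong in
theorem STRONG_thm (hLK : LK_stmt) (_hDEC : DEC_stmt) (hC : COVER_stmt) : STRONG_stmt := by
  refine ⟨200, ?_⟩
  intro μ fP V D N s B hB hyp
  -- the number of records
  obtain ⟨O, hO⟩ : ∃ O, O = simulF (T.node (eL D) (T.node (zl N s) (T.unary B))) := ⟨_, rfl⟩
  have hX : (bl N).size + 2 * s + 10 ≤ B := by
    refine le_trans ?_ hB
    exact Nat.le_self_pow (by norm_num) _
  have hs3 : s * (6 + (s + 3) * (s + 1)) ≤ B := by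
    refine le_trans ?_ hB
    have h1 : xs N s ^ 3 ≤ xs N s ^ 7 := by
      refine Nat.pow_le_pow_right ?_ (by norm_num)
      rw [xs]; omega
    refine le_trans ?_ h1
    have h2 : s + 10 ≤ xs N s := by rw [xs]; omega
    have h3 : (s + 10) ^ 3 ≤ xs N s ^ 3 := Nat.pow_le_pow_left h2 3
    nlinarith [Nat.zero_le (s ^ 2), Nat.zero_le s, Nat.zero_le (s ^ 3)]
  have hOL : ∀ (i : ℕ) (u : T), OL D (mkZ N s i u B) = O := fun i u => by rw [OL_mk, hO]
  have hnL : ∀ (i : ℕ) (u : T), nL D (mkZ N s i u B) = bn O.right := fun i u => by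
    rw [nL, hOL]
  obtain ⟨hL0, hOB⟩ : bn O.right ≠ 0 ∧ O.right.size ≤ B := by
    obtain ⟨y, -, ⟨-, h2, h3⟩, -⟩ := hyp 0 T.leaf (by
      rw [size_mk, bl_zero]
      simp only [T.size]
      omega)
    simp only [T.left_node, T.right_node] at h2 h3
    rw [hnL] at h2
    rw [hOL, bud_mk, T.len_unary] at h3
    exact ⟨h2, h3⟩
  -- the claims
  choose cl hcs hcl using fun j k : ℕ => claim hC s (fun y z => (simulF (T.node (eG D)
    (T.node (inp N j k y z s) (T.unary B)))).right ≠ T.leaf)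
  have href : ∀ (i : ℕ) (u : T) (j k : ℕ) (x : T), x.size ≤ s →
      ¬ Ref D (mkZ N s i u B) j k (cl j k) x := by
    intro i u j k x hx h
    apply hcl j k x hx
    simp only [Ref, Win, zn_mk, zsz_mk, bud_mk] at h
    exact h
  obtain ⟨e, he⟩ : ∃ e : ℕ → T, e = fun j => encL ((List.range s).map (cl j)) := ⟨_, rfl⟩
  have helen : ∀ j, (e j).len = s := fun j => by rw [he]; simp
  have hesize : ∀ j, (e j).size ≤ 1 + B := by
    intro j
    rw [he]
    refine (size_encL (5 + (s + 3) * (s + 1)) _ ?_).trans ?_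
    · intro a ha
      obtain ⟨k, -, rfl⟩ := List.mem_map.1 ha
      exact hcs j k
    · rw [List.length_map, List.length_range]
      have : s * (5 + (s + 3) * (s + 1) + 1) = s * (6 + (s + 3) * (s + 1)) := by ring
      omega
  have henth : ∀ j k, k < s → nthT (e j) k = cl j k := by
    intro j k hk
    rw [he]
    beta_reduce
    rw [nthT_encL _ _ (by simpa using hk)]
    simp
  refine ⟨fun j => decT (e j), bn O.right, hL0, ?_⟩
  obtain ⟨R, hR⟩ : ∃ R : ℕ → T, R = fun j => decT (e j) := ⟨_, rfl⟩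
  rw [← hR]
  intro i hi
  -- the records up to number `i`
  obtain ⟨R', hR'⟩ : ∃ R' : ℕ → T, R' = fun k => if k ≤ i then R k else T.leaf := ⟨_, rfl⟩
  have hRR : ∀ k ≤ i, R' k = R k := fun k hk => by rw [hR']; exact if_pos hk
  obtain ⟨l, hl⟩ : ∃ l : List ℕ, l = (keysR R' i).filter (fun k => k ≤ i) := ⟨_, rfl⟩
  have hmem : ∀ k, k ∈ l ↔ k ∈ keysR R' i ∧ k ≤ i := fun k => by rw [hl]; simp
  have hRL : ∀ k ∈ keysR R' i, RL (ent e l) i k = R' k := by
    intro k hk
    rw [RL, hR']
    beta_reduce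
    split_ifs with h
    · rw [lk_ent hLK ((hmem k).2 ⟨hk, h⟩), hR]
    · rfl
  have hkeys : keysR (RL (ent e l) i) i = keysR R' i := keysR_eq hRL
  have hbl : ∀ k ≤ i, (bl k).size ≤ 2 * B := fun k hk => by
    have := bl_bn_size O.right k (by omega)
    omega
  have hus : (ent e l).size ≤ 1 + 9 * (3 * B + 3) := by
    have h1 : (ent e l).size ≤ 1 + (l.map fun k => T.node (bl k) (e k)).length * (3 * B + 2 + 1) := by
      refine size_encL _ _ ?_
      intro a ha
      obtain ⟨k, hk, rfl⟩ := List.mem_map.1 ha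
      have h2 := hbl k ((hmem k).1 hk).2
      have h3 := hesize k
      simp only [T.size]
      omega
    refine h1.trans ?_
    have h2 : (l.map fun k => T.node (bl k) (e k)).length ≤ 9 := by
      rw [List.length_map, hl]
      exact (List.length_filter_le _ _).trans (by simp [keysR])
    have h3 := Nat.mul_le_mul_right (3 * B + 2 + 1) h2
    omega
  obtain ⟨x, hx, -, h⟩ := hyp i (ent e l) (by
    rw [size_mk]
    have := hbl i le_rfl
    omega)
  simp only [T.left_node, T.right_node, hnL, zi_mk, pl_mk, zsz_mk, zn_mk] at hx h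
  have hcov : Cov (ent e l) s i := by
    intro k hk hki
    rw [hkeys] at hk
    have h1 := (hmem k).2 ⟨hk, hki⟩
    refine ⟨hasKey_ent h1, ?_⟩
    rw [lk_ent hLK h1]
    exact helen k
  have hnoref : ¬ SomeRef D (mkZ N s i (ent e l) B) (ent e l) x := by
    rintro ⟨h, h1, -, k, hk, h2⟩
    obtain ⟨j, -, rfl⟩ := mem_ent.1 h1
    rw [zsz_mk] at hk
    rw [T.left_node, T.right_node, bn_bl, henth j k hk] at h2
    exact href _ _ _ _ _ hx h2
  rcases h with h | h | ⟨h1, h2⟩ | h
  · omega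
  · exact absurd hcov h
  · have hk : ∀ k ∈ keysR (RL (ent e l) i) i, R' k = RL (ent e l) i k := by
      intro k hk
      rw [hkeys] at hk
      exact (hRL k hk).symm
    refine ⟨CheckT_congr hRR (hLK.2.2.2.1 _ _ _ hk h1), ?_⟩
    rcases h2 with h2 | h2
    · exact Or.inl h2
    · exact Or.inr (FinalT_congr hRR (hLK.2.2.2.2 _ _ _ _ hk h2))
  · exact absurd h hnoref

end Pool.Agent.S2L
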