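import Pool.Agent.S2L.Stmts

/-!
# For a correct description the axioms of the reporter theory are true
-/

namespace Pool.Agent.S2L.Truth

open Pool.Agent.H19 Pool.Agent.H19.T Pool.Agent.RU Pool.Agent.PO

/-- The simulation with a sufficient budget. -/
theorem sim_eq (hS : SIMF_stmt) {c : Code} {f : T → T} {k : ℕ}
    (hf : ∀ x : T, ∃ t : ℕ, Eval c x (f x) t ∧ t ≤ (x.size + 2) ^ k) {x B : T}
    (h : (x.size + 2) ^ k ≤ B.len) :
    simulF (T.node c.enc (T.node x B)) = T.node T.leaf (f x) := by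
  obtain ⟨t, ht, hb⟩ := hf x
  rw [simulF_len]
  exact hS.2.1 c x (f x) t B.len ht (hb.trans h)

theorem keysR_eq {R R' : ℕ → T} {i : ℕ} (h : ∀ k ∈ keysR R i, R' k = R k) :
    keysR R' i = keysR R i := by
  have h1 : R' i = R i := h i (by simp [keysR])
  have h2 : R' (fs (R i)) = R (fs (R i)) := h _ (by simp [keysR])
  have h3 : R' (fx (R i)) = R (fx (R i)) := h _ (by simp [keysR])
  simp only [keysR, h1, h2, h3]

theorem leaf_size_le {s : ℕ} (h : 1 ≤ s) : T.leaf.size ≤ s := h

/-- The size of the input of the referee. -/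
theorem inp_size {n i k s : ℕ} {y z t : T} {X Y : ℕ} (hX : X = xs n s) (hk : k < s)
    (hy : y.size ≤ s) (hz : z.size ≤ s) (hi : i ≤ bn t) (ht : t.size ≤ Y) :
    (inp n i k y z s).size + 2 ≤ 5 * X + 2 * Y := by
  have h1 := bl_bn_size t i hi
  have h2 := bl_size k
  have h3 := nat_size_le k
  simp only [inp, T.size, T.size_unary]
  simp only [xs] at hX
  omega

end Pool.Agent.S2L.Truth

namespace Pool.Agent.S2L

open Pool.Agent.H19 Pool.Agent.H19.T Pool.Agent.RU Pool.Agent.PO Truth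

theorem TRUTH_thm (hLK : LK_stmt) (hDEC : DEC_stmt) (hS : SIMF_stmt) : TRUTH_stmt := by
  classical
  intro μ P fP hfP V c κ τ L ℓ G h cG cL ch kG kL kh n₀ hG hL hh hτ hdesc
  refine ⟨(kL + 2) * kG + kL + kh + 2, ?_⟩
  intro j hj D hD Z hC
  have eG' : eG D = cG.enc := by rw [hD]; rfl
  have eL' : eL D = cL.enc := by rw [hD]; rfl
  have eh' : eh D = ch.enc := by rw [hD]; rfl
  have ej' : ej D = j := by rw [hD]; exact T.len_unary j
  have en' : en D = n₀ := by rw [hD]; exact T.len_unary n₀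
  have eq' : D.right = T.node c.enc (T.unary κ) := by rw [hD]; rfl
  obtain ⟨N, hN⟩ : ∃ N, N = zn Z := ⟨_, rfl⟩
  obtain ⟨s, hs⟩ : ∃ s, s = zsz Z := ⟨_, rfl⟩
  obtain ⟨i, hi⟩ : ∃ i, i = zi Z := ⟨_, rfl⟩
  obtain ⟨u, hu⟩ : ∃ u, u = pl Z := ⟨_, rfl⟩
  obtain ⟨B, hB⟩ : ∃ B, B = bud Z := ⟨_, rfl⟩
  obtain ⟨hC1, hC2, hC3⟩ := hC
  rw [en', ← hN] at hC1
  rw [← hN, ← hs, ej', ← hB] at hC2
  rw [eh', ← hN, ← hs, ← hB] at hC3
  obtain ⟨X, hX⟩ : ∃ X, X = xs N s := ⟨_, rfl⟩
  rw [← hX] at hC2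
  have hX' : X = (bl N).size + 2 * s + 10 := hX
  have hX10 : 10 ≤ X := by omega
  have hXB : ∀ k ≤ j, X ^ k ≤ B.len := fun k hk => (Nat.pow_le_pow_right (by omega) hk).trans hC2
  have hzl : (zl N s).size + 2 ≤ X := by
    simp only [zl, T.size, T.size_unary]; omega
  -- the value of `s`
  have hsτ : s = τ N := by
    rw [sim_eq hS hh ((Nat.pow_le_pow_left hzl _).trans (hXB kh (by omega))), T.right_node] at hC3
    exact (hτ N s).1 hC3
  obtain ⟨hℓ, r, hacc, hrec⟩ := hdesc N hC1
  rw [← hsτ] at hℓ hrec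
  obtain ⟨hL0, hok, hfin⟩ := hacc
  -- the number of records
  have hsimL : OL D Z = T.node T.leaf (bl (L N)) := by
    rw [OL, eL', ← hN, ← hs, ← hB]
    rw [sim_eq hS hL ((Nat.pow_le_pow_left hzl _).trans (hXB kL (by omega)))]
    rw [zl, hℓ]
  have hnL : nL D Z = L N := by rw [nL, hsimL, T.right_node, bn_bl]
  have hblL : (bl (L N)).size ≤ X ^ kL := by
    obtain ⟨t, ht, hb⟩ := hL (T.node (bl N) (T.unary s))
    rw [hℓ] at ht
    exact ht.size_le.trans (hb.trans (Nat.pow_le_pow_left hzl _))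
  have hokL : okL D Z := by
    refine ⟨by rw [hsimL]; simp, by rw [hnL]; omega, ?_⟩
    rw [hsimL, T.right_node, ← hB]
    exact hblL.trans (hXB kL (by omega))
  have hs1 : 1 ≤ s := le_trans (T.size_pos _) (hrec 0 hL0).1
  -- the games
  have hwin : ∀ a < L N, ∀ k < s, ∀ y z : T, y.size ≤ s → z.size ≤ s →
      (Win D Z a k y z ↔ G (inp N a k y z s) ≠ T.leaf) := by
    intro a ha k hk y z hy hz
    rw [Win, eG', ← hN, ← hs, ← hB, sim_eq hS hG, T.right_node]
    have h1 := inp_size (n := N) (i := a) (k := k) (s := s) (y := y) (z := z) (t := bl (L N))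
      (X := X) (Y := X ^ kL) hX hk hy hz (by rw [bn_bl]; exact ha.le) hblL
    have h2 : 5 * X + 2 * X ^ kL ≤ X ^ (kL + 2) := by
      have h3 : 1 ≤ X ^ kL := Nat.one_le_pow _ _ (by omega)
      have h4 : X ^ (kL + 2) = X ^ kL * X * X := by ring
      have h5 : X ≤ X ^ kL * X := Nat.le_mul_of_pos_left _ h3
      have h6 : X ^ kL ≤ X ^ kL * X := Nat.le_mul_of_pos_right _ (by omega)
      have h7 : X ^ kL * X * 10 ≤ X ^ kL * X * X := Nat.mul_le_mul_left _ hX10
      omega
    calc ((inp N a k y z s).size + 2) ^ kG ≤ (X ^ (kL + 2)) ^ kG :=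
          Nat.pow_le_pow_left (h1.trans h2) _
      _ = X ^ ((kL + 2) * kG) := (pow_mul _ _ _).symm
      _ ≤ B.len := hXB _ (by omega)
  -- the message
  by_cases hiL : L N ≤ i
  · refine ⟨T.leaf, ?_, hokL, Or.inl ?_⟩
    · rw [T.right_node, ← hs]; exact leaf_size_le hs1
    · rw [T.left_node, T.right_node, hnL, ← hi]; exact hiL
  push Not at hiL
  by_cases hcov : Cov u s i
  swap
  · refine ⟨T.leaf, ?_, hokL, Or.inr (Or.inl ?_)⟩
    · rw [T.right_node, ← hs]; exact leaf_size_le hs1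
    · rw [T.right_node, ← hu, ← hs, ← hi]; exact hcov
  by_cases hall : ∀ e ∈ u.toL, bn e.left ≤ i → ∀ k < s,
      ((nthT e.right k).left ≠ T.leaf ↔ digit (r (bn e.left)).enc k)
  · -- all claims are right
    have hrec' : ∀ k ∈ keysR (RL u i) i, (if k ≤ i then (r k).enc else T.leaf) = RL u i k := by
      intro k hk
      by_cases hki : k ≤ i
      · rw [if_pos hki, RL, if_pos hki]
        obtain ⟨h1, h2⟩ := hcov k hk hki
        obtain ⟨e, he, he1, he2⟩ := hLK.2.2.1 u k h1
        have he3 : bn e.left = k := by rw [he1, bn_bl]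
        symm
        refine hDEC.2.2.2.2 _ _ ?_ ?_
        · rw [h2]; exact (hrec k (by omega)).1
        · intro d hd
          rw [h2] at hd
          rw [he2]
          have := hall e he (by rw [he3]; exact hki) d hd
          rwa [he3] at this
      · rw [if_neg hki, RL, if_neg hki]
    have hkeys := keysR_eq hrec'
    have hrec'' : ∀ k ∈ keysR (fun k => if k ≤ i then (r k).enc else T.leaf) i,
        RL u i k = (fun k => if k ≤ i then (r k).enc else T.leaf) k := by
      intro k hk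
      rw [hkeys] at hk
      exact (hrec' k hk).symm
    have hRr : ∀ k ≤ i, (fun k => if k ≤ i then (r k).enc else T.leaf) k = (r k).enc :=
      fun k hk => if_pos hk
    have hchk : CheckT (RL u i) i :=
      hLK.2.2.2.1 _ _ i hrec'' (check_complete hRr fun k hk => hok k (by omega))
    refine ⟨T.leaf, ?_, hokL, Or.inr (Or.inr (Or.inl ?_))⟩
    · rw [T.right_node, ← hs]; exact leaf_size_le hs1
    · rw [T.left_node, T.right_node, hnL, ← hu, ← hi, ← hN]
      refine ⟨hchk, ?_⟩
      by_cases h1 : i + 1 = L N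
      · right
        have hTX : TX μ fP V.enc D N = (check V (rfn (P c κ) μ N)).enc := by
          rw [TX, eq', hfP, decFm_enc, WE_eq]
        rw [hTX]
        obtain ⟨x, y', s', t, a, b, h6, h7⟩ := hfin
        have h8 : L N - 1 = i := by omega
        rw [h8] at h6
        exact hLK.2.2.2.2 _ _ i _ hrec'' (final_complete hRr (hok i hiL) h6 h7)
      · exact Or.inl h1
  · -- some claim is wrong
    push Not at hall
    obtain ⟨e, he, hei, k, hk, hwrong⟩ := hall
    obtain ⟨hsy1, hsy2⟩ := (hrec (bn e.left) (by omega)).2 k hk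
    obtain ⟨x, hx, hx'⟩ : ∃ x : T, x.size ≤ s ∧ Ref D Z (bn e.left) k (nthT e.right k) x := by
      by_cases hd : digit (r (bn e.left)).enc k
      · obtain ⟨x, hx, hx1⟩ := hsy1 hd
        refine ⟨x, hx, Or.inr ⟨?_, ?_⟩⟩
        · by_contra hne
          rcases hwrong with h1 | h1
          · exact h1.2 hd
          · exact hne h1.1
        · intro z _ hz
          rw [← hs] at hz
          rw [hwin _ (by omega) k hk x z hx hz]
          exact hx1 z hz
      · obtain ⟨x, hx, hx1⟩ := hsy2 hd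
        refine ⟨x, hx, Or.inl ⟨?_, ?_⟩⟩
        · rcases hwrong with h1 | h1
          · exact h1.1
          · exact absurd h1.2 hd
        · intro y _ hy
          rw [← hs] at hy
          rw [hwin _ (by omega) k hk y x hy hx]
          exact hx1 y hy
    refine ⟨x, ?_, hokL, Or.inr (Or.inr (Or.inr ?_))⟩
    · rw [T.right_node, ← hs]; exact hx
    · rw [T.left_node, T.right_node, ← hu]
      exact ⟨e, he, by rw [← hi]; exact hei, k, by rw [← hs]; exact hk, hx'⟩

end Pool.Agent.S2L
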