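import Pool.Agent.S2L.Cod
import Pool.Agent.S2L.Core
import Pool.Agent.S2L.Cover
import Pool.Agent.S2L.Dec
import Pool.Agent.S2L.FinalA
import Pool.Agent.S2L.Lk
import Pool.Agent.S2L.MainB
import Pool.Agent.S2L.Misc
import Pool.Agent.S2L.Prot
import Pool.Agent.S2L.Rel
import Pool.Agent.S2L.Strong
import Pool.Agent.S2L.Th
import Pool.Agent.S2L.Trace
import Pool.Agent.S2L.Truth
import Pool.Agent.PO.SimF

/-!
# Records decided by symmetric games: the two theorems
-/

namespace Pool.Agent.S2L

open Pool.Agent.PO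

theorem CORE : CORE_stmt :=
  CORE_thm (REL_thm LK_thm DEC_thm ALL_thm SIMF_thm) TH_thm (TRUTH_thm LK_thm DEC_thm SIMF_thm)
    (STRONG_thm LK_thm DEC_thm (COVER_thm TREES_thm)) SIMF_thm

/-- No constructions by records decided by symmetric games. -/
theorem mainA : MainA := mainA_of CORE

/-- The reflection conjecture holds, or E is not contained in S₂TIME(2^o(n)). -/
theorem mainB : MainB :=
  mainB_of mainA TRACE_thm PADREC_thm LIN_thm (COD_thm LK_thm DEC_thm) (Prot.PROT_thm DEC_thm)

end Pool.Agent.S2L
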