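import Pool.Agent.S2L.Stmts

/-!
# The machine which writes down the records of a computation

A state is `st K V H n`: control list, value list, history (codes of the records, the last one
first), and the number of records in binary. A tree is represented by an annotated tree: the number
of its record, and a leaf or the pair of the representations of the subtrees. A result of a program
is the pair of the number of the record of the step and an annotated tree.
-/

namespace Pool.Agent.S2L.TRACE

open Pool.Agent.H19 Pool.Agent.H19.T Pool.Agent.RU

/-- The code of the record of a step. -/
def evR (c x y s t : T) : T :=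
  T.node (T.unary 2) (T.node c (T.node (T.node x y) (T.node s t)))

/-- The code of the record of a tree node. -/
def ndR (a b : T) : T := T.node (T.unary 1) (T.node a b)

def inc (c : T) : T := bl (bn c + 1)

def st (K V H n : T) : T := T.node K (T.node V (T.node H n))

/-- Write down the step from `x` to `y`, and return the result `(n, b)`. -/
def fin1 (K V H n c x y s t b : T) : T :=
  st K (T.node (T.node n b) V) (T.node (evR c x y s t) H) (inc n)

def iR (c : T) : T := T.node (T.unary 1) c
def iS (c : T) : T := T.node (T.unary 2) c
def iA (c : T) : T := T.node (T.unary 3) c
def iB (c : T) : T := T.node (T.unary 4) c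
def iF (c x : T) : T := T.node (T.unary 5) (T.node c x)

/-- Write down the tree `x`. -/
def iT (x : T) : T := T.node (T.unary 6) x

/-- Write down the node whose subtrees are the first two values. -/
def iN : T := T.node (T.unary 7) T.leaf

/-- Run the program with code `c` on the annotated tree `V.left`. -/
def runStep (K c V H n s : T) : T :=
  if c.left = T.unary 0 then
    fin1 K V.right H n c V.left.left V.left.left T.leaf T.leaf V.left
  else if c.left = T.unary 1 then
    fin1 K V.right (T.node T.leaf H) (inc n) c V.left.left n T.leaf T.leaf (T.node n T.leaf)
  else if c.left = T.unary 2 then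
    fin1 K V.right H n c V.left.left (tif V.left.right V.left V.left.right.left).left
      T.leaf T.leaf (tif V.left.right V.left V.left.right.left)
  else if c.left = T.unary 3 then
    fin1 K V.right H n c V.left.left (tif V.left.right V.left V.left.right.right).left
      T.leaf T.leaf (tif V.left.right V.left V.left.right.right)
  else if c.left = T.unary 4 then
    st (T.node (iR c.right.left) (T.node (iS c.right.right) (T.node (iF c V.left.left) K)))
      (T.node V.left V) H n
  else if c.left = T.unary 5 then
    st (T.node (iR c.right.right) (T.node (iA c.right.left) (T.node (iF c V.left.left) K)))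
      V H n
  else if c.left = T.unary 6 then
    st (T.node (iR c.right.left) (T.node (iB c.right.right) (T.node (iF c V.left.left) K)))
      (T.node V.left V) H n
  else if c.left = T.unary 7 then
    tif V.left.right (fin1 K V.right H n c V.left.left V.left.left T.leaf T.leaf V.left)
      (tif V.left.right.left.right
        (fin1 K V.right H n c V.left.left V.left.right.right.left T.leaf T.leaf
          V.left.right.right)
        (st (T.node (iR c.right) (T.node (iA c) (T.node (iF c V.left.left) K))) V H n))
  else s

/-- Finish the step of the program with code `c`; the results of the premises are the first two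
values. -/
def finStep (K c x V H n : T) : T :=
  if c.left = T.unary 4 then
    fin1 K V.right.right (T.node (ndR V.right.left.right.left V.left.right.left) H) (inc n) c x n
      V.right.left.left V.left.left (T.node n (T.node V.right.left.right V.left.right))
  else
    fin1 K V.right.right H n c x V.left.right.left V.right.left.left V.left.left V.left.right

/-- One step of the machine. -/
def lStep (s : T) : T :=
  if s.left.left.left = T.unary 1 then
    runStep s.left.right s.left.left.right s.right.left s.right.right.left s.right.right.right s
  else if s.left.left.left = T.unary 2 then
    st (T.node (iR s.left.left.right) s.left.right)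
      (T.node s.right.left.right.left (T.node s.right.left.left s.right.left.right.right))
      s.right.right.left s.right.right.right
  else if s.left.left.left = T.unary 3 then
    st (T.node (iR s.left.left.right) s.left.right)
      (T.node s.right.left.left.right s.right.left) s.right.right.left s.right.right.right
  else if s.left.left.left = T.unary 4 then
    st (T.node (iR (tif s.right.left.left.right.right s.left.left.right.left
        s.left.left.right.right)) s.left.right)
      (T.node s.right.left.right.left (T.node s.right.left.left s.right.left.right.right))
      s.right.right.left s.right.right.right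
  else if s.left.left.left = T.unary 5 then
    finStep s.left.right s.left.left.right.left s.left.left.right.right s.right.left
      s.right.right.left s.right.right.right
  else if s.left.left.left = T.unary 6 then
    tif s.left.left.right
      (st s.left.right (T.node (T.node s.right.right.right T.leaf) s.right.left)
        (T.node T.leaf s.right.right.left) (inc s.right.right.right))
      (st (T.node (iT s.left.left.right.left) (T.node (iT s.left.left.right.right)
        (T.node iN s.left.right))) s.right.left s.right.right.left s.right.right.right)
  else if s.left.left.left = T.unary 7 then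
    st s.left.right (T.node (T.node s.right.right.right (T.node s.right.left.right.left
        s.right.left.left)) s.right.left.right.right)
      (T.node (ndR s.right.left.right.left.left s.right.left.left.left) s.right.right.left)
      (inc s.right.right.right)
  else s

/-! ### The machine is computable in polynomial time -/

theorem inc_poly {f : T → T} (hf : PolyTime f) : PolyTime (fun x => inc (f x)) :=
  PolyN.succ (PolyTime.comp canon_polyTime hf)

theorem st_poly {K V H n : T → T} (hK : PolyTime K) (hV : PolyTime V) (hH : PolyTime H)
    (hn : PolyTime n) : PolyTime (fun x => st (K x) (V x) (H x) (n x)) :=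
  hK.node (hV.node (hH.node hn))

theorem evR_poly {c x y s t : T → T} (hc : PolyTime c) (hx : PolyTime x) (hy : PolyTime y)
    (hs : PolyTime s) (ht : PolyTime t) :
    PolyTime (fun z => evR (c z) (x z) (y z) (s z) (t z)) :=
  (PolyTime.const _).node (hc.node ((hx.node hy).node (hs.node ht)))

theorem fin1_poly {K V H n c x y s t b : T → T} (hK : PolyTime K) (hV : PolyTime V)
    (hH : PolyTime H) (hn : PolyTime n) (hc : PolyTime c) (hx : PolyTime x) (hy : PolyTime y)
    (hs : PolyTime s) (ht : PolyTime t) (hb : PolyTime b) :
    PolyTime (fun z => fin1 (K z) (V z) (H z) (n z) (c z) (x z) (y z) (s z) (t z) (b z)) :=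
  st_poly hK ((hn.node hb).node hV) ((evR_poly hc hx hy hs ht).node hH) (inc_poly hn)

theorem it_poly (k : ℕ) {c : T → T} (hc : PolyTime c) :
    PolyTime (fun x => T.node (T.unary k) (c x)) := (PolyTime.const _).node hc

theorem runStep_poly {K c V H n s : T → T} (hK : PolyTime K) (hc : PolyTime c) (hV : PolyTime V)
    (hH : PolyTime H) (hn : PolyTime n) (hs : PolyTime s) :
    PolyTime (fun z => runStep (K z) (c z) (V z) (H z) (n z) (s z)) := by
  have u : ∀ n : ℕ, PolyTime (fun _ => T.unary n) := fun n => PolyTime.const _
  have L := PolyTime.leaf
  have a := hV.left
  have b1 := a.right.tif a a.right.left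
  have b2 := a.right.tif a a.right.right
  unfold runStep
  exact PolyTime.ifEq hc.left (u 0) (fin1_poly hK hV.right hH hn hc a.left a.left L L a)
    (PolyTime.ifEq hc.left (u 1)
      (fin1_poly hK hV.right (L.node hH) (inc_poly hn) hc a.left hn L L (hn.node L))
    (PolyTime.ifEq hc.left (u 2) (fin1_poly hK hV.right hH hn hc a.left b1.left L L b1)
    (PolyTime.ifEq hc.left (u 3) (fin1_poly hK hV.right hH hn hc a.left b2.left L L b2)
    (PolyTime.ifEq hc.left (u 4) (st_poly ((it_poly 1 hc.right.left).node
        ((it_poly 2 hc.right.right).node ((it_poly 5 (hc.node a.left)).node hK)))
        (a.node hV) hH hn)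
    (PolyTime.ifEq hc.left (u 5) (st_poly ((it_poly 1 hc.right.right).node
        ((it_poly 3 hc.right.left).node ((it_poly 5 (hc.node a.left)).node hK)))
        hV hH hn)
    (PolyTime.ifEq hc.left (u 6) (st_poly ((it_poly 1 hc.right.left).node
        ((it_poly 4 hc.right.right).node ((it_poly 5 (hc.node a.left)).node hK)))
        (a.node hV) hH hn)
    (PolyTime.ifEq hc.left (u 7) (a.right.tif
        (fin1_poly hK hV.right hH hn hc a.left a.left L L a)
        (a.right.left.right.tif
          (fin1_poly hK hV.right hH hn hc a.left a.right.right.left L L a.right.right)
          (st_poly ((it_poly 1 hc.right).node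
            ((it_poly 3 hc).node ((it_poly 5 (hc.node a.left)).node hK))) hV hH hn)))
      hs)))))))

theorem finStep_poly {K c x V H n : T → T} (hK : PolyTime K) (hc : PolyTime c) (hx : PolyTime x)
    (hV : PolyTime V) (hH : PolyTime H) (hn : PolyTime n) :
    PolyTime (fun z => finStep (K z) (c z) (x z) (V z) (H z) (n z)) := by
  unfold finStep
  exact PolyTime.ifEq hc.left (PolyTime.const _)
    (fin1_poly hK hV.right.right ((it_poly 1 (hV.right.left.right.left.node
      hV.left.right.left)).node hH) (inc_poly hn) hc hx hn hV.right.left.left hV.left.left
      (hn.node (hV.right.left.right.node hV.left.right)))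
    (fin1_poly hK hV.right.right hH hn hc hx hV.left.right.left hV.right.left.left hV.left.left
      hV.left.right)

theorem lStep_poly : PolyTime lStep := by
  have i := PolyTime.id
  have u : ∀ n : ℕ, PolyTime (fun _ => T.unary n) := fun n => PolyTime.const _
  have tag := i.left.left.left
  have d := i.left.left.right
  have K := i.left.right
  have V := i.right.left
  have H := i.right.right.left
  have n := i.right.right.right
  exact PolyTime.ifEq tag (u 1) (runStep_poly K d V H n i)
    (PolyTime.ifEq tag (u 2) (st_poly ((it_poly 1 d).node K)
      (V.right.left.node (V.left.node V.right.right)) H n)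
    (PolyTime.ifEq tag (u 3) (st_poly ((it_poly 1 d).node K) (V.left.right.node V) H n)
    (PolyTime.ifEq tag (u 4) (st_poly ((it_poly 1 (V.left.right.right.tif d.left d.right)).node K)
      (V.right.left.node (V.left.node V.right.right)) H n)
    (PolyTime.ifEq tag (u 5) (finStep_poly K d.left d.right V H n)
    (PolyTime.ifEq tag (u 6) (d.tif (st_poly K ((n.node PolyTime.leaf).node V)
        (PolyTime.leaf.node H) (inc_poly n))
      (st_poly ((it_poly 6 d.left).node ((it_poly 6 d.right).node ((PolyTime.const _).node K)))
        V H n))
    (PolyTime.ifEq tag (u 7) (st_poly K ((n.node (V.right.left.node V.left)).node V.right.right)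
      ((it_poly 1 (V.right.left.left.node V.left.left)).node H) (inc_poly n)) i))))))

end Pool.Agent.S2L.TRACE
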