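import Pool.Agent.S2L.Trace1

/-!
# Runs of the machine which writes down the records
-/

namespace Pool.Agent.S2L.TRACE

open Pool.Agent.H19 Pool.Agent.H19.T Pool.Agent.RU

/-- The number of the record of an annotated tree. -/
def num (a : T) : ℕ := bn a.left

/-- The annotated tree `a` has the shape of `x`, and canonical labels of size at most `P`. -/
def Shape (P : ℕ) : T → T → Prop
  | T.leaf, a => (a.left = bl (num a) ∧ a.left.size ≤ P) ∧ a.right = T.leaf
  | T.node x y, a => (a.left = bl (num a) ∧ a.left.size ≤ P) ∧ a.right ≠ T.leaf ∧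
      Shape P x a.right.left ∧ Shape P y a.right.right

/-- The labels of the annotated tree `a` are numbers less than `N` of records describing `x`. -/
def Sem (r : ℕ → Rec) (N : ℕ) : T → T → Prop
  | T.leaf, a => num a < N ∧ r (num a) = Rec.leaf
  | T.node x y, a => num a < N ∧ r (num a) = Rec.node (num a.right.left) (num a.right.right) ∧
      Sem r N x a.right.left ∧ Sem r N y a.right.right

theorem Shape.label {P : ℕ} {x a : T} (h : Shape P x a) : a.left = bl (num a) ∧
    a.left.size ≤ P := by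
  cases x <;> exact h.1

theorem Shape.size {P : ℕ} : ∀ {x a : T}, Shape P x a → a.size ≤ x.size * (P + 3)
  | T.leaf, a, h => by
    obtain ⟨⟨_, h1⟩, h2⟩ := h
    cases a with
    | leaf => simp only [T.size]; omega
    | node l r =>
      simp only [T.left_node, T.right_node] at h1 h2
      subst h2
      simp only [T.size]
      omega
  | T.node x y, a, h => by
    obtain ⟨⟨_, h1⟩, h2, h3, h4⟩ := h
    have h5 := Shape.size h3
    have h6 := Shape.size h4
    cases a with
    | leaf => exact absurd rfl h2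
    | node l r =>
      simp only [T.left_node, T.right_node] at h1 h2 h5 h6
      cases r with
      | leaf => exact absurd rfl h2
      | node u v =>
        simp only [T.left_node, T.right_node] at h5 h6
        have e : (T.node x y).size * (P + 3) = x.size * (P + 3) + y.size * (P + 3) + (P + 3) := by
          simp only [T.size]; ring
        rw [e]
        simp only [T.size]
        omega

theorem Sem.lt {r : ℕ → Rec} {N : ℕ} {x a : T} (h : Sem r N x a) : num a < N := by
  cases x <;> exact h.1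

theorem Sem.mono {r : ℕ → Rec} {N N' : ℕ} (hN : N ≤ N') : ∀ {x a : T}, Sem r N x a → Sem r N' x a
  | T.leaf, _, h => ⟨h.1.trans_le hN, h.2⟩
  | T.node _ _, _, h => ⟨h.1.trans_le hN, h.2.1, Sem.mono hN h.2.2.1, Sem.mono hN h.2.2.2⟩

theorem Sem.isTree {r : ℕ → Rec} {N : ℕ} {x a : T} (h : Sem r N x a) : IsTree r (num a) := by
  cases x with
  | leaf => exact Or.inl h.2
  | node x y => exact Or.inr ⟨_, _, h.2.1⟩

/-! ### Runs -/

def LRun (B : ℕ) (s : T) (n : ℕ) (s' : T) : Prop :=
  lStep^[n] s = s' ∧ ∀ i, i ≤ n → (lStep^[i] s).size ≤ B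

theorem LRun.refl {B : ℕ} {s : T} (h : s.size ≤ B) : LRun B s 0 s :=
  ⟨rfl, fun i hi => by
    obtain rfl : i = 0 := by omega
    simpa using h⟩

theorem LRun.step {B : ℕ} {s : T} {n : ℕ} {s' : T}
    (h2 : s.size ≤ B) (h : LRun B (lStep s) n s') : LRun B s (n + 1) s' := by
  obtain ⟨ha, hc⟩ := h
  refine ⟨by rw [Function.iterate_succ_apply]; exact ha, fun i hi => ?_⟩
  cases i with
  | zero => simpa using h2
  | succ i => rw [Function.iterate_succ_apply]; exact hc i (by omega)

theorem LRun.trans {B : ℕ} {s s' s'' : T} {n m : ℕ} (h : LRun B s n s')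
    (h' : LRun B s' m s'') : LRun B s (m + n) s'' := by
  obtain ⟨ha, hc⟩ := h
  obtain ⟨ha', hc'⟩ := h'
  refine ⟨by rw [Function.iterate_add_apply, ha, ha'], fun i hi => ?_⟩
  by_cases hin : i ≤ n
  · exact hc i hin
  · obtain ⟨j, rfl⟩ : ∃ j, i = j + n := ⟨i - n, by omega⟩
    rw [Function.iterate_add_apply, ha]; exact hc' j (by omega)

theorem LRun.one {B : ℕ} {s s' : T} (h2 : s.size ≤ B) (h : lStep s = s') (h3 : s'.size ≤ B) :
    LRun B s 1 s' :=
  LRun.step h2 (h ▸ LRun.refl (h ▸ h3))

/-! ### Histories -/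

/-- The history after writing down the records in the list. -/
def hcat : List Rec → T → T
  | [], H => H
  | ρ :: l, H => hcat l (T.node ρ.enc H)

theorem hcat_append (l l' : List Rec) (H : T) : hcat (l ++ l') H = hcat l' (hcat l H) := by
  induction l generalizing H with
  | nil => rfl
  | cons ρ l ih => exact ih _

theorem hcat_one (ρ : Rec) (H : T) : hcat [ρ] H = T.node ρ.enc H := rfl

theorem evR_eq (c : Code) (x y s t : ℕ) :
    evR c.enc (bl x) (bl y) (bl s) (bl t) = (Rec.eval c x y s t).enc := rfl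

theorem ndR_eq (a b : ℕ) : ndR (bl a) (bl b) = (Rec.node a b).enc := rfl

theorem inc_bl (n : ℕ) : inc (bl n) = bl (n + 1) := by simp [inc]

theorem eval_size {c : Code} {x y s t P : ℕ} (hx : (bl x).size ≤ P) (hy : (bl y).size ≤ P)
    (hs : (bl s).size ≤ P) (ht : (bl t).size ≤ P) :
    (Rec.eval c x y s t).enc.size ≤ c.enc.size + 4 * P + 20 := by
  simp only [Rec.enc, T.size, T.size_unary]
  omega

/-- The size of the program in a record. -/
def codeSize : Rec → ℕ
  | Rec.leaf => 0
  | Rec.node _ _ => 0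
  | Rec.eval c _ _ _ _ => c.enc.size

/-- The claim on the computations of `c` from `x` to `y` at cost `t`. -/
def Good (c : Code) (x y : T) (t : ℕ) : Prop :=
  ∀ (P M N B : ℕ) (K S H a : T), (∀ n ≤ N + 2 * t, (bl n).size ≤ P) →
    8 * c.enc.size + 4 * ((x.size + t) * (P + 3)) + 20 * P + 200 ≤ M → Shape P x a →
    K.size + S.size + H.size + 2 * ((t + 1) * M) ≤ B →
    ∃ (h : List Rec) (b : T) (m : ℕ), m ≤ 4 * t ∧ h.length ≤ 2 * t ∧ h ≠ [] ∧
      (hcat h H).size ≤ H.size + t * M ∧
      LRun B (st (T.node (iR c.enc) K) (T.node a S) H (bl N)) m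
        (st K (T.node (T.node (bl (N + h.length - 1)) b) S) (hcat h H) (bl (N + h.length))) ∧
      Shape P y b ∧ (∀ ρ ∈ h, codeSize ρ ≤ c.enc.size) ∧
      ∀ r : ℕ → Rec, (∀ i (hi : i < h.length), r (N + i) = h[i]) → Sem r N x a → 0 < N →
        (∀ i, N ≤ i → i < N + h.length → Ok r i) ∧ Sem r (N + h.length) y b ∧
          Ev r (N + h.length - 1) c (num a) (num b)

/-- Programs which finish in one step and write down one record. -/
theorem good_base {c : Code} {x y : T} {t : ℕ} (hy : y.size ≤ t) (ht : 1 ≤ t)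
    (hstep : ∀ (P N : ℕ) (K S H a : T), Shape P x a → ∃ b : T, Shape P y b ∧
      lStep (st (T.node (iR c.enc) K) (T.node a S) H (bl N)) =
        st K (T.node (T.node (bl N) b) S) (T.node (evR c.enc a.left b.left T.leaf T.leaf) H)
          (inc (bl N)) ∧
      ∀ r, Sem r N x a → Sem r N y b ∧ Rule r c (num a) (num b) 0 0) :
    Good c x y t := by
  intro P M N B K S H a hP hM ha hB
  obtain ⟨b, hb, hst, hsem⟩ := hstep P N K S H a ha
  have hN := hP N (by omega)
  have hN1 := hP (N + 1) (by omega)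
  have h0 := hP 0 (by omega)
  obtain ⟨la, sa⟩ := ha.label
  obtain ⟨lb, sb⟩ := hb.label
  have za := ha.size
  have zb := hb.size
  obtain ⟨q, hq⟩ : ∃ q, q = (x.size + t) * (P + 3) := ⟨_, rfl⟩
  have hxq : x.size * (P + 3) ≤ q := by rw [hq]; exact Nat.mul_le_mul_right _ (by omega)
  have hyq : y.size * (P + 3) ≤ q := by rw [hq]; exact Nat.mul_le_mul_right _ (by omega)
  rw [← hq] at hM
  have hMt : M ≤ t * M := Nat.le_mul_of_pos_left _ (by omega)
  have hMM : (t + 1) * M = t * M + M := by ring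
  rw [hMM] at hB
  have hrec : (Rec.eval c (num a) (num b) 0 0).enc.size ≤ c.enc.size + 4 * P + 20 :=
    eval_size (by rw [← la]; exact sa) (by rw [← lb]; exact sb) h0 h0
  have e1 : T.node (evR c.enc a.left b.left T.leaf T.leaf) H =
      hcat [Rec.eval c (num a) (num b) 0 0] H := by
    rw [hcat_one, ← evR_eq, ← la, ← lb, bl_zero]
  refine ⟨[Rec.eval c (num a) (num b) 0 0], b, 1, by omega, by simp; omega, by simp, ?_, ?_, hb,
    ?_, ?_⟩
  · rw [hcat_one]
    simp only [T.size]
    omega
  · refine LRun.one ?_ ?_ ?_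
    · simp only [st, iR, T.size, T.size_unary]; omega
    · rw [hst, e1, inc_bl]; rfl
    · rw [hcat_one]
      simp only [st, T.size, List.length_singleton, Nat.add_sub_cancel]
      omega
  · intro ρ hρ
    simp only [List.mem_singleton] at hρ
    rw [hρ]
    exact le_rfl
  · intro r hr hs hN0
    have hrN := hr 0 (by simp)
    simp only [List.getElem_cons_zero, Nat.add_zero] at hrN
    obtain ⟨h1, h2⟩ := hsem r hs
    refine ⟨fun i hi1 hi2 => ?_, h1.mono (by simp), ?_⟩
    · simp only [List.length_singleton] at hi2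
      obtain rfl : i = N := by omega
      unfold Ok
      rw [hrN]
      exact ⟨⟨hs.lt, hs.isTree⟩, ⟨h1.lt, h1.isTree⟩, hN0, hN0, h2⟩
    · simp only [List.length_singleton, Nat.add_sub_cancel]
      exact ⟨0, 0, hrN⟩

theorem good_id (x : T) : Good Code.id x x x.size := by
  refine good_base le_rfl (T.size_pos x) fun P N K S H a ha => ⟨a, ha, ?_, fun r hs =>
    ⟨hs, rfl⟩⟩
  simp [lStep, st, iR, runStep, fin1, Code.enc, T.unary]

theorem good_fst (x : T) : Good Code.fst x x.left x.size := by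
  refine good_base (T.size_left_le x) (T.size_pos x) fun P N K S H a ha => ?_
  cases x with
  | leaf =>
    refine ⟨a, ha, ?_, fun r hs => ⟨hs, Or.inl ⟨hs.2, hs.2⟩⟩⟩
    obtain ⟨_, h2⟩ := ha
    simp [lStep, st, iR, runStep, fin1, Code.enc, T.unary, h2]
  | node x1 x2 =>
    refine ⟨a.right.left, ha.2.2.1, ?_, fun r hs => ⟨hs.2.2.1, Or.inr ⟨_, hs.2.1⟩⟩⟩
    obtain ⟨_, h2, _⟩ := ha
    simp [lStep, st, iR, runStep, fin1, Code.enc, T.unary, tif, h2]

theorem good_snd (x : T) : Good Code.snd x x.right x.size := by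
  refine good_base (T.size_right_le x) (T.size_pos x) fun P N K S H a ha => ?_
  cases x with
  | leaf =>
    refine ⟨a, ha, ?_, fun r hs => ⟨hs, Or.inl ⟨hs.2, hs.2⟩⟩⟩
    obtain ⟨_, h2⟩ := ha
    simp [lStep, st, iR, runStep, fin1, Code.enc, T.unary, h2]
  | node x1 x2 =>
    refine ⟨a.right.right, ha.2.2.2, ?_, fun r hs => ⟨hs.2.2.2, Or.inr ⟨_, hs.2.1⟩⟩⟩
    obtain ⟨_, h2, _⟩ := ha
    simp [lStep, st, iR, runStep, fin1, Code.enc, T.unary, tif, h2]

theorem good_loop_stop {f : Code} {x : T} (hx : x.left = T.leaf) :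
    Good (Code.loop f) x x.right (x.size + 1) := by
  refine good_base (by have := T.size_right_le x; omega) (by omega) fun P N K S H a ha => ?_
  cases x with
  | leaf =>
    refine ⟨a, ha, ?_, fun r hs => ⟨hs, Or.inl ⟨hs.2, hs.2⟩⟩⟩
    obtain ⟨_, h2⟩ := ha
    simp [lStep, st, iR, runStep, fin1, Code.enc, T.unary, h2]
  | node x1 x2 =>
    simp only [T.left_node] at hx
    subst hx
    obtain ⟨_, h2, h3, h4⟩ := ha
    refine ⟨a.right.right, h4, ?_, fun r hs => ⟨hs.2.2.2, Or.inr (Or.inl ⟨_, hs.2.1,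
      hs.2.2.1.2⟩)⟩⟩
    have h5 := h3.2
    simp [lStep, st, iR, runStep, fin1, Code.enc, T.unary, tif, h2, h5]

theorem good_leaf (x : T) : Good Code.leaf x T.leaf 1 := by
  intro P M N B K S H a hP hM ha hB
  have hN := hP N (by omega)
  have hN1 := hP (N + 1) (by omega)
  have hN2 := hP (N + 2) (by omega)
  have h0 := hP 0 (by omega)
  obtain ⟨la, sa⟩ := ha.label
  have za := ha.size
  obtain ⟨q, hq⟩ : ∃ q, q = (x.size + 1) * (P + 3) := ⟨_, rfl⟩
  have hxq : x.size * (P + 3) ≤ q := by rw [hq]; exact Nat.mul_le_mul_right _ (by omega)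
  rw [← hq] at hM
  have hrec : (Rec.eval Code.leaf (num a) N 0 0).enc.size ≤ Code.leaf.enc.size + 4 * P + 20 :=
    eval_size (by rw [← la]; exact sa) hN h0 h0
  have e1 : T.node (evR Code.leaf.enc a.left (bl N) T.leaf T.leaf) (T.node T.leaf H) =
      hcat [Rec.leaf, Rec.eval Code.leaf (num a) N 0 0] H := by
    show _ = T.node (Rec.eval Code.leaf (num a) N 0 0).enc (T.node Rec.leaf.enc H)
    rw [← evR_eq, ← la, bl_zero]
    rfl
  have e2 : (hcat [Rec.leaf, Rec.eval Code.leaf (num a) N 0 0] H).size =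
      (Rec.eval Code.leaf (num a) N 0 0).enc.size + (1 + H.size + 1) + 1 := rfl
  refine ⟨[Rec.leaf, Rec.eval Code.leaf (num a) N 0 0], T.node (bl N) T.leaf, 1, by omega,
    by simp, by simp, ?_, ?_, ?_, ?_, ?_⟩
  · rw [e2]
    omega
  · refine LRun.one ?_ ?_ ?_
    · simp only [st, iR, T.size, T.size_unary]; omega
    · have e3 : lStep (st (T.node (iR Code.leaf.enc) K) (T.node a S) H (bl N)) =
          st K (T.node (T.node (inc (bl N)) (T.node (bl N) T.leaf)) S)
            (T.node (evR Code.leaf.enc a.left (bl N) T.leaf T.leaf) (T.node T.leaf H))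
            (inc (inc (bl N))) := by
        simp [lStep, st, iR, runStep, fin1, Code.enc, T.unary]
      rw [e3, e1, inc_bl, inc_bl]
      rfl
    · simp only [st, T.size, List.length_cons, List.length_nil]
      rw [e2, show N + (0 + 1 + 1) - 1 = N + 1 by omega, show N + (0 + 1 + 1) = N + 2 by omega]
      omega
  · refine ⟨⟨?_, ?_⟩, rfl⟩
    · simp [num]
    · simpa using hN
  · intro ρ hρ
    simp only [List.mem_cons, List.not_mem_nil, or_false] at hρ
    rcases hρ with rfl | rfl
    · exact Nat.zero_le _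
    · exact le_rfl
  · intro r hr hs hN0
    have hr0 := hr 0 (by simp)
    have hr1 := hr 1 (by simp)
    simp only [List.getElem_cons_zero, List.getElem_cons_succ, Nat.add_zero] at hr0 hr1
    have hnum : num (T.node (bl N) T.leaf) = N := by simp [num]
    have hl : [Rec.leaf, Rec.eval Code.leaf (num a) N 0 0].length = 2 := rfl
    rw [hl]
    refine ⟨fun i hi1 hi2 => ?_, ⟨by rw [hnum]; omega, by rw [hnum]; exact hr0⟩, ?_⟩
    · rcases (show i = N ∨ i = N + 1 by omega) with rfl | rfl
      · unfold Ok; rw [hr0]; trivial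
      · unfold Ok
        rw [hr1]
        exact ⟨⟨by have := hs.lt; omega, hs.isTree⟩, ⟨by omega, Or.inl hr0⟩, by omega, by omega,
          hr0⟩
    · rw [hnum]
      exact ⟨0, 0, hr1⟩

end Pool.Agent.S2L.TRACE
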