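import Pool.Agent.S2L.Trace2

/-!
# Runs of the machine which writes down the records: composed programs
-/

namespace Pool.Agent.S2L.TRACE

open Pool.Agent.H19 Pool.Agent.H19.T Pool.Agent.RU

/-- Two premises in a row. `dup` says whether the second program is started on the same input. -/
theorem two {c c1 c2 : Code} {x z x2 y2 : T} {s t : ℕ} (dup : Bool) (I : T)
    (hx2 : x2 = if dup then x else z)
    (E1 : Eval c1 x z s) (E2 : Eval c2 x2 y2 t) (h1 : Good c1 x z s) (h2 : Good c2 x2 y2 t)
    (hc1 : c1.enc.size ≤ c.enc.size) (hc2 : c2.enc.size ≤ c.enc.size)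
    (hI : I.size ≤ c.enc.size + 30)
    (hst1 : ∀ (P : ℕ) (K S H n a : T), Shape P x a →
      lStep (st (T.node (iR c.enc) K) (T.node a S) H n) =
        st (T.node (iR c1.enc) (T.node I (T.node (iF c.enc a.left) K)))
          (T.node a (if dup then T.node a S else S)) H n)
    (hst2 : ∀ (P : ℕ) (K S H n a b n' : T), Shape P z b →
      lStep (st (T.node I K) (T.node (T.node n' b) (if dup then T.node a S else S)) H n) =
        st (T.node (iR c2.enc) K) (T.node (if dup then a else b) (T.node (T.node n' b) S)) H n) :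
    ∀ (P M N B : ℕ) (K S H a : T), (∀ n ≤ N + 2 * (s + t), (bl n).size ≤ P) →
    8 * c.enc.size + 4 * ((x.size + (s + t + 1)) * (P + 3)) + 20 * P + 200 ≤ M → Shape P x a →
    K.size + S.size + H.size + 2 * ((s + t + 1 + 1) * M) ≤ B →
    ∃ (h : List Rec) (l1 : ℕ) (b1 b2 : T) (m : ℕ), m ≤ 4 * (s + t) + 2 ∧ 0 < l1 ∧
      l1 < h.length ∧ h.length ≤ 2 * (s + t) ∧
      (hcat h H).size ≤ H.size + (s + t) * M ∧
      LRun B (st (T.node (iR c.enc) K) (T.node a S) H (bl N)) m
        (st (T.node (iF c.enc a.left) K) (T.node (T.node (bl (N + h.length - 1)) b2)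
          (T.node (T.node (bl (N + l1 - 1)) b1) S)) (hcat h H) (bl (N + h.length))) ∧
      Shape P z b1 ∧ Shape P y2 b2 ∧ (∀ ρ ∈ h, codeSize ρ ≤ c.enc.size) ∧
      ∀ r : ℕ → Rec, (∀ i (hi : i < h.length), r (N + i) = h[i]) → Sem r N x a → 0 < N →
        (∀ i, N ≤ i → i < N + h.length → Ok r i) ∧ Sem r (N + l1) z b1 ∧
          Sem r (N + h.length) y2 b2 ∧ Ev r (N + l1 - 1) c1 (num a) (num b1) ∧
          Ev r (N + h.length - 1) c2 (num (if dup then a else b1)) (num b2) := by
  intro P M N B K S H a hP hM ha hB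
  obtain ⟨la, sa⟩ := ha.label
  have za := ha.size
  have zs := E1.size_le
  have zt := E2.size_le
  obtain ⟨q, hq⟩ : ∃ q, q = (x.size + (s + t + 1)) * (P + 3) := ⟨_, rfl⟩
  have hmul : ∀ k, k ≤ x.size + (s + t + 1) → k * (P + 3) ≤ q := fun k hk => by
    rw [hq]; exact Nat.mul_le_mul_right _ hk
  have hxq := hmul x.size (by omega)
  have hzq := hmul z.size (by omega)
  have hx2s : x2.size + t ≤ x.size + (s + t + 1) := by
    rw [hx2]; cases dup <;> simp <;> omega
  rw [← hq] at hM
  have hMM : (s + t + 1 + 1) * M = s * M + t * M + 2 * M := by ring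
  rw [hMM] at hB
  have hN := hP N (by omega)
  -- the first run
  have hS1 : (if dup then T.node a S else S).size ≤ S.size + a.size + 1 := by
    cases dup
    · simp only [Bool.false_eq_true, if_false]; omega
    · simp only [if_true, T.size]; omega
  have hMs : (s + 1) * M = s * M + M := by ring
  have hMt : (t + 1) * M = t * M + M := by ring
  have hsM : M ≤ s * M := Nat.le_mul_of_pos_left _ (by have := E1.cost_pos; omega)
  obtain ⟨l1, b1, m1, hm1, hl1, hn1, hH1, run1, hb1, hr1, sem1⟩ := h1 P M N B
    (T.node I (T.node (iF c.enc a.left) K)) (if dup then T.node a S else S) H a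
    (fun n hn => hP n (by omega))
    (by have := hmul (x.size + s) (by omega); omega) ha
    (by rw [hMs]; simp only [iF, T.size, T.size_unary]; omega)
  have hlen1 : 0 < l1.length := List.length_pos_of_ne_nil hn1
  obtain ⟨lb1, sb1⟩ := hb1.label
  have zb1 := hb1.size
  have hNl1 := hP (N + l1.length) (by omega)
  have hNl1' := hP (N + l1.length - 1) (by omega)
  -- the second run
  have ha2 : Shape P x2 (if dup then a else b1) := by
    rw [hx2]; cases dup
    · exact hb1
    · exact ha
  obtain ⟨l2, b2, m2, hm2, hl2, hn2, hH2, run2, hb2, hr2, sem2⟩ := h2 P M (N + l1.length) B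
    (T.node (iF c.enc a.left) K) (T.node (T.node (bl (N + l1.length - 1)) b1) S) (hcat l1 H)
    (if dup then a else b1) (fun n hn => hP n (by omega))
    (by have := hmul (x2.size + t) hx2s; omega) ha2
    (by rw [hMt]; simp only [iF, T.size, T.size_unary]; omega)
  have hlen2 : 0 < l2.length := List.length_pos_of_ne_nil hn2
  obtain ⟨la2, sa2⟩ := ha2.label
  have za2 := ha2.size
  have hx2q := hmul x2.size (by omega)
  have hz1 : (st (T.node (iR c.enc) K) (T.node a S) H (bl N)).size ≤ B := by
    simp only [st, iR, T.size, T.size_unary]; omega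
  have hz2 : (st (T.node I (T.node (iF c.enc a.left) K))
      (T.node (T.node (bl (N + l1.length - 1)) b1) (if dup then T.node a S else S))
      (hcat l1 H) (bl (N + l1.length))).size ≤ B := by
    simp only [st, iF, T.size, T.size_unary]; omega
  have hz3 : (st (T.node (iR c2.enc) (T.node (iF c.enc a.left) K))
      (T.node (if dup then a else b1) (T.node (T.node (bl (N + l1.length - 1)) b1) S))
      (hcat l1 H) (bl (N + l1.length))).size ≤ B := by
    simp only [st, iF, iR, T.size, T.size_unary]; omega
  have hlen : (l1 ++ l2).length = l1.length + l2.length := List.length_append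
  refine ⟨l1 ++ l2, l1.length, b1, b2, m2 + (1 + m1) + 1, by omega, hlen1, by omega, by omega,
    ?_, ?_, hb1, hb2, ?_, ?_⟩
  · rw [hcat_append]
    have : (s + t) * M = s * M + t * M := by ring
    omega
  · refine LRun.step hz1 ?_
    rw [hst1 P K S H (bl N) a ha]
    refine LRun.trans (LRun.trans run1 (LRun.one hz2 (hst2 P _ S _ _ a b1 _ hb1) hz3)) ?_
    rw [hcat_append, hlen, ← Nat.add_assoc]
    exact run2
  · intro ρ hρ
    rcases List.mem_append.1 hρ with h | h
    · have := hr1 ρ h; omega
    · have := hr2 ρ h; omega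
  · intro r hr hs hN0
    obtain ⟨ok1, s1, e1⟩ := sem1 r (fun i hi => by
      rw [hr i (by omega), List.getElem_append_left]) hs hN0
    have hs2 : Sem r (N + l1.length) x2 (if dup then a else b1) := by
      rw [hx2]; cases dup
      · exact s1
      · exact hs.mono (by omega)
    obtain ⟨ok2, s2, e2⟩ := sem2 r (fun i hi => by
      rw [Nat.add_assoc, hr (l1.length + i) (by omega), List.getElem_append_right (by omega)]
      simp) hs2 (by omega)
    rw [hlen, ← Nat.add_assoc]
    refine ⟨fun i hi1 hi2 => ?_, s1, s2, e1, e2⟩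
    rcases Nat.lt_or_ge i (N + l1.length) with h | h
    · exact ok1 i hi1 h
    · exact ok2 i h hi2

/-- Composed programs except `pair`. -/
theorem good_two {c c1 c2 : Code} {x z x2 y : T} {s t : ℕ} (dup : Bool) (I : T)
    (hx2 : x2 = if dup then x else z) (hpair : c.enc.left ≠ T.unary 4)
    (E1 : Eval c1 x z s) (E2 : Eval c2 x2 y t) (h1 : Good c1 x z s) (h2 : Good c2 x2 y t)
    (hc1 : c1.enc.size ≤ c.enc.size) (hc2 : c2.enc.size ≤ c.enc.size)
    (hI : I.size ≤ c.enc.size + 30)
    (hst1 : ∀ (P : ℕ) (K S H n a : T), Shape P x a →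
      lStep (st (T.node (iR c.enc) K) (T.node a S) H n) =
        st (T.node (iR c1.enc) (T.node I (T.node (iF c.enc a.left) K)))
          (T.node a (if dup then T.node a S else S)) H n)
    (hst2 : ∀ (P : ℕ) (K S H n a b n' : T), Shape P z b →
      lStep (st (T.node I K) (T.node (T.node n' b) (if dup then T.node a S else S)) H n) =
        st (T.node (iR c2.enc) K) (T.node (if dup then a else b) (T.node (T.node n' b) S)) H n)
    (hrule : ∀ (r : ℕ → Rec) (N N' k k' : ℕ) (a b1 b2 : T), Sem r N x a → Sem r N' z b1 →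
      Ev r k c1 (num a) (num b1) → Ev r k' c2 (num (if dup then a else b1)) (num b2) →
      Rule r c (num a) (num b2) k k') :
    Good c x y (s + t + 1) := by
  intro P M N B K S H a hP hM ha hB
  obtain ⟨h, l1, b1, b2, m, hm, hl1, hl1', hl, hH, run, hb1, hb2, hr, sem⟩ :=
    two (c := c) dup I hx2 E1 E2 h1 h2 hc1 hc2 hI hst1 hst2 P M N B K S H a
      (fun n hn => hP n (by omega)) hM ha hB
  obtain ⟨la, sa⟩ := ha.label
  obtain ⟨lb1, sb1⟩ := hb1.label
  obtain ⟨lb2, sb2⟩ := hb2.label
  have za := ha.size
  have zb1 := hb1.size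
  have zb2 := hb2.size
  have zs := E1.size_le
  have zt := E2.size_le
  obtain ⟨q, hq⟩ : ∃ q, q = (x.size + (s + t + 1)) * (P + 3) := ⟨_, rfl⟩
  have hmul : ∀ k, k ≤ x.size + (s + t + 1) → k * (P + 3) ≤ q := fun k hk => by
    rw [hq]; exact Nat.mul_le_mul_right _ hk
  have hzq := hmul z.size (by omega)
  have hyq := hmul y.size (by omega)
  rw [← hq] at hM
  have hMM : (s + t + 1 + 1) * M = (s + t) * M + 2 * M := by ring
  have hM1 : (s + t + 1) * M = (s + t) * M + M := by ring
  rw [hMM] at hB
  have p1 := hP (N + h.length) (by omega)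
  have p2 := hP (N + h.length - 1) (by omega)
  have p3 := hP (N + l1 - 1) (by omega)
  have p4 := hP (N + h.length + 1) (by omega)
  have hrec : (Rec.eval c (num a) (num b2) (N + l1 - 1) (N + h.length - 1)).enc.size ≤
      c.enc.size + 4 * P + 20 :=
    eval_size (by rw [← la]; exact sa) (by rw [← lb2]; exact sb2) p3 p2
  have e1 : T.node (evR c.enc a.left b2.left (bl (N + l1 - 1)) (bl (N + h.length - 1)))
      (hcat h H) = hcat (h ++ [Rec.eval c (num a) (num b2) (N + l1 - 1) (N + h.length - 1)])
        H := by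
    rw [hcat_append, hcat_one, ← evR_eq, ← la, ← lb2]
  have hlen : (h ++ [Rec.eval c (num a) (num b2) (N + l1 - 1) (N + h.length - 1)]).length =
      h.length + 1 := by simp
  refine ⟨h ++ [Rec.eval c (num a) (num b2) (N + l1 - 1) (N + h.length - 1)], b2, m + 1,
    by omega, by omega, by simp, ?_, ?_, hb2, ?_, ?_⟩
  · rw [hcat_append, hcat_one, hM1]
    simp only [T.size]
    omega
  · have hsz : (st (T.node (iF c.enc a.left) K) (T.node (T.node (bl (N + h.length - 1)) b2)
        (T.node (T.node (bl (N + l1 - 1)) b1) S)) (hcat h H) (bl (N + h.length))).size ≤ B := by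
      simp only [st, iF, T.size, T.size_unary]; omega
    rw [Nat.add_comm]
    refine LRun.trans run (LRun.one hsz ?_ ?_)
    · rw [hlen, ← e1]
      have : lStep (st (T.node (iF c.enc a.left) K) (T.node (T.node (bl (N + h.length - 1)) b2)
          (T.node (T.node (bl (N + l1 - 1)) b1) S)) (hcat h H) (bl (N + h.length))) =
          st K (T.node (T.node (bl (N + h.length)) b2) S)
            (T.node (evR c.enc a.left b2.left (bl (N + l1 - 1)) (bl (N + h.length - 1)))
              (hcat h H)) (inc (bl (N + h.length))) := by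
        simp only [T.unary] at hpair
        simp [lStep, st, iF, finStep, fin1, T.unary, hpair]
      rw [this, inc_bl]
      rfl
    · rw [hcat_append, hcat_one, hlen, ← Nat.add_assoc, Nat.add_sub_cancel]
      simp only [st, T.size]
      omega
  · intro ρ hρ
    rcases List.mem_append.1 hρ with h' | h'
    · exact hr ρ h'
    · rw [List.mem_singleton.1 h']
      exact le_rfl
  · intro r hrr hs hN0
    have hlast := hrr h.length (by omega)
    rw [List.getElem_append_right (by omega)] at hlast
    simp only [Nat.sub_self, List.getElem_cons_zero] at hlast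
    obtain ⟨ok, s1, s2, ev1, ev2⟩ := sem r (fun i hi => by
      rw [hrr i (by omega), List.getElem_append_left]) hs hN0
    rw [hlen, ← Nat.add_assoc, Nat.add_sub_cancel]
    refine ⟨fun i hi1 hi2 => ?_, s2.mono (by omega), ⟨_, _, hlast⟩⟩
    rcases Nat.lt_or_ge i (N + h.length) with h' | h'
    · exact ok i hi1 h'
    · obtain rfl : i = N + h.length := by omega
      unfold Ok
      rw [hlast]
      exact ⟨⟨by have := hs.lt; omega, hs.isTree⟩, ⟨s2.lt, s2.isTree⟩, by omega, by omega,
        hrule r N (N + l1) _ _ a b1 b2 hs s1 ev1 ev2⟩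

theorem good_pair {f g : Code} {x a' b' : T} {s t : ℕ} (E1 : Eval f x a' s) (E2 : Eval g x b' t)
    (h1 : Good f x a' s) (h2 : Good g x b' t) :
    Good (Code.pair f g) x (T.node a' b') (s + t + 1) := by
  intro P M N B K S H a hP hM ha hB
  have hE : (Code.pair f g).enc.size = f.enc.size + g.enc.size + 11 := by
    simp only [T.size, Code.enc, T.unary]; omega
  obtain ⟨h, l1, b1, b2, m, hm, hl1, hl1', hl, hH, run, hb1, hb2, hr, sem⟩ :=
    two (c := Code.pair f g) true (iS g.enc) rfl E1 E2 h1 h2 (by omega) (by omega)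
      (by simp only [iS, T.size, T.size_unary]; omega)
      (fun P K S H n a ha => by
        simp [lStep, st, iR, iS, iF, runStep, Code.enc, T.unary])
      (fun P K S H n a b n' hb => by
        simp [lStep, st, iR, iS, T.unary])
      P M N B K S H a (fun n hn => hP n (by omega)) hM ha hB
  obtain ⟨la, sa⟩ := ha.label
  obtain ⟨lb1, sb1⟩ := hb1.label
  obtain ⟨lb2, sb2⟩ := hb2.label
  have za := ha.size
  have zb1 := hb1.size
  have zb2 := hb2.size
  have zs := E1.size_le
  have zt := E2.size_le
  obtain ⟨q, hq⟩ : ∃ q, q = (x.size + (s + t + 1)) * (P + 3) := ⟨_, rfl⟩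
  have hmul : ∀ k, k ≤ x.size + (s + t + 1) → k * (P + 3) ≤ q := fun k hk => by
    rw [hq]; exact Nat.mul_le_mul_right _ hk
  have hzq := hmul a'.size (by omega)
  have hyq := hmul b'.size (by omega)
  rw [← hq] at hM
  have hMM : (s + t + 1 + 1) * M = (s + t) * M + 2 * M := by ring
  have hM1 : (s + t + 1) * M = (s + t) * M + M := by ring
  rw [hMM] at hB
  have p1 := hP (N + h.length) (by omega)
  have p2 := hP (N + h.length - 1) (by omega)
  have p3 := hP (N + l1 - 1) (by omega)
  have p4 := hP (N + h.length + 1) (by omega)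
  have p5 := hP (N + h.length + 2) (by omega)
  have hrec : (Rec.eval (Code.pair f g) (num a) (N + h.length) (N + l1 - 1)
      (N + h.length - 1)).enc.size ≤ (Code.pair f g).enc.size + 4 * P + 20 :=
    eval_size (by rw [← la]; exact sa) p1 p3 p2
  have hrec2 : (Rec.node (num b1) (num b2)).enc.size ≤ (Code.pair f g).enc.size + 4 * P + 20 := by
    rw [← ndR_eq, ← lb1, ← lb2]
    simp only [ndR, T.size, T.size_unary]
    omega
  obtain ⟨ρ1, hρ1⟩ : ∃ ρ, ρ = Rec.node (num b1) (num b2) := ⟨_, rfl⟩
  obtain ⟨ρ2, hρ2⟩ : ∃ ρ, ρ = Rec.eval (Code.pair f g) (num a) (N + h.length) (N + l1 - 1)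
    (N + h.length - 1) := ⟨_, rfl⟩
  rw [← hρ1] at hrec2
  rw [← hρ2] at hrec
  have e1 : T.node (evR (Code.pair f g).enc a.left (bl (N + h.length)) (bl (N + l1 - 1))
      (bl (N + h.length - 1))) (T.node (ndR b1.left b2.left) (hcat h H)) =
      hcat (h ++ [ρ1, ρ2]) H := by
    rw [hcat_append, hρ1, hρ2]
    show _ = T.node (Rec.enc _) (T.node (Rec.enc _) (hcat h H))
    rw [← evR_eq, ← la, ← ndR_eq, ← lb1, ← lb2]
  have e2 : (hcat (h ++ [ρ1, ρ2]) H).size = ρ2.enc.size + (ρ1.enc.size + (hcat h H).size + 1) +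
      1 := by
    rw [hcat_append]; rfl
  have hlen : (h ++ [ρ1, ρ2]).length = h.length + 2 := by simp
  have hnum : num (T.node (bl (N + h.length)) (T.node b1 b2)) = N + h.length := by simp [num]
  refine ⟨h ++ [ρ1, ρ2], T.node (bl (N + h.length)) (T.node b1 b2), m + 1, by omega, by omega,
    by simp, ?_, ?_, ?_, ?_, ?_⟩
  · rw [e2, hM1]
    omega
  · have hsz : (st (T.node (iF (Code.pair f g).enc a.left) K)
        (T.node (T.node (bl (N + h.length - 1)) b2)
        (T.node (T.node (bl (N + l1 - 1)) b1) S)) (hcat h H) (bl (N + h.length))).size ≤ B := by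
      simp only [st, iF, T.size, T.size_unary]; omega
    rw [Nat.add_comm]
    refine LRun.trans run (LRun.one hsz ?_ ?_)
    · rw [hlen, ← e1]
      have : lStep (st (T.node (iF (Code.pair f g).enc a.left) K)
          (T.node (T.node (bl (N + h.length - 1)) b2)
          (T.node (T.node (bl (N + l1 - 1)) b1) S)) (hcat h H) (bl (N + h.length))) =
          st K (T.node (T.node (inc (bl (N + h.length))) (T.node (bl (N + h.length))
            (T.node b1 b2))) S)
            (T.node (evR (Code.pair f g).enc a.left (bl (N + h.length)) (bl (N + l1 - 1))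
              (bl (N + h.length - 1))) (T.node (ndR b1.left b2.left) (hcat h H)))
            (inc (inc (bl (N + h.length)))) := by
        simp [lStep, st, iF, finStep, fin1, T.unary, Code.enc]
      rw [this, inc_bl, inc_bl]
      rfl
    · simp only [st, T.size]
      rw [e2, hlen, show N + (h.length + 2) - 1 = N + h.length + 1 by omega,
        show N + (h.length + 2) = N + h.length + 2 by omega]
      omega
  · refine ⟨⟨by rw [hnum]; rfl, p1⟩, by simp, hb1, hb2⟩
  · intro ρ hρ
    rcases List.mem_append.1 hρ with h' | h'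
    · exact hr ρ h'
    · simp only [List.mem_cons, List.not_mem_nil, or_false] at h'
      rcases h' with rfl | rfl
      · rw [hρ1]; exact Nat.zero_le _
      · rw [hρ2]; exact le_rfl
  · intro r hrr hs hN0
    have hl0 := hrr h.length (by omega)
    rw [List.getElem_append_right (by omega)] at hl0
    simp only [Nat.sub_self, List.getElem_cons_zero] at hl0
    have hl2 := hrr (h.length + 1) (by omega)
    rw [List.getElem_append_right (by omega)] at hl2
    simp only [Nat.add_sub_cancel_left, List.getElem_cons_succ, List.getElem_cons_zero] at hl2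
    rw [← Nat.add_assoc] at hl2
    obtain ⟨ok, s1, s2, ev1, ev2⟩ := sem r (fun i hi => by
      rw [hrr i (by omega), List.getElem_append_left]) hs hN0
    rw [hlen, ← Nat.add_assoc, hnum]
    have e3 : N + h.length + 2 - 1 = N + h.length + 1 := by omega
    rw [e3]
    refine ⟨fun i hi1 hi2 => ?_, ⟨by rw [hnum]; omega, by rw [hnum, hl0, hρ1]; rfl,
      s1.mono (by omega), s2.mono (by omega)⟩, ⟨_, _, by rw [hl2, hρ2]⟩⟩
    rcases Nat.lt_or_ge i (N + h.length) with h' | h'
    · exact ok i hi1 h'
    · rcases (show i = N + h.length ∨ i = N + h.length + 1 by omega) with rfl | rfl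
      · unfold Ok
        rw [hl0, hρ1]
        exact ⟨⟨by have := s1.lt; omega, s1.isTree⟩, s2.lt, s2.isTree⟩
      · unfold Ok
        rw [hl2, hρ2]
        refine ⟨⟨by have := hs.lt; omega, hs.isTree⟩, ⟨by omega, Or.inr ⟨_, _, by rw [hl0, hρ1]⟩⟩,
          by omega, by omega, ?_⟩
        exact ⟨_, _, by rw [hl0, hρ1], ev1, by simpa using ev2⟩

theorem good_comp {f g : Code} {x y z : T} {s t : ℕ} (E1 : Eval g x y s) (E2 : Eval f y z t)
    (h1 : Good g x y s) (h2 : Good f y z t) : Good (Code.comp f g) x z (s + t + 1) := by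
  have hE : (Code.comp f g).enc.size = f.enc.size + g.enc.size + 13 := by
    simp only [T.size, Code.enc, T.unary]; omega
  refine good_two false (iA f.enc) (by simp) (by simp [Code.enc, T.unary]) E1 E2 h1 h2
    (by omega) (by omega) (by simp only [iA, T.size, T.size_unary]; omega)
    (fun P K S H n a ha => by simp [lStep, st, iR, iA, iF, runStep, Code.enc, T.unary])
    (fun P K S H n a b n' hb => by simp [lStep, st, iR, iA, T.unary])
    (fun r N N' k k' a b1 b2 ha hb e1 e2 => ⟨_, e1, by simpa using e2⟩)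

theorem good_ite_leaf {c f g : Code} {x y : T} {s t : ℕ} (E1 : Eval c x T.leaf s)
    (E2 : Eval f x y t) (h1 : Good c x T.leaf s) (h2 : Good f x y t) :
    Good (Code.ite c f g) x y (s + t + 1) := by
  have hE : (Code.ite c f g).enc.size = c.enc.size + f.enc.size + g.enc.size + 16 := by
    simp only [T.size, Code.enc, T.unary]; omega
  refine good_two true (iB (T.node f.enc g.enc)) (by simp) (by simp [Code.enc, T.unary]) E1 E2
    h1 h2 (by omega) (by omega) (by simp only [iB, T.size, T.size_unary]; omega)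
    (fun P K S H n a ha => by simp [lStep, st, iR, iB, iF, runStep, Code.enc, T.unary])
    (fun P K S H n a b n' hb => by
      have h3 := hb.2
      simp [lStep, st, iR, iB, T.unary, h3])
    (fun r N N' k k' a b1 b2 ha hb e1 e2 => ⟨_, e1, Or.inl ⟨hb.2, by simpa using e2⟩⟩)

theorem good_ite_node {c f g : Code} {x a₁ a₂ y : T} {s t : ℕ}
    (E1 : Eval c x (T.node a₁ a₂) s) (E2 : Eval g x y t) (h1 : Good c x (T.node a₁ a₂) s)
    (h2 : Good g x y t) : Good (Code.ite c f g) x y (s + t + 1) := by
  have hE : (Code.ite c f g).enc.size = c.enc.size + f.enc.size + g.enc.size + 16 := by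
    simp only [T.size, Code.enc, T.unary]; omega
  refine good_two true (iB (T.node f.enc g.enc)) (by simp) (by simp [Code.enc, T.unary]) E1 E2
    h1 h2 (by omega) (by omega) (by simp only [iB, T.size, T.size_unary]; omega)
    (fun P K S H n a ha => by simp [lStep, st, iR, iB, iF, runStep, Code.enc, T.unary])
    (fun P K S H n a b n' hb => by
      have h3 := hb.2.1
      simp [lStep, st, iR, iB, T.unary, tif, h3])
    (fun r N N' k k' a b1 b2 ha hb e1 e2 => ⟨_, e1, Or.inr ⟨_, _, hb.2.1, by simpa using e2⟩⟩)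

theorem good_loop_step {f : Code} {x y z : T} {s t : ℕ} (hx : x.left ≠ T.leaf)
    (E1 : Eval f x y s) (E2 : Eval (Code.loop f) y z t) (h1 : Good f x y s)
    (h2 : Good (Code.loop f) y z t) : Good (Code.loop f) x z (s + t + 1) := by
  have hE : (Code.loop f).enc.size = f.enc.size + 16 := by
    simp only [T.size, Code.enc, T.unary]; omega
  obtain ⟨x1, x2, rfl⟩ : ∃ x1 x2, x = T.node x1 x2 := by
    cases x with
    | leaf => exact absurd rfl hx
    | node x1 x2 => exact ⟨_, _, rfl⟩
  simp only [T.left_node] at hx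
  obtain ⟨y1, y2, rfl⟩ : ∃ y1 y2, x1 = T.node y1 y2 := by
    cases x1 with
    | leaf => exact absurd rfl hx
    | node y1 y2 => exact ⟨_, _, rfl⟩
  refine good_two false (iA (Code.loop f).enc) (by simp) (by simp [Code.enc, T.unary]) E1 E2 h1 h2
    (by omega) (by omega) (by simp only [iA, T.size, T.size_unary]; omega)
    (fun P K S H n a ha => by
      have h3 := ha.2.1
      have h4 := ha.2.2.1.2.1
      simp [lStep, st, iR, iA, iF, runStep, Code.enc, T.unary, tif, h3, h4])
    (fun P K S H n a b n' hb => by simp [lStep, st, iR, iA, T.unary])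
    (fun r N N' k k' a b1 b2 ha hb e1 e2 => Or.inr (Or.inr ⟨_, _, _, _, _, ha.2.1,
      ha.2.2.1.2.1, e1, by simpa using e2⟩))

/-- **The machine writes down the records of every computation.** -/
theorem good {c : Code} {x y : T} {t : ℕ} (h : Eval c x y t) : Good c x y t := by
  induction h with
  | id x => exact good_id x
  | leaf x => exact good_leaf x
  | fst x => exact good_fst x
  | snd x => exact good_snd x
  | pair E1 E2 ih1 ih2 => exact good_pair E1 E2 ih1 ih2
  | comp E1 E2 ih1 ih2 => exact good_comp E1 E2 ih1 ih2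
  | ite_leaf E1 E2 ih1 ih2 => exact good_ite_leaf E1 E2 ih1 ih2
  | ite_node E1 E2 ih1 ih2 => exact good_ite_node E1 E2 ih1 ih2
  | loop_stop hx => exact good_loop_stop hx
  | loop_step hx E1 E2 ih1 ih2 => exact good_loop_step hx E1 E2 ih1 ih2

end Pool.Agent.S2L.TRACE
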